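import Mathlib

-- merged part: Pool.Agent.Work.MP_e10cd8_co.Up.Defs
section
/-! Bilinear forms, sparseness and energies for the upper bound beyond the square root. -/

namespace Pool.Agent.Work.MP_e10cd8_co.Up
open Finset

variable {O Y C : Type} [Fintype O] [Fintype Y] [Fintype C]

/-- the bilinear form of a kernel -/
def Q (W : O → O → ℝ) (f g : O → ℝ) : ℝ := ∑ x, ∑ y, f x * g y * W x y

/-- `0 ≤ h ≤ b ω` -/
def Le (b : ℝ) (ω h : O → ℝ) : Prop := ∀ x, 0 ≤ h x ∧ h x ≤ b * ω x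

/-- all large weighted pairs have density at most `η` -/
def Sp (W : O → O → ℝ) (ω : O → ℝ) (η ε : ℝ) : Prop :=
  ∀ b f g, 0 ≤ b → Le b ω f → Le b ω g →
    Q W f g ≤ η * (∑ x, f x + b * ε) * (∑ x, g x + b * ε)

/-- a symmetric reflexive zero-one kernel -/
def Gr (W : O → O → ℝ) : Prop :=
  (∀ x y, W x y = 0 ∨ W x y = 1) ∧ (∀ x y, W x y = W y x) ∧ ∀ x, W x x = 1

/-- a probability vector -/
def Pb (ν : O → ℝ) : Prop := (∀ x, 0 ≤ ν x) ∧ ∑ x, ν x = 1

/-- mean square of the residual of `h` -/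
def En (ν : Y → ℝ) (R : Y → O → ℝ) (h : O → ℝ) : ℝ := ∑ v, ν v * (∑ x, h x * R v x) ^ 2

/-- mean of the form on residuals -/
def TT (W : O → O → ℝ) (ν : Y → ℝ) (R : Y → O → ℝ) (f g : O → ℝ) : ℝ :=
  ∑ v, ν v * Q W (fun x => f x * R v x) fun x => g x * R v x

/-- no component at scale `y` -/
def Bd (ν : Y → ℝ) (R : Y → O → ℝ) (ε : ℝ) (ω : O → ℝ) (y : ℝ) : Prop :=
  ∀ h, Le 1 ω h → En ν R h ≤ y * (∑ x, h x + ε) ^ 2

/-- no family of at most `k` components gains more than `Γ` -/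
def NG (ν : Y → ℝ) (R : Y → O → ℝ) (ω : O → ℝ) (k : ℕ) (Γ : ℝ) : Prop :=
  ∀ j ≤ k, ∀ h : Fin j → O → ℝ, (∀ b x, 0 ≤ h b x) → (∀ x, ∑ b, h b x ≤ ω x) →
    ∑ b, En ν R (h b) / ∑ x, h b x ≤ Γ

/-- density of the neighbourhood of `v` in the cell `g` -/
noncomputable def G (W : O → O → ℝ) (g : O → ℝ) (v : O) : ℝ := (∑ x, g x * W v x) / ∑ x, g x

/-- the residual of a soft partition -/
noncomputable def Rt (W : O → O → ℝ) (η : ℝ) (f : C → O → ℝ) (v : O) (p : C × O) : ℝ :=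
  if G W (f p.1) v ≤ 2 * η then (W v p.2 - G W (f p.1) v) / (1 - G W (f p.1) v) else 0

/-- `μ` is a cheap move from `ν` that clears the neighbourhood of `v` -/
def Mv (W : O → O → ℝ) (β c : ℝ) (ν : O → ℝ) (v : O) (μ : O → ℝ) : Prop :=
  Le 4 ν μ ∧ ∑ x, μ x = 1 ∧ (∀ x, W v x = 1 → μ x = 0) ∧
    ∑ x, (μ x - ν x) ^ 2 / ν x + β * Q W (fun x => μ x - ν x) (fun x => μ x - ν x) ≤ c

theorem Gr.nonneg {W : O → O → ℝ} (h : Gr W) (x y : O) : 0 ≤ W x y := by
  rcases h.1 x y with e | e <;> rw [e] <;> norm_num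

theorem Gr.le_one {W : O → O → ℝ} (h : Gr W) (x y : O) : W x y ≤ 1 := by
  rcases h.1 x y with e | e <;> rw [e] <;> norm_num

theorem Le.sum_nonneg {b : ℝ} {ω h : O → ℝ} (H : Le b ω h) : 0 ≤ ∑ x, h x :=
  Finset.sum_nonneg fun x _ => (H x).1

theorem Le.sum_le {b : ℝ} {ω h : O → ℝ} (H : Le b ω h) : ∑ x, h x ≤ b * ∑ x, ω x := by
  rw [mul_sum]
  exact sum_le_sum fun x _ => (H x).2

theorem Le.refl {ω : O → ℝ} (h : ∀ x, 0 ≤ ω x) : Le 1 ω ω := fun x => ⟨h x, by rw [one_mul]⟩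

theorem Le.trans {b c : ℝ} {ω ω' h : O → ℝ} (hb : 0 ≤ b) (H' : Le c ω ω') (H : Le b ω' h) :
    Le (b * c) ω h := fun x =>
  ⟨(H x).1, (H x).2.trans (by rw [mul_assoc]; exact mul_le_mul_of_nonneg_left (H' x).2 hb)⟩

theorem Sp.mono {W : O → O → ℝ} {ω ω' : O → ℝ} {η ε ε' c : ℝ} (h : Sp W ω η ε) (hη : 0 ≤ η)
    (hε : 0 ≤ ε) (hc : 0 ≤ c) (hω : Le c ω ω') (he : c * ε ≤ ε') : Sp W ω' η ε' := by
  intro b f g hb hf hg
  have e : b * c * ε ≤ b * ε' := by rw [mul_assoc]; exact mul_le_mul_of_nonneg_left he hb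
  have p : 0 ≤ b * c * ε := by positivity
  have p' := p.trans e
  have a1 := hf.sum_nonneg
  have a2 := hg.sum_nonneg
  refine (h (b * c) f g (by positivity) (Le.trans hb hω hf) (Le.trans hb hω hg)).trans ?_
  exact mul_le_mul (mul_le_mul_of_nonneg_left (by linarith) hη) (by linarith) (by linarith)
    (mul_nonneg hη (by linarith))

theorem Q_mul (W : O → O → ℝ) (f g : O → ℝ) (a b : ℝ) :
    Q W (fun x => a * f x) (fun x => b * g x) = a * b * Q W f g := by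
  simp only [Q, mul_sum]
  exact sum_congr rfl fun _ _ => sum_congr rfl fun _ _ => by ring

theorem Q_add_left (W : O → O → ℝ) (f f' g : O → ℝ) :
    Q W (fun x => f x + f' x) g = Q W f g + Q W f' g := by
  simp only [Q, add_mul, sum_add_distrib]

theorem Q_add_right (W : O → O → ℝ) (f g g' : O → ℝ) :
    Q W f (fun x => g x + g' x) = Q W f g + Q W f g' := by
  simp only [Q, add_mul, mul_add, sum_add_distrib]

theorem Q_mono {W : O → O → ℝ} (hW : ∀ x y, 0 ≤ W x y) {f f' g g' : O → ℝ}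
    (hf : ∀ x, |f x| ≤ f' x) (hg : ∀ x, |g x| ≤ g' x) : |Q W f g| ≤ Q W f' g' := by
  refine (abs_sum_le_sum_abs _ _).trans (sum_le_sum fun x _ =>
    (abs_sum_le_sum_abs _ _).trans (sum_le_sum fun y _ => ?_))
  rw [abs_mul, abs_mul, abs_of_nonneg (hW x y)]
  exact mul_le_mul_of_nonneg_right (mul_le_mul (hf x) (hg y) (abs_nonneg _)
    ((abs_nonneg _).trans (hf x))) (hW x y)

theorem Q_le {W : O → O → ℝ} (hW : ∀ x y, 0 ≤ W x y) (hW1 : ∀ x y, W x y ≤ 1) {f f' g g' : O → ℝ}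
    (hf : ∀ x, |f x| ≤ f' x) (hg : ∀ x, |g x| ≤ g' x) :
    |Q W f g| ≤ (∑ x, f' x) * ∑ x, g' x := by
  refine (Q_mono hW hf hg).trans ?_
  rw [sum_mul_sum]
  exact sum_le_sum fun x _ => sum_le_sum fun y _ => mul_le_of_le_one_right
    (mul_nonneg ((abs_nonneg _).trans (hf x)) ((abs_nonneg _).trans (hg y))) (hW1 x y)

/-- it is enough to check sparseness for `b = 1` -/
theorem sp_of_one {W : O → O → ℝ} {ω : O → ℝ} {η ε : ℝ}
    (h : ∀ f g, Le 1 ω f → Le 1 ω g → Q W f g ≤ η * (∑ x, f x + ε) * (∑ x, g x + ε)) :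
    Sp W ω η ε := by
  intro b f g hb hf hg
  rcases hb.eq_or_lt with rfl | hb
  · have e : f = fun _ => 0 := funext fun x => le_antisymm (by simpa using (hf x).2) (hf x).1
    simp [e, Q]
  · have k : ∀ f, Le b ω f → Le 1 ω fun x => b⁻¹ * f x := fun f hf x =>
      ⟨mul_nonneg (inv_pos.2 hb).le (hf x).1, by
        rw [inv_mul_le_iff₀ hb, one_mul]; exact (hf x).2⟩
    have a := mul_le_mul_of_nonneg_left (h _ _ (k f hf) (k g hg)) (mul_pos hb hb).le
    rw [Q_mul, ← mul_sum, ← mul_sum] at a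
    refine le_trans (le_of_eq ?_) (a.trans (le_of_eq ?_)) <;> field_simp

/-- marginals -/
theorem Q_marg (W : O → O → ℝ) (f g : C × O → ℝ) :
    Q (fun p p' : C × O => W p.2 p'.2) f g = Q W (fun x => ∑ c, f (c, x)) fun x => ∑ c, g (c, x) := by
  simp only [Q, Fintype.sum_prod_type_right, sum_mul, mul_sum]
  exact sum_congr rfl fun _ _ => sum_comm.trans (sum_congr rfl fun _ _ => sum_comm)

theorem Sp.lift {W : O → O → ℝ} {ν : O → ℝ} {η ε : ℝ} (h : Sp W ν η ε) {f : C → O → ℝ}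
    (hf : ∀ x, ∑ c, f c x ≤ ν x) :
    Sp (fun p p' : C × O => W p.2 p'.2) (fun p => f p.1 p.2) η ε := by
  intro b g g' hb hg hg'
  have k : ∀ g : C × O → ℝ, Le b (fun p => f p.1 p.2) g → Le b ν fun x => ∑ c, g (c, x) :=
    fun g hg x => ⟨sum_nonneg fun c _ => (hg _).1, (sum_le_sum fun c _ => (hg (c, x)).2).trans (by
      rw [← mul_sum]; exact mul_le_mul_of_nonneg_left (hf x) hb)⟩
  rw [Q_marg, Fintype.sum_prod_type_right, Fintype.sum_prod_type_right]
  exact h b _ _ hb (k g hg) (k g' hg')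

/-- Cauchy-Schwarz with possibly empty cells -/
theorem titu {a m : C → ℝ} (hm : ∀ c, 0 ≤ m c) (h0 : ∀ c, m c = 0 → a c = 0) :
    (∑ c, a c) ^ 2 / ∑ c, m c ≤ ∑ c, a c ^ 2 / m c := by
  set l := (∑ c, a c) / ∑ c, m c with hl
  have k : ∀ c ∈ univ, 2 * l * a c - l ^ 2 * m c ≤ a c ^ 2 / m c := fun c _ => by
    rcases (hm c).eq_or_lt with e | e
    · simp [← e, h0 c e.symm]
    · rw [le_div_iff₀ e]
      nlinarith [sq_nonneg (a c - l * m c)]
  refine le_trans (le_of_eq ?_) (sum_le_sum k)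
  rw [sum_sub_distrib, ← mul_sum, ← mul_sum, hl]
  by_cases e : ∑ c, m c = 0
  · simp [e]
  · field_simp
    ring

end Pool.Agent.Work.MP_e10cd8_co.Up
end

-- merged part: Pool.Agent.Work.MP_e10cd8_co.Up.Tilt
section
/-! The tilt lemma (paper 3). -/

namespace Pool.Agent.Work.MP_e10cd8_co.Up
open Finset

variable {O Y : Type} [Fintype O] [Fintype Y]

/-- the standing assumptions of the tilt and cover lemmas -/
structure Cx (W : O → O → ℝ) (ν : Y → ℝ) (R : Y → O → ℝ) (ω : O → ℝ) (η ε u : ℝ) (s : ℕ) :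
    Prop where
  hW : ∀ x y, 0 ≤ W x y
  hν : Pb ν
  hR0 : ∀ x, ∑ v, ν v * R v x = 0
  hR : ∀ v x, -(8 * η) ≤ R v x ∧ R v x ≤ 2
  hη : 0 < η
  hη1 : η ≤ 1 / 4
  hε : 0 < ε
  hu : 0 < u
  hu1 : u ≤ 1
  hs : 1 ≤ s * u
  hB : (1 + 1 / (4 * η)) ^ s * ε ≤ 1
  hω : ∑ x, ω x ≤ 1
  hS : Sp W ω η ε

theorem tilt_bd {ν : Y → ℝ} {R : Y → O → ℝ} {ω h : O → ℝ} {ε y b : ℝ} (H : Bd ν R ε ω y)
    (hb : 0 < b) (hh : Le b ω h) : En ν R h ≤ y * (∑ x, h x + b * ε) ^ 2 := by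
  have a := mul_le_mul_of_nonneg_left (H (fun x => b⁻¹ * h x) fun x =>
    ⟨mul_nonneg (inv_pos.2 hb).le (hh x).1, by
      rw [inv_mul_le_iff₀ hb, one_mul]; exact (hh x).2⟩) (sq_nonneg b)
  simp only [En, mul_assoc, ← mul_sum, mul_pow, mul_left_comm _ (b⁻¹ ^ 2)] at a
  refine le_trans (le_of_eq ?_) (a.trans (le_of_eq ?_))
  · rw [En]
    field_simp
  · field_simp

theorem tilt_mean (W : O → O → ℝ) (ν : Y → ℝ) (A : Y → O → ℝ) (f g : O → ℝ) :
    ∑ v, ν v * Q W (fun x => f x * A v x) (fun x => g x * A v x) =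
      Q (fun x x' => W x x' * ∑ v, ν v * (A v x * A v x')) f g := by
  simp only [Q, mul_sum]
  refine sum_comm.trans (sum_congr rfl fun _ _ => sum_comm.trans ?_)
  exact sum_congr rfl fun _ _ => sum_congr rfl fun _ _ => by ring

theorem tilt_exp {ν r r' : Y → ℝ} (h1 : ∑ v, ν v = 1) (h : ∑ v, ν v * r v = 0)
    (h' : ∑ v, ν v * r' v = 0) (a P P' : ℝ) :
    ∑ v, ν v * ((P + a * r v) * (P' + a * r' v)) = P * P' + a ^ 2 * ∑ v, ν v * (r v * r' v) := by
  have e : ∀ v, ν v * ((P + a * r v) * (P' + a * r' v)) = P * P' * ν v + (a * P' * (ν v * r v) +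
      (a * P * (ν v * r' v) + a ^ 2 * (ν v * (r v * r' v)))) := fun v => by ring
  simp only [e, sum_add_distrib, ← mul_sum, h1, h, h', mul_one, mul_zero, zero_add]

theorem tilt_cs {ν r r' : Y → ℝ} (h0 : ∀ v, 0 ≤ ν v) {y P P' : ℝ} (hP : 0 < P) (hP' : 0 < P')
    (h : ∑ v, ν v * r v ^ 2 ≤ y * P ^ 2) (h' : ∑ v, ν v * r' v ^ 2 ≤ y * P' ^ 2) :
    ∑ v, ν v * (r v * r' v) ≤ y * (P * P') := by
  have a : 2 * (P * P') * ∑ v, ν v * (r v * r' v) ≤
      P' ^ 2 * ∑ v, ν v * r v ^ 2 + P ^ 2 * ∑ v, ν v * r' v ^ 2 := by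
    rw [mul_sum, mul_sum, mul_sum, ← sum_add_distrib]
    exact sum_le_sum fun v _ => by nlinarith [mul_nonneg (h0 v) (sq_nonneg (P' * r v - P * r' v))]
  refine le_of_mul_le_mul_left (a.trans ?_) (by positivity)
  nlinarith [mul_le_mul_of_nonneg_left h (sq_nonneg P'), mul_le_mul_of_nonneg_left h' (sq_nonneg P)]

theorem tilt_pow {W : O → O → ℝ} {ν : Y → ℝ} {R : Y → O → ℝ} {ω : O → ℝ} {η ε u y a B : ℝ}
    (hν : Pb ν) (h0 : ∀ x, ∑ v, ν v * R v x = 0) (hA : ∀ v x, 0 ≤ 1 + a * R v x ∧ 1 + a * R v x ≤ B)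
    (hB : 1 ≤ B) (hη : 0 ≤ η) (hε : 0 < ε) (hu : 0 ≤ u) (hy : 0 ≤ y) (ha : a ^ 2 * y = u)
    (hS : Sp W ω η ε) (hBd : Bd ν R ε ω y) (s : ℕ) : ∀ b f g, 0 < b → Le b ω f → Le b ω g →
      Q (fun x x' => W x x' * (∑ v, ν v * ((1 + a * R v x) * (1 + a * R v x'))) ^ s) f g ≤
        η * (1 + u) ^ s * ((∑ x, f x + b * B ^ s * ε) * (∑ x, g x + b * B ^ s * ε)) := by
  induction' s with s ih <;> intro b f g hb hf hg
  · simp only [pow_zero, mul_one, ← mul_assoc]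
    exact hS b f g hb.le hf hg
  have B0 : 0 < B := by linarith
  have k : ∀ f, Le b ω f → ∀ v, Le (b * B) ω fun x => f x * (1 + a * R v x) := fun f hf v x =>
    ⟨mul_nonneg (hf x).1 (hA v x).1, by
      rw [mul_right_comm]
      exact mul_le_mul (hf x).2 (hA v x).2 (hA v x).1 ((hf x).1.trans (hf x).2)⟩
  obtain ⟨e, he⟩ : ∃ e, e = b * B ^ (s + 1) * ε := ⟨_, rfl⟩
  have e1 : b * ε ≤ e :=
    he ▸ mul_le_mul_of_nonneg_right (le_mul_of_one_le_right hb.le (one_le_pow₀ hB)) hε.le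
  have e0 := mul_pos hb hε
  have m : ∀ (f : O → ℝ) v, ∑ x, f x * (1 + a * R v x) + b * B * B ^ s * ε =
      (∑ x, f x + e) + a * ∑ x, f x * R v x := fun f v => by
    simp only [mul_add, mul_one, sum_add_distrib, mul_left_comm _ a, ← mul_sum, he]
    ring
  have z : ∀ f : O → ℝ, ∑ v, ν v * ∑ x, f x * R v x = 0 := fun f => by
    simp only [mul_sum]
    rw [sum_comm]
    simp only [mul_left_comm _ (f _), ← mul_sum, h0, mul_zero, sum_const_zero]
  have n : ∀ f, Le b ω f → ∑ v, ν v * (∑ x, f x * R v x) ^ 2 ≤ y * (∑ x, f x + e) ^ 2 :=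
    fun f hf => (tilt_bd hBd hb hf).trans (mul_le_mul_of_nonneg_left (pow_le_pow_left₀
      (by linarith [hf.sum_nonneg]) (by linarith) _) hy)
  have c := mul_le_mul_of_nonneg_left (tilt_cs hν.1 (by linarith [hf.sum_nonneg])
    (by linarith [hg.sum_nonneg]) (n f hf) (n g hg)) (sq_nonneg a)
  simp only [pow_succ (∑ v, ν v * _), ← mul_assoc (W _ _)]
  rw [← tilt_mean, ← he]
  refine (sum_le_sum fun v _ => mul_le_mul_of_nonneg_left
    (ih _ _ _ (mul_pos hb B0) (k f hf v) (k g hg v)) (hν.1 v)).trans ?_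
  simp only [m, mul_left_comm _ (η * (1 + u) ^ s)]
  rw [← mul_sum, tilt_exp hν.2 (z f) (z g), pow_succ (1 + u), ← mul_assoc η,
    mul_assoc (η * (1 + u) ^ s)]
  refine mul_le_mul_of_nonneg_left ?_ (by positivity)
  rw [← mul_assoc, ha] at c
  linarith

theorem tilt {W : O → O → ℝ} {ν : Y → ℝ} {R : Y → O → ℝ} {ω ω' f g : O → ℝ} {η ε u y : ℝ} {s : ℕ}
    (H : Cx W ν R ω η ε u s) (hy : 64 * η ^ 2 * u ≤ y) (hω' : Le 1 ω ω') (hBd : Bd ν R ε ω' y)
    (hf : Le 1 ω' f) (hg : Le 1 ω' g) :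
    TT W ν R f g ≤ 3 * y * Q W f g + 16 * y * η / (1 + u) ^ s := by
  have η0 := H.hη
  have u0 := H.hu
  have u1 := H.hu1
  have y0 : 0 < y := lt_of_lt_of_le (by positivity) hy
  obtain ⟨a, a0, a1⟩ : ∃ a : ℝ, 0 ≤ a ∧ a ^ 2 * y = u := ⟨√(u / y), Real.sqrt_nonneg _, by
    rw [Real.sq_sqrt (by positivity), div_mul_cancel₀ _ y0.ne']⟩
  have a2 : 8 * η * a ≤ 1 := by
    refine (pow_le_one_iff_of_nonneg (by positivity) two_ne_zero).1
      (le_of_mul_le_mul_right ?_ y0)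
    rw [mul_pow, mul_assoc, a1]
    linarith
  have a3 : 2 * a ≤ 1 / (4 * η) := by
    rw [le_div_iff₀ (by positivity)]
    linarith
  have hA : ∀ v x, 0 ≤ 1 + a * R v x ∧ 1 + a * R v x ≤ 1 + 1 / (4 * η) := fun v x =>
    ⟨by nlinarith [mul_le_mul_of_nonneg_left (H.hR v x).1 a0],
      by nlinarith [mul_le_mul_of_nonneg_left (H.hR v x).2 a0]⟩
  have L := tilt_pow H.hν H.hR0 hA (by linarith) η0.le H.hε u0.le y0.le a1
    (H.hS.mono η0.le H.hε.le zero_le_one hω' (one_mul _).le) hBd s 1 f g one_pos hf hg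
  have b : ∀ f, Le 1 ω' f → ∑ x, f x + 1 * (1 + 1 / (4 * η)) ^ s * ε ≤ 2 := fun f hf => by
    linarith [hf.sum_le, hω'.sum_le, H.hω, H.hB]
  have e0 : 0 ≤ 1 * (1 + 1 / (4 * η)) ^ s * ε := by have := H.hε; positivity
  have L1 := L.trans (mul_le_mul_of_nonneg_left (mul_le_mul (b f hf) (b g hg)
    (by linarith [hg.sum_nonneg]) two_pos.le) (by positivity))
  obtain ⟨c, hc⟩ : ∃ c, c = 1 + 3 * u := ⟨_, rfl⟩
  have c0 : 0 < c := by linarith
  have p0 : 0 < (1 + u) ^ s := by positivity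
  have L2 : c ^ s * (s / c) * (a ^ 2 * TT W ν R f g - 3 * u * Q W f g) ≤
      η * (1 + u) ^ s * (2 * 2) := by
    refine le_trans ?_ L1
    rw [TT, tilt_mean]
    simp only [Q]
    rw [mul_sum, mul_sum, ← sum_sub_distrib, mul_sum]
    refine sum_le_sum fun x _ => ?_
    rw [mul_sum, mul_sum, ← sum_sub_distrib, mul_sum]
    refine sum_le_sum fun x' _ => ?_
    have w0 : 0 ≤ ∑ v, ν v * ((1 + a * R v x) * (1 + a * R v x')) :=
      sum_nonneg fun v _ => mul_nonneg (H.hν.1 v) (mul_nonneg (hA v x).1 (hA v x').1)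
    rw [tilt_exp H.hν.2 (H.hR0 x) (H.hR0 x')] at w0 ⊢
    generalize ∑ v, ν v * (R v x * R v x') = K at w0 ⊢
    have w1 := mul_le_mul_of_nonneg_left (one_add_mul_le_pow
      (a := (1 * 1 + a ^ 2 * K) / c - 1) (by linarith [div_nonneg w0 c0.le]) s) (pow_pos c0 s).le
    rw [add_sub_cancel, ← mul_pow, mul_div_cancel₀ _ c0.ne', div_sub_one c0.ne',
      show 1 * 1 + a ^ 2 * K - c = a ^ 2 * K - 3 * u by rw [hc]; ring] at w1
    have w2 : c ^ s * (s / c) * (a ^ 2 * K - 3 * u) ≤ (1 * 1 + a ^ 2 * K) ^ s := by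
      refine le_trans ?_ w1
      rw [mul_assoc, div_mul_eq_mul_div, mul_div_assoc]
      exact mul_le_mul_of_nonneg_left (by linarith) (pow_pos c0 s).le
    refine le_trans (le_of_eq ?_) ((mul_le_mul_of_nonneg_left w2
      (mul_nonneg (mul_nonneg (hf x).1 (hg x').1) (H.hW x x'))).trans (le_of_eq ?_)) <;> ring
  have t : a ^ 2 * TT W ν R f g - 3 * u * Q W f g = a ^ 2 * (TT W ν R f g - 3 * y * Q W f g) := by
    rw [← a1]
    ring
  rw [t] at L2
  rw [← sub_le_iff_le_add']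
  generalize TT W ν R f g - 3 * y * Q W f g = T at L2 ⊢
  rcases le_total T 0 with k | k
  · exact k.trans (by positivity)
  have d1 : (1 + u) ^ s * (1 + u) ^ s ≤ c ^ s := by
    rw [← mul_pow]
    exact pow_le_pow_left₀ (by positivity) (by nlinarith) _
  have d2 : 1 / 4 ≤ s / c * u := by
    rw [div_mul_eq_mul_div, le_div_iff₀ c0]
    linarith [H.hs]
  have d3 := mul_le_mul_of_nonneg_right (mul_le_mul d1 d2 (by norm_num) (by positivity)) k
  have d4 := mul_le_mul_of_nonneg_right L2 y0.le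
  have d5 : c ^ s * (s / c) * (a ^ 2 * T) * y = c ^ s * (s / c * u) * T := by
    rw [← a1]
    ring
  rw [le_div_iff₀ p0]
  refine le_of_mul_le_mul_left ?_ p0
  linarith

end Pool.Agent.Work.MP_e10cd8_co.Up
end

-- merged part: Pool.Agent.Work.MP_e10cd8_co.Up.Cover
section
/-! Covering by components at dyadic scales (paper 4). -/

namespace Pool.Agent.Work.MP_e10cd8_co.Up
open Finset

variable {O Y : Type} [Fintype O] [Fintype Y]

/-- `H ≤ ω` is a sum of `j` pieces of mean mass at least `c` and total gain at least `ga` -/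
def cover_St (ν : Y → ℝ) (R : Y → O → ℝ) (ω : O → ℝ) (c : ℝ) (H : O → ℝ) (j : ℕ) (ga : ℝ) :
    Prop :=
  (∃ h : Fin j → O → ℝ, (∀ b x, 0 ≤ h b x) ∧ (∀ x, ∑ b, h b x = H x) ∧
    ga ≤ ∑ b, En ν R (h b) / ∑ x, h b x) ∧ Le 1 ω H ∧ j * c ≤ ∑ x, H x

section aux
variable {W : O → O → ℝ} {ν : Y → ℝ} {R : Y → O → ℝ} {ω : O → ℝ} {η ε u y q Γ : ℝ} {s k : ℕ}

theorem cover_en (H : Cx W ν R ω η ε u s) {h : O → ℝ} (h0 : ∀ x, 0 ≤ h x) :
    En ν R h ≤ 4 * (∑ x, h x) ^ 2 := by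
  have a : ∀ v, (∑ x, h x * R v x) ^ 2 ≤ 4 * (∑ x, h x) ^ 2 := fun v => by
    have e : 4 * (∑ x, h x) ^ 2 = (∑ x, h x * 2) ^ 2 := by rw [← sum_mul]; ring
    rw [e]
    refine sq_le_sq' ?_ (sum_le_sum fun x _ => mul_le_mul_of_nonneg_left (H.hR v x).2 (h0 x))
    rw [← sum_neg_distrib]
    refine sum_le_sum fun x _ => ?_
    have := mul_le_mul_of_nonneg_left (H.hR v x).1 (h0 x)
    nlinarith [H.hη1, h0 x]
  refine (sum_le_sum fun v _ => mul_le_mul_of_nonneg_left (a v) (H.hν.1 v)).trans_eq ?_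
  rw [← sum_mul, H.hν.2, one_mul]

theorem cover_eps (H : Cx W ν R ω η ε u s) : ε ≤ 1 / (1 + u) ^ s ∧ ε ≤ 1 := by
  have p : 1 ≤ (1 + u) ^ s := one_le_pow₀ (by linarith [H.hu])
  have a : 1 ≤ 1 / (4 * η) := by
    rw [le_div_iff₀ (by linarith [H.hη])]
    linarith [H.hη1]
  have b : (1 + u) ^ s ≤ (1 + 1 / (4 * η)) ^ s :=
    pow_le_pow_left₀ (by linarith [H.hu]) (by linarith [H.hu1]) s
  have c := (mul_le_mul_of_nonneg_right b H.hε.le).trans H.hB
  refine ⟨?_, by nlinarith [H.hε]⟩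
  rw [le_div_iff₀ (by linarith)]
  linarith

theorem cover_le {A : O → ℝ} (hA : Le 1 ω A) : Le 1 ω fun x => ω x - A x := fun x =>
  ⟨by linarith [(hA x).2], by linarith [(hA x).1]⟩

theorem cover_card (H : Cx W ν R ω η ε u s) (hy : 0 < y) (hk : 2 ≤ k * (y * ε)) {A : O → ℝ}
    {j : ℕ} {ga : ℝ} (S : cover_St ν R ω (y * ε / 2) A j ga) : j ≤ k := by
  have a := S.2.1.sum_le
  have b := S.2.2
  have c : (j : ℝ) * (y * ε) ≤ k * (y * ε) := by linarith [H.hω]
  exact_mod_cast le_of_mul_le_mul_right c (mul_pos hy H.hε)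

theorem cover_one (H : Cx W ν R ω η ε u s) (hy : 0 < y) (hy1 : y ≤ 1) {z : ℝ} (hz : y ≤ z)
    {A : O → ℝ} {j : ℕ} {ga : ℝ} (S : cover_St ν R ω (y * ε / 2) A j ga)
    (hB : ¬Bd ν R ε (fun x => ω x - A x) z) :
    ∃ B : O → ℝ, (∀ x, A x ≤ B x) ∧
      cover_St ν R ω (y * ε / 2) B (j + 1) (ga + z * (∑ x, B x - ∑ x, A x)) := by
  obtain ⟨⟨h, h0, hs, hg⟩, hA, hc⟩ := S
  simp only [Bd, not_forall, not_le] at hB
  obtain ⟨f, hf, hE⟩ := hB
  have m0 := hf.sum_nonneg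
  have e4 := cover_en H fun x => (hf x).1
  have hε := H.hε
  have z0 := hy.trans_le hz
  set m := ∑ x, f x with hm
  have a1 : z * ε ^ 2 ≤ z * (m + ε) ^ 2 :=
    mul_le_mul_of_nonneg_left (by nlinarith) z0.le
  have a2 : y ^ 2 * ε ^ 2 ≤ z * ε ^ 2 := mul_le_mul_of_nonneg_right (by nlinarith) (sq_nonneg _)
  have a3 : y * ε < 2 * m := lt_of_pow_lt_pow_left₀ 2 (by linarith) (by nlinarith)
  have m1 : 0 < m := by nlinarith [mul_pos hy hε]
  have a4 : z * m ≤ En ν R f / m := by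
    rw [le_div_iff₀ m1]
    have : z * m ^ 2 ≤ z * (m + ε) ^ 2 := mul_le_mul_of_nonneg_left (by nlinarith) z0.le
    nlinarith
  refine ⟨fun x => A x + f x, fun x => by linarith [(hf x).1],
    ⟨Fin.cons f h, fun b x => ?_, fun x => ?_, ?_⟩,
    fun x => ⟨by linarith [(hf x).1, (hA x).1], by linarith [(hf x).2]⟩, ?_⟩
  · refine Fin.cases ?_ (fun b => ?_) b
    · exact (hf x).1
    · exact h0 b x
  · rw [Fin.sum_univ_succ]
    simp only [Fin.cons_zero, Fin.cons_succ, hs]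
    ring
  · rw [Fin.sum_univ_succ, sum_add_distrib]
    simp only [Fin.cons_zero, Fin.cons_succ, ← hm]
    linarith
  · rw [sum_add_distrib, ← hm]
    push_cast
    linarith

theorem cover_greedy (H : Cx W ν R ω η ε u s) (hy : 0 < y) (hy1 : y ≤ 1) (hk : 2 ≤ k * (y * ε))
    {z : ℝ} (hz : y ≤ z) (r : ℕ) : ∀ (A : O → ℝ) (j : ℕ) (ga : ℝ),
    cover_St ν R ω (y * ε / 2) A j ga → k < j + r →
    ∃ (B : O → ℝ) (j' : ℕ), (∀ x, A x ≤ B x) ∧
      cover_St ν R ω (y * ε / 2) B j' (ga + z * (∑ x, B x - ∑ x, A x)) ∧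
      Bd ν R ε (fun x => ω x - B x) z := by
  induction r with
  | zero => exact fun A j ga S hr => absurd (cover_card H hy hk S) (by omega)
  | succ r ih =>
    intro A j ga S hr
    by_cases hB : Bd ν R ε (fun x => ω x - A x) z
    · exact ⟨A, j, fun _ => le_rfl, by simpa using S, hB⟩
    obtain ⟨B, hAB, S1⟩ := cover_one H hy hy1 hz S hB
    obtain ⟨D, j', hBD, S2, hD⟩ := ih B (j + 1) _ S1 (by omega)
    refine ⟨D, j', fun x => (hAB x).trans (hBD x), ?_, hD⟩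
    rwa [show ga + z * (∑ x, B x - ∑ x, A x) + z * (∑ x, D x - ∑ x, B x) =
      ga + z * (∑ x, D x - ∑ x, A x) by ring] at S2

theorem cover_TT (W : O → O → ℝ) (ν : Y → ℝ) (R : Y → O → ℝ) {a b c : O → ℝ}
    (e : ∀ x, c x = a x + b x) : TT W ν R c c = TT W ν R a a + TT W ν R a b + TT W ν R b c := by
  simp only [TT, Q, e, ← sum_add_distrib, mul_sum]
  exact sum_congr rfl fun _ _ => sum_congr rfl fun _ _ => sum_congr rfl fun _ _ => by ring

theorem cover_cross (H : Cx W ν R ω η ε u s) {z : ℝ} (hz : 64 * η ^ 2 * u ≤ 2 * z)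
    {ω' f g : O → ℝ} (hω' : Le 1 ω ω') (hB : Bd ν R ε ω' (2 * z)) (hf : Le 1 ω' f)
    (hg : Le 1 ω' g) {d : ℝ} (hd : (∑ x, f x + ε) * (∑ x, g x + ε) ≤ 2 * (d + ε)) :
    TT W ν R f g ≤ 12 * η * z * d + 44 * η * (1 / (1 + u) ^ s) * z := by
  have t := tilt H hz hω' hB hf hg
  have hη := H.hη
  have hu := H.hu
  have z0 : 0 ≤ z := by nlinarith [mul_pos (pow_pos hη 2) hu]
  have a := H.hS 1 f g zero_le_one (by simpa using Le.trans zero_le_one hω' hf)
    (by simpa using Le.trans zero_le_one hω' hg)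
  rw [one_mul, mul_assoc] at a
  have b := mul_le_mul_of_nonneg_left (a.trans (mul_le_mul_of_nonneg_left hd hη.le)) z0
  have c := mul_le_mul_of_nonneg_left (cover_eps H).1 (mul_nonneg hη.le z0)
  rw [div_eq_mul_one_div] at t
  nlinarith

theorem cover_layers (H : Cx W ν R ω η ε u s) (hy : 64 * η ^ 2 * u ≤ y) (hy1 : y ≤ 1)
    (hk : 2 ≤ k * (y * ε)) (hq : Q W ω ω ≤ q) (i : ℕ) : ∀ (A : O → ℝ) (j : ℕ) (ga : ℝ),
    cover_St ν R ω (y * ε / 2) A j ga → Bd ν R ε (fun x => ω x - A x) (2 ^ i * y) →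
    ∃ (B : O → ℝ) (j' : ℕ) (gb : ℝ), cover_St ν R ω (y * ε / 2) B j' gb ∧
      TT W ν R (fun x => ω x - A x) (fun x => ω x - A x) ≤
        3 * y * q + 24 * η * (gb - ga) + 88 * η * (1 / (1 + u) ^ s) * (2 ^ i * y) := by
  have hη := H.hη
  have hu := H.hu
  have y0 : 0 < y := lt_of_lt_of_le (by positivity) hy
  induction i with
  | zero =>
    intro A j ga S hB
    have l := cover_le S.2.1
    have r := Le.refl fun x => (l x).1
    rw [pow_zero, one_mul] at hB ⊢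
    have t := tilt H hy l hB r r
    have k : ∀ x, |ω x - A x| ≤ ω x := fun x => by
      rw [abs_of_nonneg (l x).1]
      linarith [(l x).2]
    have a := mul_le_mul_of_nonneg_left (((le_abs_self _).trans (Q_mono H.hW k k)).trans hq) y0.le
    have p : 0 ≤ η * (1 / (1 + u) ^ s) * y := by positivity
    refine ⟨A, j, ga, S, ?_⟩
    rw [div_eq_mul_one_div] at t
    nlinarith
  | succ i ih =>
    intro A j ga S hB
    have p : (1 : ℝ) ≤ 2 ^ i := one_le_pow₀ one_le_two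
    rw [pow_succ', mul_assoc 2] at hB ⊢
    set z := 2 ^ i * y with hz
    have yz : y ≤ z := le_mul_of_one_le_left y0.le p
    obtain ⟨B, j1, hAB, S1, hB1⟩ := cover_greedy H y0 hy1 hk yz (k + 1) A j ga S (by omega)
    obtain ⟨D, j2, gb, S2, t⟩ := ih B j1 _ S1 hB1
    refine ⟨D, j2, gb, S2, ?_⟩
    have l := cover_le S.2.1
    have l1 : Le 1 (fun x => ω x - A x) fun x => ω x - A x := Le.refl fun x => (l x).1
    have l2 : Le 1 (fun x => ω x - A x) fun x => ω x - B x := fun x =>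
      ⟨by linarith [(S1.2.1 x).2], by linarith [hAB x]⟩
    have l3 : Le 1 (fun x => ω x - A x) fun x => B x - A x := fun x =>
      ⟨by linarith [hAB x], by linarith [(S1.2.1 x).2]⟩
    have s1 := l.sum_le
    have s2 := l2.sum_le
    have s3 := l3.sum_nonneg
    have hε := H.hε
    have e1 := (cover_eps H).2
    have hω := H.hω
    have z2 : 64 * η ^ 2 * u ≤ 2 * z := by linarith
    have c1 := cover_cross H z2 l hB l2 l3 (d := ∑ x, (B x - A x))
      (mul_le_mul_of_nonneg_right (by linarith) (by linarith))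
    have c2 := cover_cross H z2 l hB l3 l1 (d := ∑ x, (B x - A x))
      ((mul_comm _ _).trans_le (mul_le_mul_of_nonneg_right (by linarith) (by linarith)))
    rw [cover_TT W ν R (a := fun x => ω x - B x) (b := fun x => B x - A x) fun x => by ring]
    rw [sum_sub_distrib] at c1 c2
    nlinarith

end aux

theorem cover {W : O → O → ℝ} {ν : Y → ℝ} {R : Y → O → ℝ} {ω : O → ℝ} {η ε u y q Γ : ℝ} {s k : ℕ}
    (H : Cx W ν R ω η ε u s) (hω : ∀ x, 0 ≤ ω x) (hy : 64 * η ^ 2 * u ≤ y) (hy1 : y ≤ 1)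
    (hk : 2 ≤ k * (y * ε)) (hq : Q W ω ω ≤ q) (hN : NG ν R ω k Γ) :
    TT W ν R ω ω ≤ 3 * y * q + 24 * η * Γ + 704 * η / (1 + u) ^ s := by
  have hη := H.hη
  have hu := H.hu
  have y0 : 0 < y := lt_of_lt_of_le (by positivity) hy
  obtain ⟨n, n1, n2⟩ := exists_nat_pow_near (x := 8 / y) (y := 2)
    (by rw [le_div_iff₀ y0]; linarith) one_lt_two
  rw [le_div_iff₀ y0] at n1
  rw [div_lt_iff₀ y0, pow_succ] at n2
  have S : cover_St ν R ω (y * ε / 2) (fun _ => 0) 0 0 :=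
    ⟨⟨Fin.elim0, fun b => b.elim0, fun x => by simp, by simp⟩,
      fun x => ⟨le_rfl, by linarith [hω x]⟩, by simp⟩
  have hB : Bd ν R ε (fun x => ω x - 0) (2 ^ n * y) := fun h hh => by
    have a := hh.sum_nonneg
    have hε := H.hε
    refine (cover_en H fun x => (hh x).1).trans (mul_le_mul (by linarith) (by nlinarith)
      (sq_nonneg _) (by positivity))
  obtain ⟨B, j, gb, S1, t⟩ := cover_layers H hy hy1 hk hq n _ 0 0 S hB
  have jk := cover_card H y0 hk S1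
  obtain ⟨⟨h, h0, hs, hg⟩, hA, -⟩ := S1
  have g := mul_le_mul_of_nonneg_left
    (hg.trans (hN j jk h h0 fun x => by linarith [hs x, (hA x).2])) hη.le
  have p := mul_le_mul_of_nonneg_left n1 (show 0 ≤ η * (1 / (1 + u) ^ s) by positivity)
  simp only [sub_zero] at t
  rw [div_eq_mul_one_div]
  refine t.trans ?_
  nlinarith

end Pool.Agent.Work.MP_e10cd8_co.Up
end

-- merged part: Pool.Agent.Work.MP_e10cd8_co.Up.Rew
section
/-! Reweighting inside the cells (paper 7). -/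

namespace Pool.Agent.Work.MP_e10cd8_co.Up
open Finset

variable {O C : Type} [Fintype O] [Fintype C]

theorem rew_G_nonneg {W : O → O → ℝ} {g : O → ℝ} (hW : Gr W) (hg : ∀ x, 0 ≤ g x) (v : O) :
    0 ≤ G W g v :=
  div_nonneg (sum_nonneg fun x _ => mul_nonneg (hg x) (hW.nonneg v x)) (sum_nonneg fun x _ => hg x)

theorem rew_G_mul {W : O → O → ℝ} {g : O → ℝ} (hg : ∀ x, 0 ≤ g x) (v : O) :
    G W g v * ∑ x, g x = ∑ x, g x * W v x := by
  by_cases e : ∑ x, g x = 0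
  · have z : ∀ x, g x = 0 := fun x =>
      (sum_eq_zero_iff_of_nonneg fun x _ => hg x).1 e x (mem_univ x)
    simp [z]
  · exact div_mul_cancel₀ _ e

theorem Rt_bounds {W : O → O → ℝ} {f : C → O → ℝ} {η : ℝ} (hW : Gr W) (hη : 0 < η)
    (hη1 : η ≤ 1 / 4) (hf0 : ∀ c x, 0 ≤ f c x) (v : O) (p : C × O) :
    -(4 * η) ≤ Rt W η f v p ∧ Rt W η f v p ≤ W v p.2 := by
  have g0 := rew_G_nonneg hW (hf0 p.1) v
  unfold Rt
  split_ifs with h
  · have hp : 0 < 1 - G W (f p.1) v := by linarith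
    rw [le_div_iff₀ hp, div_le_iff₀ hp]
    rcases hW.1 v p.2 with e | e <;> rw [e] <;> constructor <;> nlinarith
  · exact ⟨by linarith, hW.nonneg _ _⟩

/-- on a good cell the residual is one on the neighbourhood -/
theorem rew_one {W : O → O → ℝ} {f : C → O → ℝ} {η : ℝ} (hη1 : η ≤ 1 / 4) {v : O} {c : C} {x : O}
    (h : G W (f c) v ≤ 2 * η) (hx : W v x = 1) : Rt W η f v (c, x) = 1 := by
  have hp : 1 - G W (f c) v ≠ 0 := by
    have : 0 < 1 - G W (f c) v := by linarith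
    exact this.ne'
  simp only [Rt, if_pos h, hx]
  exact div_self hp

/-- mean and mean square of the residual on a cell -/
theorem rew_cell {W : O → O → ℝ} {f : C → O → ℝ} {η : ℝ} (hW : Gr W) (hη1 : η ≤ 1 / 4)
    (hf0 : ∀ c x, 0 ≤ f c x) (v : O) (c : C) :
    ∑ x, f c x * Rt W η f v (c, x) = 0 ∧
      ∑ x, f c x * Rt W η f v (c, x) ^ 2 ≤ 2 * ∑ x, f c x * W v x := by
  have a0 : 0 ≤ ∑ x, f c x * W v x := sum_nonneg fun x _ => mul_nonneg (hf0 c x) (hW.nonneg v x)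
  by_cases h : G W (f c) v ≤ 2 * η
  · have hp : 0 < 1 - G W (f c) v := by linarith
    have e1 : ∀ x, (1 - G W (f c) v) * Rt W η f v (c, x) = W v x - G W (f c) v := fun x => by
      simp only [Rt, if_pos h]
      exact mul_div_cancel₀ _ hp.ne'
    have e2 : ∀ x, Rt W η f v (c, x) * W v x = W v x := fun x => by
      rcases hW.1 v x with e | e
      · rw [e, mul_zero]
      · rw [rew_one hη1 h e, one_mul]
    have s1 : ∑ x, f c x * Rt W η f v (c, x) = 0 := by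
      have : (1 - G W (f c) v) * ∑ x, f c x * Rt W η f v (c, x) =
          ∑ x, f c x * W v x - G W (f c) v * ∑ x, f c x := by
        rw [mul_sum, mul_sum, ← sum_sub_distrib]
        exact sum_congr rfl fun x _ => by linear_combination f c x * e1 x
      rw [rew_G_mul (hf0 c), sub_self] at this
      exact (mul_eq_zero.1 this).resolve_left hp.ne'
    have s2 : (1 - G W (f c) v) * ∑ x, f c x * Rt W η f v (c, x) ^ 2 =
        ∑ x, f c x * W v x - G W (f c) v * ∑ x, f c x * Rt W η f v (c, x) := by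
      rw [mul_sum, mul_sum, ← sum_sub_distrib]
      exact sum_congr rfl fun x _ => by
        linear_combination f c x * Rt W η f v (c, x) * e1 x + f c x * e2 x
    have s0 : 0 ≤ ∑ x, f c x * Rt W η f v (c, x) ^ 2 :=
      sum_nonneg fun x _ => mul_nonneg (hf0 c x) (sq_nonneg _)
    rw [s1, mul_zero, sub_zero] at s2
    refine ⟨s1, ?_⟩
    have : 0 ≤ (1 / 2 - G W (f c) v) * ∑ x, f c x * Rt W η f v (c, x) ^ 2 :=
      mul_nonneg (by linarith) s0
    linarith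
  · simp only [Rt, if_neg h]
    exact ⟨by simp, by simpa using a0⟩

theorem reweigh {W : O → O → ℝ} {ν : O → ℝ} {f : C → O → ℝ} {η β m : ℝ} (hW : Gr W) (hν : Pb ν)
    (hη : 0 < η) (hη1 : η ≤ 1 / 4) (hβ : 1 ≤ β) (hf0 : ∀ c x, 0 ≤ f c x)
    (hf : ∀ x, ∑ c, f c x ≤ ν x) (v : O)
    (hm : m = 1 - ∑ c, if G W (f c) v ≤ 2 * η then ∑ x, f c x else 0) (hm1 : m ≤ 1 / 2) :
    ∃ μ, Mv W β (8 * ∑ x, ν x * W v x + β * Q (fun p p' : C × O => W p.2 p'.2)
      (fun p => f p.1 p.2 * Rt W η f v p) (fun p => f p.1 p.2 * Rt W η f v p) + 8 * β * m)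
      ν v μ := by
  obtain ⟨R, hR⟩ : ∃ R : C → O → ℝ, R = fun c x => Rt W η f v (c, x) := ⟨_, rfl⟩
  obtain ⟨g, hg⟩ : ∃ g : C → O → ℝ, g = fun c x => if G W (f c) v ≤ 2 * η then f c x else 0 :=
    ⟨_, rfl⟩
  have R1 : ∀ c x, -1 ≤ R c x ∧ R c x ≤ 1 := fun c x => by
    have := Rt_bounds hW hη hη1 hf0 v (c, x)
    have := hW.le_one v x
    rw [hR]
    constructor <;> linarith [this, (Rt_bounds hW hη hη1 hf0 v (c, x)).1,
      (Rt_bounds hW hη hη1 hf0 v (c, x)).2]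
  have g0 : ∀ c x, 0 ≤ g c x ∧ g c x ≤ f c x := fun c x => by
    rw [hg]
    dsimp only
    split_ifs
    · exact ⟨hf0 c x, le_rfl⟩
    · exact ⟨le_rfl, hf0 c x⟩
  have gR : ∀ c x, g c x * R c x = f c x * R c x := fun c x => by
    rw [hg, hR]
    dsimp only
    split_ifs with h
    · rfl
    · simp only [Rt, if_neg h, mul_zero]
  have gz : ∀ c x, W v x = 1 → g c x * (1 - R c x) = 0 := fun c x hx => by
    rw [hg, hR]
    dsimp only
    split_ifs with h
    · rw [rew_one hη1 h hx, sub_self, mul_zero]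
    · rw [zero_mul]
  have c1 : ∀ c, ∑ x, f c x * R c x = 0 := fun c => by
    rw [hR]; exact (rew_cell hW hη1 hf0 v c).1
  have c2 : ∀ c, ∑ x, f c x * R c x ^ 2 ≤ 2 * ∑ x, f c x * W v x := fun c => by
    rw [hR]; exact (rew_cell hW hη1 hf0 v c).2
  have gs : ∑ x, ∑ c, g c x = 1 - m := by
    rw [hm, sub_sub_cancel, sum_comm, hg]
    refine sum_congr rfl fun c _ => ?_
    dsimp only
    split_ifs <;> simp
  have gν : ∀ x, ∑ c, g c x ≤ ν x := fun x => (sum_le_sum fun c _ => (g0 c x).2).trans (hf x)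
  have m0 : 0 ≤ m := by
    have : ∑ x, ∑ c, g c x ≤ ∑ x, ν x := sum_le_sum fun x _ => gν x
    rw [gs, hν.2] at this
    linarith
  have hp : 0 < 1 - m := by linarith
  obtain ⟨s, hs⟩ : ∃ s : ℝ, s * (1 - m) = 1 := ⟨(1 - m)⁻¹, inv_mul_cancel₀ hp.ne'⟩
  have s0 : 0 ≤ s := by
    by_contra h
    nlinarith [mul_pos (neg_pos.2 (not_le.1 h)) hp]
  have s2 : s ≤ 2 := by nlinarith
  have s3 : s ≤ 1 + 2 * m := by nlinarith
  obtain ⟨ρ, hρ⟩ : ∃ ρ : O → ℝ, ρ = fun x => ∑ c, f c x * R c x := ⟨_, rfl⟩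
  obtain ⟨μ, hμ⟩ : ∃ μ : O → ℝ, μ = fun x => s * ∑ c, g c x * (1 - R c x) := ⟨_, rfl⟩
  have eμ : ∀ x, μ x = s * (∑ c, g c x - ρ x) := fun x => by
    rw [hμ, hρ]
    dsimp only
    rw [← sum_sub_distrib]
    exact congrArg _ (sum_congr rfl fun c _ => by rw [← gR]; ring)
  have ρs : ∑ x, ρ x = 0 := by
    rw [hρ, sum_comm]
    exact sum_eq_zero fun c _ => c1 c
  have ρa : ∀ x, |(-1) * ρ x| ≤ ν x := fun x => by
    rw [neg_one_mul, abs_neg, hρ]
    refine (abs_sum_le_sum_abs _ _).trans ((sum_le_sum fun c _ => ?_).trans (hf x))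
    rw [abs_mul, abs_of_nonneg (hf0 c x)]
    exact mul_le_of_le_one_right (hf0 c x) (abs_le.2 (R1 c x))
  have μs : ∑ x, μ x = 1 := by
    simp only [eμ]
    rw [← mul_sum, sum_sub_distrib, gs, ρs, sub_zero, hs]
  have μL : Le 4 ν μ := fun x => by
    have a : 0 ≤ ∑ c, g c x * (1 - R c x) :=
      sum_nonneg fun c _ => mul_nonneg (g0 c x).1 (by linarith [(R1 c x).2])
    have b : ∑ c, g c x * (1 - R c x) ≤ 2 * ∑ c, g c x := by
      rw [mul_sum]
      exact sum_le_sum fun c _ => by nlinarith [(g0 c x).1, (R1 c x).1]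
    rw [hμ]
    refine ⟨mul_nonneg s0 a, ?_⟩
    have := mul_le_mul_of_nonneg_right s2 a
    linarith [gν x]
  have d0 : 0 ≤ ∑ x, ν x * W v x := sum_nonneg fun x _ => mul_nonneg (hν.1 x) (hW.nonneg v x)
  have SS : ∑ x, ∑ c, g c x * (1 - R c x) ^ 2 ≤ 1 - m + 2 * ∑ x, ν x * W v x := by
    have e : ∑ x, ∑ c, g c x * (1 - R c x) ^ 2 =
        ∑ x, ∑ c, g c x - 2 * ∑ x, ρ x + ∑ x, ∑ c, f c x * R c x ^ 2 := by
      rw [hρ, mul_sum, ← sum_sub_distrib, ← sum_add_distrib]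
      refine sum_congr rfl fun x _ => ?_
      rw [mul_sum, ← sum_sub_distrib, ← sum_add_distrib]
      exact sum_congr rfl fun c _ => by linear_combination (R c x - 2) * gR c x
    have a : ∑ x, ∑ c, f c x * R c x ^ 2 ≤ 2 * ∑ c, ∑ x, f c x * W v x := by
      rw [sum_comm, mul_sum]
      exact sum_le_sum fun c _ => c2 c
    have b : ∑ c, ∑ x, f c x * W v x ≤ ∑ x, ν x * W v x := by
      rw [sum_comm]
      refine sum_le_sum fun x _ => ?_
      rw [← sum_mul]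
      exact mul_le_mul_of_nonneg_right (hf x) (hW.nonneg v x)
    rw [e, gs, ρs]
    linarith
  have chi : ∑ x, (μ x - ν x) ^ 2 / ν x ≤ 2 * m + 8 * ∑ x, ν x * W v x := by
    have p : ∀ x ∈ univ, (μ x - ν x) ^ 2 / ν x ≤
        s ^ 2 * ∑ c, g c x * (1 - R c x) ^ 2 - 2 * μ x + ν x := fun x _ => by
      have S0 : 0 ≤ ∑ c, g c x * (1 - R c x) ^ 2 :=
        sum_nonneg fun c _ => mul_nonneg (g0 c x).1 (sq_nonneg _)
      rcases (hν.1 x).eq_or_lt with e | e
      · have z : μ x = 0 := le_antisymm (by simpa [← e] using (μL x).2) (μL x).1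
        rw [← e, z, div_zero]
        nlinarith [mul_nonneg (sq_nonneg s) S0]
      · have cs : (∑ c, g c x * (1 - R c x)) ^ 2 ≤
            (∑ c, g c x) * ∑ c, g c x * (1 - R c x) ^ 2 :=
          sum_sq_le_sum_mul_sum_of_sq_eq_mul univ (fun c _ => (g0 c x).1)
            (fun c _ => mul_nonneg (g0 c x).1 (sq_nonneg _)) fun c _ => by ring
        have cs' := cs.trans (mul_le_mul_of_nonneg_right (gν x) S0)
        have q : μ x ^ 2 ≤ s ^ 2 * (ν x * ∑ c, g c x * (1 - R c x) ^ 2) := by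
          rw [hμ]
          dsimp only
          rw [mul_pow]
          exact mul_le_mul_of_nonneg_left cs' (sq_nonneg s)
        rw [div_le_iff₀ e]
        linarith
    refine (sum_le_sum p).trans ?_
    rw [sum_add_distrib, sum_sub_distrib, ← mul_sum, ← mul_sum, μs, hν.2]
    have a := mul_le_mul_of_nonneg_left SS (sq_nonneg s)
    have b : s ^ 2 * (1 - m) = s := by linear_combination s * hs
    have c : s ^ 2 * ∑ x, ν x * W v x ≤ 4 * ∑ x, ν x * W v x :=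
      mul_le_mul_of_nonneg_right (by nlinarith) d0
    linarith
  have qq : Q W (fun x => μ x - ν x) (fun x => μ x - ν x) ≤ Q W ρ ρ + 6 * m := by
    obtain ⟨ζ, hζ⟩ : ∃ ζ : O → ℝ, ζ = fun x => m * μ x - (ν x - ∑ c, g c x) := ⟨_, rfl⟩
    have e : (fun x => μ x - ν x) = fun x => (-1) * ρ x + ζ x := funext fun x => by
      rw [hζ]
      dsimp only
      linear_combination (1 - m) * eμ x + (∑ c, g c x - ρ x) * hs
    have za : ∀ x, |ζ x| ≤ m * μ x + (ν x - ∑ c, g c x) := fun x => by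
      have := mul_nonneg m0 (μL x).1
      rw [hζ, abs_le]
      constructor <;> linarith [gν x]
    have zs : ∑ x, (m * μ x + (ν x - ∑ c, g c x)) = 2 * m := by
      rw [sum_add_distrib, sum_sub_distrib, ← mul_sum, μs, hν.2, gs]
      ring
    have q1 := (le_abs_self _).trans (Q_le hW.nonneg hW.le_one ρa za)
    have q2 := (le_abs_self _).trans (Q_le hW.nonneg hW.le_one za ρa)
    have q3 := (le_abs_self _).trans (Q_le hW.nonneg hW.le_one za za)
    rw [zs] at q1 q2 q3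
    rw [hν.2] at q1 q2
    rw [e, Q_add_left, Q_add_right, Q_add_right, Q_mul]
    nlinarith
  refine ⟨μ, μL, μs, fun x hx => ?_, ?_⟩
  · rw [hμ]
    dsimp only
    rw [sum_eq_zero fun c _ => gz c x hx, mul_zero]
  · have e : Q (fun p p' : C × O => W p.2 p'.2) (fun p => f p.1 p.2 * Rt W η f v p)
        (fun p => f p.1 p.2 * Rt W η f v p) = Q W ρ ρ := by
      rw [Q_marg, hρ, hR]
    have a := mul_le_mul_of_nonneg_left qq (le_trans zero_le_one hβ)
    have b := mul_le_mul_of_nonneg_right hβ m0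
    rw [e]
    linarith

end Pool.Agent.Work.MP_e10cd8_co.Up
end

-- merged part: Pool.Agent.Work.MP_e10cd8_co.Up.TBound
section
/-! The residuals of a partition without gain are nearly orthogonal to the edges (paper 6). -/

namespace Pool.Agent.Work.MP_e10cd8_co.Up
open Finset

variable {O C : Type} [Fintype O] [Fintype C]

theorem tbound_Ql (W : O → O → ℝ) (ν : C → ℝ) (a : C → O → ℝ) (c : O → ℝ) :
    ∑ v, ν v * Q W (a v) c = Q W (fun x => ∑ v, ν v * a v x) c := by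
  simp only [Q, mul_sum, sum_mul]
  rw [sum_comm]
  refine sum_congr rfl fun x _ => ?_
  rw [sum_comm]
  exact sum_congr rfl fun _ _ => sum_congr rfl fun _ _ => by ring

theorem tbound_Qr (W : O → O → ℝ) (ν : C → ℝ) (a : C → O → ℝ) (c : O → ℝ) :
    ∑ v, ν v * Q W c (a v) = Q W c (fun x => ∑ v, ν v * a v x) := by
  simp only [Q, mul_sum, sum_mul]
  rw [sum_comm]
  refine sum_congr rfl fun x _ => ?_
  rw [sum_comm]
  exact sum_congr rfl fun _ _ => sum_congr rfl fun _ _ => by ring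

theorem tbound_var {ν : C → ℝ} (hν : Pb ν) {R R0 : C → O → ℝ} {h r : O → ℝ}
    (h0 : ∀ x, ∑ v, ν v * R0 v x = 0) (e : ∀ v x, h x * R v x = h x * R0 v x + h x * r x) :
    En ν R h = En ν R0 h + (∑ x, h x * r x) ^ 2 := by
  have z : ∑ v, ν v * ∑ x, h x * R0 v x = 0 := by
    simp only [mul_sum]
    rw [sum_comm]
    refine sum_eq_zero fun x _ => ?_
    have : ∑ v, ν v * (h x * R0 v x) = h x * ∑ v, ν v * R0 v x := by
      rw [mul_sum]
      exact sum_congr rfl fun _ _ => by ring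
    rw [this, h0, mul_zero]
  have k : ∀ v, ν v * (∑ x, h x * R v x) ^ 2 = ν v * (∑ x, h x * R0 v x) ^ 2 +
      2 * (∑ x, h x * r x) * (ν v * ∑ x, h x * R0 v x) + (∑ x, h x * r x) ^ 2 * ν v := fun v => by
    simp only [e, sum_add_distrib]
    ring
  simp only [En, k, sum_add_distrib, ← mul_sum, z, hν.2]
  ring

theorem tbound_gen {W : O → O → ℝ} {ν : C → ℝ} {R : C → O → ℝ} {ω : O → ℝ} {η ε u y q Γ : ℝ}
    {s k : ℕ} (hW : ∀ x y, 0 ≤ W x y) (hν : Pb ν) (hS : Sp W ω η ε) (hη : 0 < η)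
    (hη1 : η ≤ 1 / 4) (hε : 0 < ε) (hu : 0 < u)
    (hu1 : u ≤ 1) (hs : 1 ≤ s * u) (hB : (1 + 1 / (4 * η)) ^ s * ε ≤ 1)
    (hy : 64 * η ^ 2 * u ≤ y) (hy1 : y ≤ 1) (hk : 2 ≤ k * (y * ε)) (hq : Q W ω ω ≤ q)
    (hω0 : ∀ x, 0 ≤ ω x) (hω1 : ∑ x, ω x ≤ 1) (hR : ∀ v x, -(4 * η) ≤ R v x ∧ R v x ≤ 1)
    (hr : ∀ x, ω x ≠ 0 → ∑ v, ν v * R v x ≤ 2 * η) (hN : NG ν R ω k Γ) :
    TT W ν R ω ω ≤ 3 * y * q + 30 * η * Γ + 704 * η / (1 + u) ^ s + 3 * η * ε ^ 2 := by
  classical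
  obtain ⟨r, hrd⟩ : ∃ r : O → ℝ, ∀ x, r x = ∑ v, ν v * R v x := ⟨_, fun _ => rfl⟩
  obtain ⟨R0, hR0⟩ : ∃ R0 : C → O → ℝ, ∀ v x, R0 v x = if ω x = 0 then 0 else R v x - r x :=
    ⟨_, fun _ _ => rfl⟩
  have r1 : ∀ x, -(4 * η) ≤ r x := fun x => by
    have : ∑ v, ν v * (-(4 * η)) ≤ ∑ v, ν v * R v x :=
      sum_le_sum fun v _ => mul_le_mul_of_nonneg_left (hR v x).1 (hν.1 v)
    rw [← sum_mul, hν.2, one_mul] at this
    rwa [hrd]
  have c0 : ∀ x, ∑ v, ν v * R0 v x = 0 := fun x => by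
    by_cases e : ω x = 0
    · simp [hR0, e]
    · simp only [hR0, if_neg e, mul_sub, sum_sub_distrib, ← sum_mul, hν.2, ← hrd]
      ring
  have b0 : ∀ v x, -(8 * η) ≤ R0 v x ∧ R0 v x ≤ 2 := fun v x => by
    rw [hR0]
    split_ifs with e
    · constructor <;> linarith
    · have a1 := hr x e
      rw [← hrd] at a1
      have a2 := hR v x
      have a3 := r1 x
      constructor <;> linarith [a2.1, a2.2]
  have sp : ∀ h, Le 1 ω h → ∀ v x, h x * R v x = h x * R0 v x + h x * r x := fun h hh v x => by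
    rw [hR0]
    split_ifs with e
    · have : h x = 0 := le_antisymm (by simpa [e] using (hh x).2) (hh x).1
      simp [this]
    · ring
  have hN0 : NG ν R0 ω k Γ := fun j hj h h0 h1 => by
    refine le_trans (sum_le_sum fun b _ => ?_) (hN j hj h h0 h1)
    have l : Le 1 ω (h b) := fun x => ⟨h0 b x, by
      rw [one_mul]
      exact (single_le_sum (f := fun b => h b x) (fun b _ => h0 b x) (mem_univ b)).trans (h1 x)⟩
    refine div_le_div_of_nonneg_right ?_ l.sum_nonneg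
    rw [tbound_var hν c0 (sp _ l)]
    nlinarith [sq_nonneg (∑ x, h b x * r x)]
  have cv := cover ⟨hW, hν, c0, b0, hη, hη1, hε, hu, hu1, hs, hB, hω1, hS⟩ hω0 hy hy1 hk hq hN0
  have lω : Le 1 ω ω := Le.refl hω0
  have t : TT W ν R ω ω = TT W ν R0 ω ω + Q W (fun x => ω x * r x) fun x => ω x * r x := by
    have z : (fun x => ∑ v, ν v * (ω x * R0 v x)) = fun x => 0 * ω x := funext fun x => by
      have : ∑ v, ν v * (ω x * R0 v x) = ω x * ∑ v, ν v * R0 v x := by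
        rw [mul_sum]
        exact sum_congr rfl fun _ _ => by ring
      rw [this, c0]
      ring
    have z1 := tbound_Ql W ν (fun v x => ω x * R0 v x) fun x => ω x * r x
    have z2 := tbound_Qr W ν (fun v x => ω x * R0 v x) fun x => ω x * r x
    rw [z] at z1 z2
    have z3 : Q W (fun x => 0 * ω x) (fun x => ω x * r x) = 0 := by simp [Q]
    have z4 : Q W (fun x => ω x * r x) (fun x => 0 * ω x) = 0 := by simp [Q]
    simp only [TT, sp ω lω, Q_add_left, Q_add_right, mul_add, sum_add_distrib]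
    rw [z1, z2, z3, z4, ← sum_mul, hν.2]
    ring
  have G0 : 0 ≤ Γ := by
    have a := hN 0 (Nat.zero_le k) (fun b => b.elim0) (fun b => b.elim0)
      (fun x => by simpa using hω0 x)
    simpa using a
  have k1 : 1 ≤ k := by
    rcases Nat.eq_zero_or_pos k with e | e
    · rw [e] at hk
      norm_num at hk
    · exact e
  have one : ∀ h, Le 1 ω h → (∑ x, h x * r x) ^ 2 ≤ Γ := fun h hh => by
    have a := hN 1 k1 (fun _ => h) (fun _ x => (hh x).1) (fun x => by simpa using (hh x).2)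
    rw [Fin.sum_univ_one] at a
    rcases hh.sum_nonneg.eq_or_lt with e | e
    · have z : ∀ x, h x = 0 := fun x =>
        (sum_eq_zero_iff_of_nonneg fun x _ => (hh x).1).1 e.symm x (mem_univ x)
      simpa [z] using G0
    · rw [div_le_iff₀ e, tbound_var hν c0 (sp _ hh)] at a
      have a1 : 0 ≤ En ν R0 h := sum_nonneg fun v _ => mul_nonneg (hν.1 v) (sq_nonneg _)
      have a2 := hh.sum_le
      nlinarith
  have lp : Le 1 ω fun x => if 0 < r x then ω x else 0 := fun x => by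
    have := hω0 x
    dsimp only
    split_ifs <;> constructor <;> linarith
  have lm : Le 1 ω fun x => if 0 < r x then 0 else ω x := fun x => by
    have := hω0 x
    dsimp only
    split_ifs <;> constructor <;> linarith
  have la : Le 1 ω fun x => ω x * |r x| := fun x => by
    refine ⟨mul_nonneg (hω0 x) (abs_nonneg _), ?_⟩
    by_cases e : ω x = 0
    · simp [e]
    · have a1 := hr x e
      rw [← hrd] at a1
      have a2 : |r x| ≤ 1 := abs_le.2 ⟨by linarith [r1 x], by linarith⟩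
      rw [one_mul]
      exact mul_le_of_le_one_right (hω0 x) a2
  have sa : ∑ x, ω x * |r x| = ∑ x, (if 0 < r x then ω x else 0) * r x -
      ∑ x, (if 0 < r x then 0 else ω x) * r x := by
    rw [← sum_sub_distrib]
    refine sum_congr rfl fun x _ => ?_
    split_ifs with e
    · rw [abs_of_pos e]
      ring
    · rw [abs_of_nonpos (not_lt.1 e)]
      ring
  have ab : ∀ x, |ω x * r x| ≤ ω x * |r x| := fun x => by
    rw [abs_mul, abs_of_nonneg (hω0 x)]
  have q1 := (le_abs_self _).trans ((Q_mono hW ab ab).trans (hS 1 _ _ zero_le_one la la))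
  rw [sa] at q1
  have p1 := one _ lp
  have p2 := one _ lm
  generalize ∑ x, (if 0 < r x then ω x else 0) * r x = P at q1 p1
  generalize ∑ x, (if 0 < r x then 0 else ω x) * r x = M at q1 p2
  have q2 : (P - M + 1 * ε) * (P - M + 1 * ε) ≤ 6 * Γ + 3 * ε ^ 2 := by
    nlinarith [sq_nonneg (P + M), sq_nonneg (P - ε), sq_nonneg (M + ε)]
  have q3 := mul_le_mul_of_nonneg_left q2 hη.le
  rw [t]
  nlinarith

theorem tbound {W : O → O → ℝ} {ν : O → ℝ} {f : C → O → ℝ} {η ε u y q Γ : ℝ} {s k : ℕ} (hW : Gr W)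
    (hν : Pb ν) (hS : Sp W ν η ε) (hη : 0 < η) (hη1 : η ≤ 1 / 4) (hε : 0 < ε) (hu : 0 < u)
    (hu1 : u ≤ 1) (hs : 1 ≤ s * u) (hB : (1 + 1 / (4 * η)) ^ s * ε ≤ 1)
    (hy : 64 * η ^ 2 * u ≤ y) (hy1 : y ≤ 1) (hk : 2 ≤ k * (y * ε)) (hq : Q W ν ν ≤ q)
    (hf0 : ∀ c x, 0 ≤ f c x) (hf : ∀ x, ∑ c, f c x ≤ ν x)
    (hd : ∀ c x, f c x ≠ 0 → G W ν x ≤ 2 * η)
    (hN : NG ν (Rt W η f) (fun p => f p.1 p.2) k Γ) :
    TT (fun p p' : C × O => W p.2 p'.2) ν (Rt W η f) (fun p => f p.1 p.2) (fun p => f p.1 p.2) ≤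
      3 * y * q + 30 * η * Γ + 704 * η / (1 + u) ^ s + 3 * η * ε ^ 2 := by
  have ab : ∀ x, |∑ c, f c x| ≤ ν x := fun x => by
    rw [abs_of_nonneg (sum_nonneg fun c _ => hf0 c x)]
    exact hf x
  refine tbound_gen (fun p p' => hW.nonneg _ _) hν (hS.lift hf) hη hη1 hε hu hu1 hs hB hy hy1 hk
    ?_ (fun p => hf0 _ _) ?_ (fun v p => ?_) (fun p hp => ?_) hN
  · rw [Q_marg]
    exact (le_abs_self _).trans ((Q_mono hW.nonneg ab ab).trans hq)
  · rw [Fintype.sum_prod_type_right, ← hν.2]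
    exact sum_le_sum fun x _ => hf x
  · have a := Rt_bounds hW hη hη1 hf0 v p
    exact ⟨a.1, a.2.trans (hW.le_one _ _)⟩
  · refine le_trans ?_ (hd _ _ hp)
    rw [G, hν.2, div_one]
    exact sum_le_sum fun v _ => mul_le_mul_of_nonneg_left
      ((Rt_bounds hW hη hη1 hf0 v p).2.trans (hW.2.1 _ _).le) (hν.1 v)

end Pool.Agent.Work.MP_e10cd8_co.Up
end

-- merged part: Pool.Agent.Work.MP_e10cd8_co.Up.Part
section
/-! Soft partitions and the energy increment (paper 5). -/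

namespace Pool.Agent.Work.MP_e10cd8_co.Up
open Finset

variable {O : Type} [Fintype O]

/-- few vertices see a cell with density above `2 η` -/
theorem few {W : O → O → ℝ} {ν g : O → ℝ} {η ε : ℝ} (hW : Gr W) (hν : Pb ν) (hS : Sp W ν η ε)
    (hη : 0 < η) (hε : 0 ≤ ε) (hε1 : ε ≤ 1) (hg : Le 1 ν g) :
    (∑ v, if G W g v ≤ 2 * η then 0 else ν v) * ∑ x, g x ≤ 3 * ε := by
  have hf : Le 1 ν fun v => if G W g v ≤ 2 * η then 0 else ν v := fun v => by
    have := hν.1 v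
    dsimp only
    split_ifs <;> constructor <;> linarith
  have m0 := hg.sum_nonneg
  have m1 := hg.sum_le
  have p0 := hf.sum_nonneg
  have p1 := hf.sum_le
  have hQ := hS 1 _ g zero_le_one hf hg
  rw [hν.2] at m1 p1
  rcases m0.eq_or_lt with e | e
  · rw [← e, mul_zero]
    linarith
  have k : (∑ v, if G W g v ≤ 2 * η then 0 else ν v) * (2 * η * ∑ x, g x) ≤
      Q W (fun v => if G W g v ≤ 2 * η then 0 else ν v) g := by
    rw [sum_mul, Q]
    refine sum_le_sum fun v _ => ?_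
    simp only [mul_assoc, ← mul_sum]
    split_ifs with c
    · simp
    · refine mul_le_mul_of_nonneg_left ?_ (hν.1 v)
      rw [not_le, G, lt_div_iff₀ e] at c
      linarith
  set p := ∑ v, if G W g v ≤ 2 * η then 0 else ν v
  set m := ∑ x, g x
  have k2 : η * (2 * (p * m)) ≤ η * ((p + ε) * (m + ε)) := by linarith
  have k3 := le_of_mul_le_mul_left k2 hη
  nlinarith [mul_le_mul_of_nonneg_left (show p + m + ε ≤ 3 by linarith) hε]

/-- energy of a soft partition -/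
noncomputable def part_E {C : Type} [Fintype C] (W : O → O → ℝ) (ν : O → ℝ) (f : C → O → ℝ) : ℝ :=
  ∑ v, ν v * ∑ c, (∑ x, f c x * W v x) ^ 2 / ∑ x, f c x

theorem part_a {W : O → O → ℝ} (hW : Gr W) {g : O → ℝ} (hg : ∀ x, 0 ≤ g x) (v : O) :
    0 ≤ ∑ x, g x * W v x ∧ ∑ x, g x * W v x ≤ ∑ x, g x :=
  ⟨sum_nonneg fun x _ => mul_nonneg (hg x) (hW.nonneg v x),
    sum_le_sum fun x _ => mul_le_of_le_one_right (hg x) (hW.le_one v x)⟩

theorem part_le {C : Type} [Fintype C] {W : O → O → ℝ} {ν ν0 : O → ℝ} {η ε : ℝ} (hW : Gr W)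
    (hν : Pb ν) (hS : Sp W ν η ε) (hη : 0 < η) (hε : 0 ≤ ε) (hε1 : ε ≤ 1) (h0 : Le 1 ν ν0)
    {f : C → O → ℝ} (hf : ∀ c x, 0 ≤ f c x) (hs : ∀ x, ∑ c, f c x = ν0 x) :
    part_E W ν f ≤ 2 * η * Q W ν ν + 3 * Fintype.card C * ε := by
  have k : ∀ v c, ν v * ((∑ x, f c x * W v x) ^ 2 / ∑ x, f c x) ≤
      2 * η * (ν v * ∑ x, f c x * W v x) +
        (if G W (f c) v ≤ 2 * η then 0 else ν v) * ∑ x, f c x := fun v c => by
    obtain ⟨a0, a1⟩ := part_a hW (hf c) v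
    have n0 := hν.1 v
    have e : (∑ x, f c x * W v x) ^ 2 / ∑ x, f c x = (∑ x, f c x * W v x) * G W (f c) v := by
      rw [G, sq, mul_div_assoc]
    have g1 : G W (f c) v ≤ 1 := div_le_one_of_le₀ a1 (a0.trans a1)
    have p := mul_nonneg n0 a0
    rw [e, ← mul_assoc]
    split_ifs with h
    · nlinarith [mul_le_mul_of_nonneg_left h p]
    · nlinarith [mul_le_mul_of_nonneg_left g1 p, mul_le_mul_of_nonneg_left a1 n0, mul_nonneg hη.le p]
  have q1 : ∑ v, ∑ c, ν v * ∑ x, f c x * W v x = Q W ν ν0 := by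
    refine sum_congr rfl fun v _ => ?_
    rw [← mul_sum, sum_comm, mul_sum]
    refine sum_congr rfl fun x _ => ?_
    rw [← sum_mul, hs, mul_assoc]
  have q2 : Q W ν ν0 ≤ Q W ν ν := (le_abs_self _).trans (Q_mono hW.nonneg
    (fun x => (abs_of_nonneg (hν.1 x)).le)
    fun x => by rw [abs_of_nonneg (h0 x).1]; simpa using (h0 x).2)
  have q3 : ∑ v, ∑ c, (if G W (f c) v ≤ 2 * η then 0 else ν v) * ∑ x, f c x ≤
      3 * Fintype.card C * ε := by
    rw [sum_comm]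
    refine (sum_le_sum (g := fun _ => 3 * ε) fun c _ => ?_).trans (le_of_eq ?_)
    · rw [← sum_mul]
      refine few hW hν hS hη hε hε1 fun x => ⟨hf c x, le_trans ?_ (h0 x).2⟩
      rw [← hs]
      exact single_le_sum (f := fun c => f c x) (fun c _ => hf c x) (mem_univ c)
    · rw [sum_const, card_univ, nsmul_eq_mul]
      ring
  have q4 : part_E W ν f ≤ 2 * η * (∑ v, ∑ c, ν v * ∑ x, f c x * W v x) +
      ∑ v, ∑ c, (if G W (f c) v ≤ 2 * η then 0 else ν v) * ∑ x, f c x := by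
    rw [part_E, mul_sum, ← sum_add_distrib]
    refine sum_le_sum fun v _ => ?_
    rw [mul_sum, mul_sum, ← sum_add_distrib]
    exact sum_le_sum fun c _ => k v c
  rw [q1] at q4
  nlinarith [mul_le_mul_of_nonneg_left q2 hη.le]

/-- the variance identity for one cell -/
theorem part_var {I : Type} [Fintype I] {a m : I → ℝ} (h0 : ∀ i, m i = 0 → a i = 0) :
    ∑ i, a i ^ 2 / m i = ∑ i, (a i - (∑ i, a i) / (∑ i, m i) * m i) ^ 2 / m i +
      (∑ i, a i) ^ 2 / ∑ i, m i := by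
  set g := (∑ i, a i) / ∑ i, m i with hg
  have k : ∀ i ∈ univ, a i ^ 2 / m i = (a i - g * m i) ^ 2 / m i + (2 * g * a i - g ^ 2 * m i) :=
    fun i _ => by
      by_cases e : m i = 0
      · simp [e, h0 i e]
      · field_simp
        ring
  rw [sum_congr rfl k, sum_add_distrib, sum_sub_distrib, ← mul_sum, ← mul_sum, add_right_inj, hg]
  by_cases e : ∑ i, m i = 0
  · simp [e]
  · field_simp
    ring

theorem part_z {C : Type} [Fintype C] {W : O → O → ℝ} {η : ℝ} (hη1 : η ≤ 1 / 4) (f : C → O → ℝ)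
    (v : O) (c : C) (g : O → ℝ) : (∑ x, g x * Rt W η f v (c, x)) ^ 2 ≤
      4 * (∑ x, g x * W v x - G W (f c) v * ∑ x, g x) ^ 2 := by
  simp only [Rt]
  split_ifs with h
  · have e : ∑ x, g x * ((W v x - G W (f c) v) / (1 - G W (f c) v)) =
        (∑ x, g x * W v x - G W (f c) v * ∑ x, g x) / (1 - G W (f c) v) := by
      rw [mul_sum, ← sum_sub_distrib, sum_div]
      exact sum_congr rfl fun x _ => by ring
    have p : 1 / 2 ≤ 1 - G W (f c) v := by linarith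
    rw [e, div_pow, div_le_iff₀ (by positivity)]
    have := sq_nonneg (∑ x, g x * W v x - G W (f c) v * ∑ x, g x)
    nlinarith [mul_le_mul_of_nonneg_left (show 1 / 4 ≤ (1 - G W (f c) v) ^ 2 by nlinarith) this]
  · simp only [mul_zero, sum_const_zero]
    nlinarith [sq_nonneg (∑ x, g x * W v x - G W (f c) v * ∑ x, g x)]

/-- a gaining family refines the partition and raises the energy -/
theorem part_refine {C : Type} [Fintype C] {W : O → O → ℝ} {ν : O → ℝ} {η Γ : ℝ} {k : ℕ}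
    (hW : Gr W) (hν : Pb ν) (hη1 : η ≤ 1 / 4) {f : C → O → ℝ}
    (hN : ¬NG ν (Rt W η f) (fun p => f p.1 p.2) k Γ) :
    ∃ j ≤ k, ∃ f' : C × Option (Fin j) → O → ℝ, (∀ c x, 0 ≤ f' c x) ∧
      (∀ x, ∑ c, f' c x = ∑ c, f c x) ∧ part_E W ν f + Γ / 4 ≤ part_E W ν f' := by
  simp only [NG, not_forall, not_le] at hN
  obtain ⟨j, hj, h, h0, h1, hΓ⟩ := hN
  obtain ⟨F, Fn, Fs⟩ : ∃ F : C × Option (Fin j) → O → ℝ,
      (∀ c x, F (c, none) x = f c x - ∑ b, h b (c, x)) ∧ ∀ c b x, F (c, some b) x = h b (c, x) :=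
    ⟨fun p x => p.2.elim (f p.1 x - ∑ b, h b (p.1, x)) fun b => h b (p.1, x),
      fun _ _ => rfl, fun _ _ _ => rfl⟩
  have F0 : ∀ p x, 0 ≤ F p x := by
    rintro ⟨c, _ | b⟩ x
    · rw [Fn]
      exact sub_nonneg.2 (h1 (c, x))
    · rw [Fs]
      exact h0 _ _
  have F1 : ∀ c x, ∑ i, F (c, i) x = f c x := fun c x => by
    simp only [Fintype.sum_option, Fn, Fs]
    ring
  have Fz : ∀ p v, ∑ x, F p x = 0 → ∑ x, F p x * W v x = 0 := fun p v e =>
    le_antisymm ((part_a hW (F0 p) v).2.trans e.le) (part_a hW (F0 p) v).1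
  refine ⟨j, hj, F, F0, fun x => ?_, ?_⟩
  · rw [Fintype.sum_prod_type]
    exact sum_congr rfl fun c _ => F1 c x
  have cell : ∀ v c, (∑ x, f c x * W v x) ^ 2 / ∑ x, f c x +
      (∑ b, (∑ x, h b (c, x) * Rt W η f v (c, x)) ^ 2 / ∑ x, h b (c, x)) / 4 ≤
      ∑ i, (∑ x, F (c, i) x * W v x) ^ 2 / ∑ x, F (c, i) x := fun v c => by
    have e1 : ∑ i, ∑ x, F (c, i) x * W v x = ∑ x, f c x * W v x := by
      rw [sum_comm]
      exact sum_congr rfl fun x _ => by rw [← sum_mul, F1]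
    have e2 : ∑ i, ∑ x, F (c, i) x = ∑ x, f c x := by
      rw [sum_comm]
      exact sum_congr rfl fun x _ => F1 c x
    rw [part_var fun i => Fz (c, i) v, e1, e2, Fintype.sum_option, add_comm, sum_div]
    refine add_le_add_left (le_add_of_nonneg_of_le
      (div_nonneg (sq_nonneg _) (sum_nonneg fun x _ => F0 _ x)) (sum_le_sum fun b _ => ?_)) _
    simp only [Fs]
    rw [div_right_comm]
    refine div_le_div_of_nonneg_right ?_ (sum_nonneg fun x _ => h0 _ _)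
    have := part_z (W := W) hη1 f v c fun x => h b (c, x)
    rw [G] at this
    linarith
  have ti : ∀ v b, (∑ p, h b p * Rt W η f v p) ^ 2 / ∑ p, h b p ≤
      ∑ c, (∑ x, h b (c, x) * Rt W η f v (c, x)) ^ 2 / ∑ x, h b (c, x) := fun v b => by
    rw [Fintype.sum_prod_type, Fintype.sum_prod_type]
    refine titu (fun c => sum_nonneg fun x _ => h0 _ _) fun c e => sum_eq_zero fun x hx => ?_
    rw [(sum_eq_zero_iff_of_nonneg fun x _ => h0 b (c, x)).1 e x hx, zero_mul]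
  have g1 : ∑ b, En ν (Rt W η f) (h b) / ∑ p, h b p ≤ ∑ v, ν v *
      ∑ c, ∑ b, (∑ x, h b (c, x) * Rt W η f v (c, x)) ^ 2 / ∑ x, h b (c, x) := by
    simp only [En, sum_div]
    rw [sum_comm]
    refine sum_le_sum fun v _ => ?_
    rw [sum_comm, mul_sum]
    refine sum_le_sum fun b _ => ?_
    rw [mul_div_assoc]
    exact mul_le_mul_of_nonneg_left (ti v b) (hν.1 v)
  refine le_trans (add_le_add_right (div_le_div_of_nonneg_right (hΓ.le.trans g1) (by norm_num)) _) ?_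
  rw [part_E, part_E, sum_div, ← sum_add_distrib]
  refine sum_le_sum fun v _ => ?_
  rw [mul_div_assoc, ← mul_add, sum_div, ← sum_add_distrib, Fintype.sum_prod_type]
  exact mul_le_mul_of_nonneg_left (sum_le_sum fun c _ => cell v c) (hν.1 v)

theorem part {W : O → O → ℝ} {ν ν0 : O → ℝ} {η ε q Γ : ℝ} {k J : ℕ} (hW : Gr W) (hν : Pb ν)
    (hS : Sp W ν η ε) (hη : 0 < η) (hη1 : η ≤ 1 / 4) (hε : 0 ≤ ε) (hε1 : ε ≤ 1) (h0 : Le 1 ν ν0)
    (hq : Q W ν ν ≤ q) (hΓ : 0 ≤ Γ) (hK : 3 * ((k : ℝ) + 1) ^ J * ε ≤ η * q)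
    (hJ : 12 * η * q < J * Γ) :
    ∃ (C : Type) (_ : Fintype C) (f : C → O → ℝ), (Fintype.card C : ℝ) ≤ ((k : ℝ) + 1) ^ J ∧
      (∀ c x, 0 ≤ f c x) ∧ (∀ x, ∑ c, f c x = ν0 x) ∧
      NG ν (Rt W η f) (fun p => f p.1 p.2) k Γ := by
  have k1 : (1 : ℝ) ≤ k + 1 := by linarith [(Nat.cast_nonneg k : (0 : ℝ) ≤ k)]
  have ind : ∀ j : ℕ, ∃ (C : Type) (_ : Fintype C) (f : C → O → ℝ),
      (Fintype.card C : ℝ) ≤ ((k : ℝ) + 1) ^ j ∧ (∀ c x, 0 ≤ f c x) ∧ (∀ x, ∑ c, f c x = ν0 x) ∧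
      (NG ν (Rt W η f) (fun p => f p.1 p.2) k Γ ∨ j * Γ / 4 ≤ part_E W ν f) := by
    intro j
    induction j with
    | zero =>
      refine ⟨Unit, inferInstance, fun _ => ν0, by simp, fun _ x => (h0 x).1, fun x => by simp,
        Or.inr ?_⟩
      rw [Nat.cast_zero, zero_mul, zero_div]
      exact sum_nonneg fun v _ => mul_nonneg (hν.1 v) (sum_nonneg fun _ _ =>
        div_nonneg (sq_nonneg _) h0.sum_nonneg)
    | succ j ih =>
      obtain ⟨C, _, f, c, f0, fs, o⟩ := ih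
      by_cases hN : NG ν (Rt W η f) (fun p => f p.1 p.2) k Γ
      · exact ⟨C, _, f, c.trans (pow_le_pow_right₀ k1 j.le_succ), f0, fs, Or.inl hN⟩
      obtain ⟨i, hi, F, F0, Fs, FE⟩ := part_refine hW hν hη1 hN
      refine ⟨_, _, F, ?_, F0, fun x => (Fs x).trans (fs x), Or.inr ?_⟩
      · rw [Fintype.card_prod, Fintype.card_option, Fintype.card_fin, pow_succ]
        push_cast
        have : (i : ℝ) ≤ k := by exact_mod_cast hi
        exact mul_le_mul c (by linarith) (by positivity) (by positivity)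
      · have := o.resolve_left hN
        push_cast
        linarith
  obtain ⟨C, _, f, c, f0, fs, o⟩ := ind J
  refine ⟨C, _, f, c, f0, fs, o.resolve_right fun e => ?_⟩
  have a := part_le hW hν hS hη hε hε1 h0 f0 fs
  have b := mul_le_mul_of_nonneg_right c hε
  nlinarith [mul_le_mul_of_nonneg_left hq hη.le]

end Pool.Agent.Work.MP_e10cd8_co.Up
end

-- merged part: Pool.Agent.Work.MP_e10cd8_co.Up.Move
section
/-! A cheap move exists (paper 8). -/

namespace Pool.Agent.Work.MP_e10cd8_co.Up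
open Finset

variable {O : Type} [Fintype O]

/-- some point of the support is below the mean -/
theorem move_avg {ν c : O → ℝ} {a : ℝ} (hν : Pb ν) (h : ∑ v, ν v * c v ≤ a) :
    ∃ v, 0 < ν v ∧ c v ≤ a := by
  by_contra hc
  have hc' : ∀ v, 0 < ν v → a < c v := fun v hv => not_le.1 fun k => hc ⟨v, hv, k⟩
  obtain ⟨w, -, hw⟩ := exists_ne_zero_of_sum_ne_zero (hν.2.trans_ne one_ne_zero)
  have hw' : 0 < ν w := (hν.1 w).lt_of_ne' hw
  have k : ∑ v, ν v * a < ∑ v, ν v * c v := by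
    refine sum_lt_sum (fun v _ => ?_) ⟨w, mem_univ _, mul_lt_mul_of_pos_left (hc' w hw') hw'⟩
    rcases (hν.1 v).eq_or_lt with e | e
    · simp [← e]
    · exact mul_le_mul_of_nonneg_left (hc' v e).le e.le
  rw [← sum_mul, hν.2, one_mul] at k
  exact absurd h (not_le.2 k)

/-- the mean mass lost in cells that are too dense -/
theorem move_mass {C : Type} [Fintype C] {W : O → O → ℝ} {ν : O → ℝ} {f : C → O → ℝ} {η ε : ℝ}
    (hW : Gr W) (hν : Pb ν) (hS : Sp W ν η ε) (hη : 0 < η) (hε : 0 ≤ ε) (hε1 : ε ≤ 1)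
    (hf : ∀ c, Le 1 ν (f c)) (h0 : 1 - ∑ c, ∑ x, f c x ≤ 3 * ε) :
    ∑ v, ν v * (1 - ∑ c, if G W (f c) v ≤ 2 * η then ∑ x, f c x else 0) ≤
      3 * ((Fintype.card C : ℝ) + 1) * ε := by
  have e : ∀ v, ν v * (1 - ∑ c, if G W (f c) v ≤ 2 * η then ∑ x, f c x else 0) =
      ν v * (1 - ∑ c, ∑ x, f c x) +
        ∑ c, (if G W (f c) v ≤ 2 * η then 0 else ν v) * ∑ x, f c x := fun v => by
    rw [mul_sub, mul_sub, mul_sum, mul_sum, sub_add, ← sum_sub_distrib]
    refine congrArg _ (sum_congr rfl fun c _ => ?_)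
    split_ifs <;> ring
  rw [sum_congr rfl fun v _ => e v, sum_add_distrib, ← sum_mul, hν.2, one_mul]
  have k : ∑ c, ∑ v, (if G W (f c) v ≤ 2 * η then 0 else ν v) * ∑ x, f c x ≤ ∑ _c : C, 3 * ε :=
    sum_le_sum fun c _ => by
      rw [← sum_mul]
      exact few hW hν hS hη hε hε1 (hf c)
  rw [sum_const, card_univ, nsmul_eq_mul, sum_comm] at k
  linarith

theorem move {W : O → O → ℝ} {ν : O → ℝ} {n η ε e u q : ℝ} {s k J : ℕ} (hW : Gr W) (hν : Pb ν)
    (hS : Sp W ν η ε) (hq : Q W ν ν ≤ q) (hn : 1 ≤ n) (hη : 0 < η) (hη1 : η ≤ 1 / 4)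
    (hq0 : 0 < q) (hq1 : q ≤ 1) (hε : 0 ≤ ε) (hεe : ε ≤ e) (he : 0 < e) (hu : 0 < u) (hu1 : u ≤ 1)
    (hun : 1536 * η ^ 2 * n * u ≤ 1) (hs : 1 ≤ s * u) (hB : (1 + 1 / (4 * η)) ^ s * e ≤ 1)
    (hk : 48 * n ≤ k * e) (hJ : 5760 * η ^ 2 * n < J) (hK : 3 * ((k : ℝ) + 1) ^ J * ε ≤ η * q)
    (hT : 704 * η / (1 + u) ^ s + 3 * η * e ^ 2 + 48 * (((k : ℝ) + 1) ^ J + 1) * ε ≤ q / (16 * n)) :
    ∃ v μ, 0 < ν v ∧ Mv W (32 * n) (16 * q) ν v μ := by
  have hn0 : 0 < n := by linarith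
  have he1 : e ≤ 1 := by
    have a : (1 : ℝ) ≤ (1 + 1 / (4 * η)) ^ s := one_le_pow₀ (le_add_of_nonneg_right (by positivity))
    exact (le_mul_of_one_le_left he.le a).trans hB
  have hε1 : ε ≤ 1 := hεe.trans he1
  set ν0 : O → ℝ := fun x => if G W ν x ≤ 2 * η then ν x else 0 with hν0
  have h0 : Le 1 ν ν0 := fun x => by
    have := hν.1 x
    simp only [hν0, one_mul]
    split_ifs <;> constructor <;> linarith
  have hm0 : 1 - ∑ x, ν0 x ≤ 3 * ε := by
    have a := few hW hν hS hη hε hε1 (Le.refl hν.1)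
    rw [hν.2, mul_one] at a
    refine le_trans (le_of_eq ?_) a
    rw [← hν.2, ← sum_sub_distrib]
    refine sum_congr rfl fun x _ => ?_
    simp only [hν0]
    split_ifs <;> ring
  obtain ⟨C, _, f, hC, hf0, hf, hN⟩ := part (Γ := q / (480 * η * n)) (k := k) (J := J) hW hν hS hη
    hη1 hε hε1 h0 hq (by positivity) hK (by
      rw [← mul_div_assoc, lt_div_iff₀ (by positivity)]
      nlinarith [mul_lt_mul_of_pos_right hJ hq0])
  have hf1 : ∀ x, ∑ c, f c x ≤ ν x := fun x => by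
    rw [hf]
    simpa using (h0 x).2
  have hfc : ∀ c, Le 1 ν (f c) := fun c x =>
    ⟨hf0 c x, by
      rw [one_mul]
      exact (single_le_sum (f := fun c => f c x) (fun c _ => hf0 c x) (mem_univ c)).trans (hf1 x)⟩
  have hsum : ∑ c, ∑ x, f c x = ∑ x, ν0 x := by
    rw [sum_comm]
    exact sum_congr rfl fun x _ => hf x
  have hsum1 : ∑ c, ∑ x, f c x ≤ 1 := by
    rw [hsum, ← hν.2]
    simpa using h0.sum_le
  have hTT := tbound (y := 1 / (24 * n)) hW hν
    (hS.mono hη.le hε zero_le_one (Le.refl hν.1) (by rw [one_mul]; exact hεe)) hη hη1 he hu hu1 hs hB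
    (by rw [le_div_iff₀ (by positivity)]; linarith)
    (by rw [div_le_iff₀ (by positivity)]; linarith)
    (by
      rw [← mul_assoc, mul_right_comm, mul_one_div, le_div_iff₀ (by positivity)]
      linarith)
    hq hf0 hf1 (fun c x hx => by
      by_contra hG
      have a : ∑ c, f c x = 0 := by rw [hf]; exact if_neg hG
      exact hx ((sum_eq_zero_iff_of_nonneg fun c _ => hf0 c x).1 a c (mem_univ c))) hN
  have hM := move_mass hW hν hS hη hε hε1 hfc (by rw [hsum]; exact hm0)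
  set m : O → ℝ := fun v => 1 - ∑ c, if G W (f c) v ≤ 2 * η then ∑ x, f c x else 0 with hm
  set T : O → ℝ := fun v => Q (fun p p' : C × O => W p.2 p'.2)
    (fun p => f p.1 p.2 * Rt W η f v p) fun p => f p.1 p.2 * Rt W η f v p with hTd
  have hmean : ∑ v, ν v * (8 * ∑ x, ν x * W v x + 32 * n * T v + 512 * n * m v) ≤ 16 * q := by
    have e1 : ∑ v, ν v * (8 * ∑ x, ν x * W v x + 32 * n * T v + 512 * n * m v) =
        8 * Q W ν ν + 32 * n * ∑ v, ν v * T v + 512 * n * ∑ v, ν v * m v := by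
      rw [Q, mul_sum, mul_sum, mul_sum, ← sum_add_distrib, ← sum_add_distrib]
      refine sum_congr rfl fun v _ => ?_
      rw [show ∑ y, ν v * ν y * W v y = ν v * ∑ x, ν x * W v x by
        rw [mul_sum]; exact sum_congr rfl fun _ _ => mul_assoc _ _ _]
      ring
    have e2 : ∑ v, ν v * T v ≤ q / (8 * n) + q / (16 * n) + 704 * η / (1 + u) ^ s +
        3 * η * e ^ 2 := by
      refine le_trans hTT (le_of_eq ?_)
      field_simp
      ring
    have e3 : ∑ v, ν v * m v ≤ 3 * (((k : ℝ) + 1) ^ J + 1) * ε :=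
      hM.trans (mul_le_mul_of_nonneg_right (by linarith) hε)
    have e4 : ∑ v, ν v * T v + 16 * ∑ v, ν v * m v ≤ q / (4 * n) := by
      have : q / (4 * n) = q / (8 * n) + q / (16 * n) + q / (16 * n) := by
        field_simp
        ring
      linarith
    have e5 := mul_le_mul_of_nonneg_left e4 (show 0 ≤ 32 * n by positivity)
    rw [show 32 * n * (q / (4 * n)) = 8 * q by field_simp; ring] at e5
    rw [e1]
    linarith
  obtain ⟨v, hv, hc⟩ := move_avg hν hmean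
  have d0 : 0 ≤ ∑ x, ν x * W v x := sum_nonneg fun x _ => mul_nonneg (hν.1 x) (hW.nonneg v x)
  have hm1 : 0 ≤ m v := by
    refine sub_nonneg.2 (le_trans (sum_le_sum fun c _ => ?_) hsum1)
    split_ifs
    exacts [le_rfl, (hfc c).sum_nonneg]
  have hT1 : -1 ≤ T v := by
    have b : ∀ p : C × O, |f p.1 p.2 * Rt W η f v p| ≤ f p.1 p.2 := fun p => by
      obtain ⟨b1, b2⟩ := Rt_bounds hW hη hη1 hf0 v p
      rw [abs_mul, abs_of_nonneg (hf0 _ _)]
      exact mul_le_of_le_one_right (hf0 _ _)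
        (abs_le.2 ⟨by linarith, b2.trans (hW.le_one _ _)⟩)
    have a := Q_le (W := fun p p' : C × O => W p.2 p'.2) (fun p p' => hW.nonneg _ _)
      (fun p p' => hW.le_one _ _) b b
    rw [Fintype.sum_prod_type] at a
    have a0 : 0 ≤ ∑ c, ∑ x, f c x := sum_nonneg fun c _ => (hfc c).sum_nonneg
    exact (abs_le.1 (a.trans (mul_le_one₀ hsum1 a0 hsum1))).1
  have hm2 : m v ≤ 1 / 2 := by
    by_contra a
    have a1 := mul_le_mul_of_nonneg_left (not_le.1 a).le hn0.le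
    have a2 := mul_le_mul_of_nonneg_left hT1 hn0.le
    nlinarith
  obtain ⟨μ, h1, h2, h3, h4⟩ := reweigh (β := 32 * n) hW hν hη hη1 (by linarith) hf0 hf1 v rfl hm2
  refine ⟨v, μ, hv, h1, h2, h3, h4.trans (le_trans ?_ hc)⟩
  have a := mul_nonneg hn0.le hm1
  change 8 * ∑ x, ν x * W v x + 32 * n * T v + 8 * (32 * n) * m v ≤ _
  linarith

end Pool.Agent.Work.MP_e10cd8_co.Up
end
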