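import Pool.Agent.Work.MP_e10cd8_co.Exact.XAsym
import Pool.Agent.Work.MP_e10cd8_co.Up.Move

-- merged part: Pool.Agent.Work.MP_e10cd8_co.Upper.Alon
section
/-! Independent sets in digraphs without transitive triangles (Alon's argument for locally
bipartite graphs). -/

namespace Pool.Agent.Work.MP_e10cd8_co.Upper
open Finset Pool.Agent.Work.MP_e10cd8_co.Four

variable {V : Type} [DecidableEq V]

/-- no arc inside `S` -/
def Ind (A : V → V → Prop) (S : Finset V) : Prop := ∀ u ∈ S, ∀ v ∈ S, ¬ A u v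

/-- neighbours of `v` in `U` -/
noncomputable def nb (A : V → V → Prop) (U : Finset V) (v : V) : Finset V :=
  selIn U fun u => A u v ∨ A v u

omit [DecidableEq V] in
theorem small_count (X : Finset V) :
    ((X.powerset.filter fun Y => 16 * Y.card ≤ X.card).card : ℝ) ≤ (51 / 40) ^ X.card := by
  have e : ∑ Y ∈ X.powerset, (1 / 16 : ℝ) ^ Y.card = (17 / 16) ^ X.card := by
    have := Finset.sum_pow_mul_eq_add_pow (1 / 16 : ℝ) 1 X
    simp only [one_pow, mul_one] at this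
    rw [this]; norm_num
  have a : (16 : ℝ) ^ (X.card / 16) ≤ (6 / 5) ^ X.card :=
    calc (16 : ℝ) ^ (X.card / 16) ≤ ((6 / 5) ^ 16) ^ (X.card / 16) :=
          pow_le_pow_left₀ (by norm_num) (by norm_num) _
      _ = (6 / 5) ^ (16 * (X.card / 16)) := by rw [pow_mul]
      _ ≤ _ := pow_le_pow_right₀ (by norm_num) (Nat.mul_div_le _ _)
  calc ((X.powerset.filter fun Y => 16 * Y.card ≤ X.card).card : ℝ)
      = ∑ _Y ∈ X.powerset.filter fun Y => 16 * Y.card ≤ X.card, (1 : ℝ) := by simp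
    _ ≤ ∑ Y ∈ X.powerset.filter fun Y => 16 * Y.card ≤ X.card,
          (16 : ℝ) ^ (X.card / 16) * (1 / 16) ^ Y.card := by
        refine sum_le_sum fun Y hY => ?_
        have h := (mem_filter.1 hY).2
        rw [one_div, inv_pow, ← div_eq_mul_inv, le_div_iff₀ (by positivity), one_mul]
        exact pow_le_pow_right₀ (by norm_num) (by omega)
    _ ≤ ∑ Y ∈ X.powerset, (16 : ℝ) ^ (X.card / 16) * (1 / 16) ^ Y.card :=
        sum_le_sum_of_subset_of_nonneg (filter_subset _ _) fun _ _ _ => by positivity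
    _ = 16 ^ (X.card / 16) * (17 / 16) ^ X.card := by rw [← mul_sum, e]
    _ ≤ (6 / 5) ^ X.card * (17 / 16) ^ X.card := by gcongr
    _ = _ := by rw [← mul_pow]; norm_num

theorem local_bound (X X1 : Finset V) (J : Finset (Finset V)) (hJ : ∀ Y ∈ J, Y ⊆ X)
    (h1 : (X ∩ X1).powerset ⊆ J) (h2 : (X \ X1).powerset ⊆ J) {l : ℕ} (hl : 8 ≤ l) {d : ℝ}
    (hd : 4 ^ l ≤ d) : l * (1 + (J.card : ℝ)) ≤ 64 * (d + ∑ Y ∈ J, (Y.card : ℝ)) := by
  have s0 : 0 ≤ ∑ Y ∈ J, (Y.card : ℝ) := sum_nonneg fun _ _ => by positivity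
  have d0 : 0 ≤ d := le_trans (by positivity) hd
  have sub : J ⊆ X.powerset := fun Y hY => mem_powerset.2 (hJ Y hY)
  rcases lt_or_ge X.card l with h | h
  · have a : J.card ≤ 2 ^ l :=
      (card_le_card sub).trans (by rw [card_powerset]; exact Nat.pow_le_pow_right (by norm_num) h.le)
    have a' : (J.card : ℝ) ≤ 2 ^ l := by exact_mod_cast a
    have b : (l : ℝ) ≤ 2 ^ l := by exact_mod_cast (Nat.lt_two_pow_self (n := l)).le
    have c : (1 : ℝ) ≤ 2 ^ l := one_le_pow₀ (by norm_num)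
    have e : (4 : ℝ) ^ l = 2 ^ l * 2 ^ l := by rw [← mul_pow]; norm_num
    have : l * (1 + (J.card : ℝ)) ≤ 2 ^ l * (2 ^ l + 2 ^ l) := by gcongr
    nlinarith
  · have a1 : 2 ^ (X ∩ X1).card ≤ J.card := by rw [← card_powerset]; exact card_le_card h1
    have a2 : 2 ^ (X \ X1).card ≤ J.card := by rw [← card_powerset]; exact card_le_card h2
    have a3 : 2 ^ X.card ≤ J.card ^ 2 := by
      rw [← card_inter_add_card_sdiff X X1, pow_add, sq]
      exact Nat.mul_le_mul a1 a2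
    have a4 : (2 : ℝ) ^ X.card ≤ (J.card : ℝ) ^ 2 := by exact_mod_cast a3
    have a5 : (7 / 5 : ℝ) ^ X.card ≤ J.card := by
      refine (pow_le_pow_iff_left₀ (by positivity) (by positivity) two_ne_zero).1 ?_
      refine le_trans ?_ a4
      rw [← pow_mul, mul_comm, pow_mul]
      exact pow_le_pow_left₀ (by norm_num) (by norm_num) _
    have a6 : (51 / 40 : ℝ) ^ X.card ≤ (7 / 5) ^ X.card / 2 := by
      have : (51 / 56 : ℝ) ^ X.card ≤ (51 / 56) ^ 8 :=
        pow_le_pow_of_le_one (by norm_num) (by norm_num) (hl.trans h)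
      have e : (51 / 40 : ℝ) ^ X.card = (7 / 5) ^ X.card * (51 / 56) ^ X.card := by
        rw [← mul_pow]; norm_num
      have p : (0 : ℝ) < (7 / 5) ^ X.card := by positivity
      rw [e]
      nlinarith
    have a7 : (1 : ℝ) ≤ J.card := (one_le_pow₀ (by norm_num)).trans a5
    have b1 : ((J.filter fun Y => 16 * Y.card ≤ X.card).card : ℝ) ≤ J.card / 2 := by
      have : (J.filter fun Y => 16 * Y.card ≤ X.card).card ≤
          (X.powerset.filter fun Y => 16 * Y.card ≤ X.card).card :=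
        card_le_card (filter_subset_filter _ sub)
      have t : ((J.filter fun Y => 16 * Y.card ≤ X.card).card : ℝ) ≤
          (X.powerset.filter fun Y => 16 * Y.card ≤ X.card).card := by exact_mod_cast this
      linarith [small_count X]
    have b2 : ((J.filter fun Y => 16 * Y.card ≤ X.card).card : ℝ) +
        (J.filter fun Y => ¬ 16 * Y.card ≤ X.card).card = J.card := by
      exact_mod_cast card_filter_add_card_filter_not (s := J) fun Y => 16 * Y.card ≤ X.card
    have b3 : ((J.filter fun Y => ¬ 16 * Y.card ≤ X.card).card : ℝ) * (l / 16) ≤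
        ∑ Y ∈ J, (Y.card : ℝ) := by
      refine le_trans ?_ (sum_le_sum_of_subset_of_nonneg
        (filter_subset (fun Y => ¬ 16 * Y.card ≤ X.card) J) fun _ _ _ => by positivity)
      rw [← nsmul_eq_mul]
      refine card_nsmul_le_sum _ _ _ fun Y hY => ?_
      have := (mem_filter.1 hY).2
      have t : l ≤ Y.card * 16 := by omega
      rw [div_le_iff₀ (by norm_num)]
      exact_mod_cast t
    have l0 : (0 : ℝ) ≤ l := by positivity
    have b4 : (J.card : ℝ) / 2 * (l / 16) ≤ ∑ Y ∈ J, (Y.card : ℝ) :=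
      le_trans (mul_le_mul_of_nonneg_right (by linarith) (by positivity)) b3
    nlinarith

theorem vertex_bound (A : V → V → Prop) (hA : ∀ v, ¬ A v v) (U : Finset V)
    (h3 : ∀ a ∈ U, ∀ b ∈ U, ∀ c ∈ U, A a b → A a c → ¬ A b c) {l : ℕ} (hl : 8 ≤ l) {d : ℝ}
    (hd : 4 ^ l ≤ d) {v : V} (hv : v ∈ U) :
    0 ≤ ∑ S ∈ selIn U.powerset (Ind A), (64 * (d * ind (v ∈ S) + (S ∩ nb A U v).card) - l) := by
  rw [← sum_fiberwise_of_maps_to (g := fun S => S \ insert v (nb A U v))
    (t := (selIn U.powerset (Ind A)).image fun S => S \ insert v (nb A U v))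
    fun S hS => mem_image_of_mem _ hS]
  refine sum_nonneg fun R hR => ?_
  obtain ⟨S1, hS1, hR1⟩ := mem_image.1 hR
  simp only [mem_selIn, mem_powerset] at hS1
  have RU : R ⊆ U := hR1 ▸ sdiff_subset.trans hS1.1
  have RI : Ind A R := fun a ha b hb =>
    hS1.2 a (mem_sdiff.1 (hR1 ▸ ha)).1 b (mem_sdiff.1 (hR1 ▸ hb)).1
  have Rn : ∀ r ∈ R, r ≠ v ∧ r ∉ nb A U v := fun r hr => by
    have := (mem_sdiff.1 (hR1 ▸ hr : r ∈ S1 \ insert v (nb A U v))).2
    simpa only [mem_insert, not_or] using this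
  have Rn' : ∀ r ∈ R, ¬ A r v ∧ ¬ A v r := fun r hr => by
    have := (Rn r hr).2
    simpa only [nb, mem_selIn, RU hr, true_and, not_or] using this
  have vn : v ∉ nb A U v := by simp [nb, hA]
  set F := (selIn U.powerset (Ind A)).filter fun S => S \ insert v (nb A U v) = R with hF
  have memF : ∀ S, S ∈ F ↔ (S ⊆ U ∧ Ind A S) ∧ S \ insert v (nb A U v) = R := fun S => by
    simp only [hF, mem_filter, mem_selIn, mem_powerset]
  have s0 : insert v R ∈ F := by
    refine (memF _).2 ⟨⟨insert_subset hv RU, fun a ha b hb => ?_⟩, ?_⟩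
    · rcases mem_insert.1 ha with ea | ha <;> rcases mem_insert.1 hb with eb | hb
      exacts [ea ▸ eb ▸ hA v, ea ▸ (Rn' b hb).2, eb ▸ (Rn' a ha).1, RI a ha b hb]
    · ext x
      simp only [mem_sdiff, mem_insert, not_or]
      exact ⟨fun h => h.1.resolve_left h.2.1, fun h => ⟨Or.inr h, Rn x h⟩⟩
  have e0 : F = insert (insert v R) (F.filter fun S => v ∉ S) := by
    ext S
    simp only [mem_insert, mem_filter]
    refine ⟨fun h => ?_, fun h => h.elim (fun e => e ▸ s0) fun h => h.1⟩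
    by_cases k : v ∈ S
    · left
      obtain ⟨⟨a, b⟩, c⟩ := (memF S).1 h
      ext x
      rw [mem_insert, ← c, mem_sdiff, mem_insert]
      refine ⟨fun hx => ?_, fun hx => hx.elim (fun e => e ▸ k) fun h => h.1⟩
      by_cases e : x = v
      · exact Or.inl e
      · refine Or.inr ⟨hx, fun t => t.elim e fun t => ?_⟩
        exact (mem_selIn.1 t).2.elim (b x hx v k) (b v k x hx)
    · exact Or.inr ⟨h, k⟩
  set F0 := F.filter fun S => v ∉ S with hF0
  have inj : Set.InjOn (fun S => S ∩ nb A U v) (F0 : Set (Finset V)) := by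
    intro S hS S' hS' e
    obtain ⟨a, b⟩ := mem_filter.1 (mem_coe.1 hS)
    obtain ⟨a', b'⟩ := mem_filter.1 (mem_coe.1 hS')
    have c := ((memF S).1 a).2.trans ((memF S').1 a').2.symm
    ext x
    have e1 := Finset.ext_iff.1 e x
    have e2 := Finset.ext_iff.1 c x
    simp only [mem_inter, mem_sdiff, mem_insert, not_or] at e1 e2
    by_cases k : x = v
    · subst k; tauto
    · tauto
  have key : ∀ Y ⊆ selIn (nb A U v) fun u => ∀ r ∈ R, ¬ A u r ∧ ¬ A r u, Ind A Y →
      Y ∈ F0.image fun S => S ∩ nb A U v := fun Y hY hI => by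
    have Yn : ∀ y ∈ Y, y ∈ nb A U v := fun y hy => (mem_selIn.1 (hY hy)).1
    refine mem_image.2 ⟨R ∪ Y, mem_filter.2 ⟨(memF _).2 ⟨⟨union_subset RU fun y hy =>
      (mem_selIn.1 (Yn y hy)).1, fun a ha b hb => ?_⟩, ?_⟩, fun h => ?_⟩, ?_⟩
    · rcases mem_union.1 ha with ha | ha <;> rcases mem_union.1 hb with hb | hb
      exacts [RI a ha b hb, ((mem_selIn.1 (hY hb)).2 a ha).2, ((mem_selIn.1 (hY ha)).2 b hb).1,
        hI a ha b hb]
    · ext x
      simp only [mem_sdiff, mem_insert, not_or, mem_union]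
      exact ⟨fun h => h.1.resolve_right fun k => h.2.2 (Yn x k), fun h => ⟨Or.inl h, Rn x h⟩⟩
    · exact (mem_union.1 h).elim (fun h => (Rn v h).1 rfl) fun h => vn (Yn v h)
    · ext x
      simp only [mem_inter, mem_union]
      exact ⟨fun h => h.1.resolve_left fun k => (Rn x k).2 h.2, fun h => ⟨Or.inr h, Yn x h⟩⟩
  have loc := local_bound (selIn (nb A U v) fun u => ∀ r ∈ R, ¬ A u r ∧ ¬ A r u)
    (selIn U fun u => A v u) (F0.image fun S => S ∩ nb A U v) (fun Y hY => ?_)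
    (fun Y hY => ?_) (fun Y hY => ?_) hl hd
  · rw [card_image_of_injOn inj, sum_image inj] at loc
    have n0 : insert v R ∉ F0 := fun h => (mem_filter.1 h).2 (mem_insert_self _ _)
    have z : ∀ S ∈ F0, 64 * (d * ind (v ∈ S) + ((S ∩ nb A U v).card : ℝ)) - l =
        64 * ((S ∩ nb A U v).card : ℝ) - l := fun S hS => by
      rw [ind_neg (mem_filter.1 hS).2, mul_zero, zero_add]
    rw [e0, sum_insert n0, ind_pos (mem_insert_self _ _), sum_congr rfl z]
    rw [sum_sub_distrib, sum_const, nsmul_eq_mul, ← mul_sum]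
    have : (0 : ℝ) ≤ (insert v R ∩ nb A U v).card := Nat.cast_nonneg _
    linarith
  · obtain ⟨S, hS, rfl⟩ := mem_image.1 hY
    obtain ⟨⟨_, b⟩, c⟩ := (memF S).1 (mem_filter.1 hS).1
    intro x hx
    have RS : ∀ r ∈ R, r ∈ S := fun r hr => (mem_sdiff.1 (c ▸ hr)).1
    exact mem_selIn.2 ⟨(mem_inter.1 hx).2, fun r hr =>
      ⟨b x (mem_inter.1 hx).1 r (RS r hr), b r (RS r hr) x (mem_inter.1 hx).1⟩⟩
  · have h := mem_powerset.1 hY
    refine key Y (h.trans inter_subset_left) fun a ha b hb => ?_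
    have a1 := mem_selIn.1 (mem_inter.1 (h ha)).2
    have b1 := mem_selIn.1 (mem_inter.1 (h hb)).2
    exact h3 v hv a a1.1 b b1.1 a1.2 b1.2
  · have h := mem_powerset.1 hY
    refine key Y (h.trans sdiff_subset) fun a ha b hb k => ?_
    have t : ∀ y ∈ Y, y ∈ U ∧ A y v := fun y hy => by
      have a1 := mem_sdiff.1 (h hy)
      have a2 := mem_selIn.1 (mem_selIn.1 a1.1).1
      exact ⟨a2.1, a2.2.resolve_right fun k => a1.2 (mem_selIn.2 ⟨a2.1, k⟩)⟩
    exact h3 a (t a ha).1 b (t b hb).1 v hv k (t a ha).2 (t b hb).2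

/-- a digraph without transitive triangles and with degrees at most `d ≥ 4 ^ l` has an independent
set of `l N / (128 d)` vertices -/
theorem alon (A : V → V → Prop) (hA : ∀ v, ¬ A v v) (U : Finset V)
    (h3 : ∀ a ∈ U, ∀ b ∈ U, ∀ c ∈ U, A a b → A a c → ¬ A b c) {l : ℕ} (hl : 8 ≤ l) {d : ℝ}
    (hd : 4 ^ l ≤ d) (hdeg : ∀ v ∈ U, ((nb A U v).card : ℝ) ≤ d) :
    ∃ S ⊆ U, Ind A S ∧ l * (U.card : ℝ) ≤ 128 * d * S.card := by
  have ne : (selIn U.powerset (Ind A)).Nonempty :=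
    ⟨∅, mem_selIn.2 ⟨empty_mem_powerset _, fun _ h => absurd h (notMem_empty _)⟩⟩
  have tot := sum_nonneg fun v (hv : v ∈ U) => vertex_bound A hA U h3 hl hd hv
  rw [sum_comm] at tot
  have : ∑ _S ∈ selIn U.powerset (Ind A), (0 : ℝ) ≤ _ := le_trans (by simp) tot
  obtain ⟨S, hS, h⟩ := exists_le_of_sum_le ne this
  obtain ⟨a, b⟩ := mem_selIn.1 hS
  have a' := mem_powerset.1 a
  refine ⟨S, a', b, ?_⟩
  have e1 : ∑ v ∈ U, ind (v ∈ S) = S.card := by
    rw [← card_selIn]
    congr 2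
    ext x
    exact ⟨fun h => (mem_selIn.1 h).2, fun h => mem_selIn.2 ⟨a' h, h⟩⟩
  have e2 : ∑ v ∈ U, ((S ∩ nb A U v).card : ℝ) ≤ S.card * d := by
    have t : ∀ v ∈ U, ((S ∩ nb A U v).card : ℝ) = ∑ u ∈ S, ind (A v u ∨ A u v) := fun v _ => by
      rw [← card_selIn]
      congr 2
      ext x
      simp only [mem_inter, nb, mem_selIn]
      exact ⟨fun h => ⟨h.1, h.2.2.symm⟩, fun h => ⟨h.1, a' h.1, h.2.symm⟩⟩
    rw [sum_congr rfl t, sum_comm, ← nsmul_eq_mul]
    refine sum_le_card_nsmul _ _ _ fun u hu => ?_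
    rw [← card_selIn]
    exact hdeg u (a' hu)
  simp only [sum_sub_distrib, sum_add_distrib, sum_const, nsmul_eq_mul, ← mul_sum, e1] at h
  nlinarith

end Pool.Agent.Work.MP_e10cd8_co.Upper
end

-- merged part: Pool.Agent.Work.MP_e10cd8_co.Upper.Main
section
/-! The upper bound `C n ^ (m - 1) / (log n) ^ (m - 2)` for fixed `m`. -/

namespace Pool.Agent.Work.MP_e10cd8_co.Upper
open Finset Pool.Agent.Work.MP_e10cd8_co.Four

variable {V : Type} [DecidableEq V]

/-- `U` contains a transitive tournament on `m` vertices -/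
def HasT (A : V → V → Prop) (m : ℕ) (U : Finset V) : Prop :=
  ∃ f : Fin m → V, (∀ i, f i ∈ U) ∧ ∀ i j, i < j → A (f i) (f j)

omit [DecidableEq V] in
theorem hasT_cons {A : V → V → Prop} {m : ℕ} {U W : Finset V} {v : V} (hv : v ∈ U)
    (hW : ∀ w ∈ W, w ∈ U ∧ A v w) (h : HasT A m W) : HasT A (m + 1) U := by
  obtain ⟨f, a, b⟩ := h
  refine ⟨Fin.cons v f, fun i => ?_, fun i j hij => ?_⟩
  · exact Fin.cases hv (fun i => (hW _ (a i)).1) i
  · rcases Fin.eq_zero_or_eq_succ j with rfl | ⟨j, rfl⟩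
    · exact absurd hij (Fin.not_lt_zero _)
    · rcases Fin.eq_zero_or_eq_succ i with rfl | ⟨i, rfl⟩
      · exact (hW _ (a j)).2
      · exact b i j (Fin.succ_lt_succ_iff.1 hij)

omit [DecidableEq V] in
theorem hasT_flip {A : V → V → Prop} {m : ℕ} {U : Finset V} (h : HasT A m U) :
    HasT (fun a b => A b a) m U := by
  obtain ⟨f, a, b⟩ := h
  exact ⟨fun i => f i.rev, fun i => a _, fun i j hij => b _ _ (Fin.rev_lt_rev.2 hij)⟩

omit [DecidableEq V] in
theorem hasT_snoc {A : V → V → Prop} {m : ℕ} {U W : Finset V} {v : V} (hv : v ∈ U)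
    (hW : ∀ w ∈ W, w ∈ U ∧ A w v) (h : HasT A m W) : HasT A (m + 1) U :=
  hasT_flip (hasT_cons (A := fun a b => A b a) hv hW (hasT_flip h))

/-- sampling and deletion -/
theorem thin (A : V → V → Prop) (hA : ∀ v, ¬ A v v) (U : Finset V) {b0 b1 p d : ℝ} (hb0 : 0 ≤ b0)
    (h0 : 0 ≤ p) (h1 : p ≤ 1) (hd : 0 < d) (hn : ∀ v ∈ U, ((nb A U v).card : ℝ) ≤ 2 * b1)
    (ho : ∀ v ∈ U, ((selIn U fun u => A v u).card : ℝ) ≤ b1)
    (ht : ∀ a ∈ U, ∀ b ∈ U, A a b → ((selIn U fun c => A a c ∧ A b c).card : ℝ) ≤ b0) :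
    ∃ W ⊆ U, (∀ a ∈ W, ∀ b ∈ W, ∀ c ∈ W, A a b → A a c → ¬ A b c) ∧
      (∀ v ∈ W, ((nb A W v).card : ℝ) ≤ d) ∧
      U.card * (p - 2 * b1 * p ^ 2 / d - b1 * b0 * p ^ 3) ≤ W.card := by
  obtain ⟨T, hT, h⟩ := exists_ge_Ex (Ω := U) h0 h1 fun T => ∑ v ∈ U, (ind ({v} ⊆ T) -
    d⁻¹ * ∑ u ∈ nb A U v, ind ({v, u} ⊆ T) -
    ∑ b ∈ selIn U fun u => A v u, ∑ c ∈ selIn U fun c => A v c ∧ A b c, ind ({v, b, c} ⊆ T))
  refine ⟨selIn T fun v => ((nb A T v).card : ℝ) ≤ d ∧ ∀ b ∈ T, ∀ c ∈ T, A v b → A v c → ¬ A b c,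
    (selIn_subset _ _).trans hT, fun a ha b hb c hc => (mem_selIn.1 ha).2.2 b (mem_selIn.1 hb).1 c
      (mem_selIn.1 hc).1, fun v hv => le_trans ?_ (mem_selIn.1 hv).2.1, le_trans ?_ (h.trans ?_)⟩
  · exact Nat.cast_le.2 (card_le_card fun u hu =>
      mem_selIn.2 ⟨(mem_selIn.1 (mem_selIn.1 hu).1).1, (mem_selIn.1 hu).2⟩)
  · rw [Ex_sum, ← nsmul_eq_mul]
    refine card_nsmul_le_sum _ _ _ fun v hv => ?_
    rw [Ex_sub, Ex_sub, Ex_mul_left, Ex_sum, Ex_sum]
    have e1 : Ex p U (fun T => ind ({v} ⊆ T)) = p :=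
      (Pr_subset (singleton_subset_iff.2 hv)).trans (by simp)
    have e2 : ∑ u ∈ nb A U v, Ex p U (fun T => ind ({v, u} ⊆ T)) ≤ 2 * b1 * p ^ 2 := by
      refine (sum_le_card_nsmul _ _ (p ^ 2) fun u hu => ?_).trans ?_
      · obtain ⟨a, b⟩ := mem_selIn.1 hu
        have ne : v ≠ u := fun e => by subst e; exact b.elim (hA _) (hA _)
        exact ((Pr_subset (insert_subset hv (singleton_subset_iff.2 a))).trans
          (by rw [card_pair ne])).le
      · rw [nsmul_eq_mul]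
        exact mul_le_mul_of_nonneg_right (hn v hv) (by positivity)
    have e3 : ∑ b ∈ selIn U fun u => A v u, Ex p U (fun T =>
        ∑ c ∈ selIn U fun c => A v c ∧ A b c, ind ({v, b, c} ⊆ T)) ≤ b1 * b0 * p ^ 3 := by
      refine (sum_le_card_nsmul _ _ (b0 * p ^ 3) fun b hb => ?_).trans ?_
      · obtain ⟨b', b''⟩ := mem_selIn.1 hb
        rw [Ex_sum]
        refine (sum_le_card_nsmul _ _ (p ^ 3) fun c hc => ?_).trans ?_
        · obtain ⟨c', c1, c2⟩ := mem_selIn.1 hc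
          have n1 : v ≠ b := fun e => by subst e; exact hA _ b''
          have n2 : v ≠ c := fun e => by subst e; exact hA _ c1
          have n3 : b ≠ c := fun e => by subst e; exact hA _ c2
          exact ((Pr_subset (insert_subset hv (insert_subset b' (singleton_subset_iff.2 c')))).trans
            (by rw [card_eq_three.2 ⟨v, b, c, n1, n2, n3, rfl⟩])).le
        · rw [nsmul_eq_mul]
          exact mul_le_mul_of_nonneg_right (ht v hv b b' b'') (by positivity)
      · rw [nsmul_eq_mul, mul_assoc]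
        exact mul_le_mul_of_nonneg_right (ho v hv) (by positivity)
    have := mul_le_mul_of_nonneg_left e2 (inv_pos.2 hd).le
    rw [e1, div_eq_inv_mul]
    linarith
  · rw [card_selIn]
    refine le_trans (sum_le_sum fun v hv => ?_) (le_of_eq (sum_subset hT (f := fun v => ind (v ∈ T ∧
      (((nb A T v).card : ℝ) ≤ d ∧ ∀ b ∈ T, ∀ c ∈ T, A v b → A v c → ¬ A b c)))
      fun v _ k => ind_neg fun t => k t.1).symm) |>.trans (le_of_eq (sum_congr rfl fun v hv => ?_))
    · have s2 : 0 ≤ d⁻¹ * ∑ u ∈ nb A U v, ind ({v, u} ⊆ T) :=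
        mul_nonneg (inv_pos.2 hd).le (sum_nonneg fun _ _ => ind_nonneg _)
      have s3 : 0 ≤ ∑ b ∈ selIn U fun u => A v u, ∑ c ∈ selIn U fun c => A v c ∧ A b c,
          ind ({v, b, c} ⊆ T) := sum_nonneg fun _ _ => sum_nonneg fun _ _ => ind_nonneg _
      have s1 := ind_le_one ({v} ⊆ T)
      by_cases k : v ∈ T
      · by_cases k1 : ((nb A T v).card : ℝ) ≤ d
        · by_cases k2 : ∀ b ∈ T, ∀ c ∈ T, A v b → A v c → ¬ A b c
          · refine le_trans ?_ (ind_pos ⟨k, k1, k2⟩).ge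
            linarith
          · refine le_trans ?_ (ind_nonneg _)
            push Not at k2
            obtain ⟨b, hb, c, hc, x1, x2, x3⟩ := k2
            have t1 := single_le_sum (f := fun c => ind ({v, b, c} ⊆ T)) (fun _ _ => ind_nonneg _)
              (mem_selIn.2 ⟨hT hc, x2, x3⟩ : c ∈ selIn U fun c => A v c ∧ A b c)
            have t2 := single_le_sum (f := fun b => ∑ c ∈ selIn U fun c => A v c ∧ A b c,
              ind ({v, b, c} ⊆ T)) (fun _ _ => sum_nonneg fun _ _ => ind_nonneg _)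
              (mem_selIn.2 ⟨hT hb, x1⟩ : b ∈ selIn U fun u => A v u)
            rw [ind_pos (insert_subset k (insert_subset hb (singleton_subset_iff.2 hc)))] at t1
            linarith
        · refine le_trans ?_ (ind_nonneg _)
          have t1 : ((nb A T v).card : ℝ) ≤ ∑ u ∈ nb A U v, ind ({v, u} ⊆ T) := by
            rw [← card_selIn]
            exact Nat.cast_le.2 (card_le_card fun u hu => mem_selIn.2
              ⟨mem_selIn.2 ⟨hT (mem_selIn.1 hu).1, (mem_selIn.1 hu).2⟩,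
                insert_subset k (singleton_subset_iff.2 (mem_selIn.1 hu).1)⟩)
          have t2 := mul_le_mul_of_nonneg_left ((not_le.1 k1).le.trans t1) (inv_pos.2 hd).le
          rw [inv_mul_cancel₀ hd.ne'] at t2
          linarith
      · refine le_trans ?_ (ind_nonneg _)
        rw [ind_neg fun t => k (singleton_subset_iff.1 t)]
        linarith
    · simp only [hv, true_and]

/-- one step of the induction on the order of the tournament -/
theorem step (A : V → V → Prop) (hA : ∀ v, ¬ A v v) {n : ℝ} (hn : ∀ S, Ind A S → (S.card : ℝ) ≤ n)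
    {m l : ℕ} (hl : 8 ≤ l) {b0 b1 : ℝ} (hb0 : 0 ≤ b0) (k0 : 16 ^ l * b0 ≤ 16 * b1)
    (k1 : 4 ^ l ≤ 8 * b1) (h0 : ∀ U, ¬ HasT A m U → (U.card : ℝ) ≤ b0)
    (h1 : ∀ U, ¬ HasT A (m + 1) U → (U.card : ℝ) ≤ b1) (U : Finset V) (hU : ¬ HasT A (m + 2) U) :
    l * (U.card : ℝ) ≤ 2048 * n * b1 := by
  have d0 : (0 : ℝ) < 4 ^ l := by positivity
  have b1p : 0 < b1 := by linarith
  have ho : ∀ v ∈ U, ((selIn U fun u => A v u).card : ℝ) ≤ b1 := fun v hv =>
    h1 _ fun h => hU (hasT_cons hv (fun w hw => mem_selIn.1 hw) h)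
  have hi : ∀ v ∈ U, ((selIn U fun u => A u v).card : ℝ) ≤ b1 := fun v hv =>
    h1 _ fun h => hU (hasT_snoc hv (fun w hw => mem_selIn.1 hw) h)
  have hb : ∀ v ∈ U, ((nb A U v).card : ℝ) ≤ 2 * b1 := fun v hv => by
    have : (nb A U v).card ≤ (selIn U fun u => A u v).card + (selIn U fun u => A v u).card :=
      (card_le_card fun u hu => mem_union.2 ((mem_selIn.1 hu).2.imp
        (fun t => mem_selIn.2 ⟨(mem_selIn.1 hu).1, t⟩)
        fun t => mem_selIn.2 ⟨(mem_selIn.1 hu).1, t⟩)).trans (card_union_le _ _)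
    have t : ((nb A U v).card : ℝ) ≤
        (selIn U fun u => A u v).card + (selIn U fun u => A v u).card := by exact_mod_cast this
    linarith [ho v hv, hi v hv]
  have ht : ∀ a ∈ U, ∀ b ∈ U, A a b → ((selIn U fun c => A a c ∧ A b c).card : ℝ) ≤ b0 := by
    intro a ha b hb hab
    refine h0 _ fun h => hU (hasT_cons (W := selIn U fun u => A a u) ha
      (fun w hw => mem_selIn.1 hw) (hasT_cons (mem_selIn.2 ⟨hb, hab⟩) (fun w hw => ?_) h))
    obtain ⟨x, y, z⟩ := mem_selIn.1 hw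
    exact ⟨mem_selIn.2 ⟨x, y⟩, z⟩
  obtain ⟨W, -, w1, w2, w3⟩ := thin A hA U (b1 := b1) (p := 4 ^ l / (8 * b1)) hb0 (by positivity)
    (div_le_one_of_le₀ k1 (by positivity)) d0 hb ho ht
  obtain ⟨S, -, s1, s2⟩ := alon A hA W w1 hl le_rfl w2
  have e1 : 2 * b1 * (4 ^ l / (8 * b1)) ^ 2 / 4 ^ l = 4 ^ l / (8 * b1) / 4 := by
    field_simp
    norm_num
  have e2 : b1 * b0 * (4 ^ l / (8 * b1)) ^ 3 ≤ 4 ^ l / (8 * b1) / 4 := by
    have e : (16 : ℝ) ^ l = (4 ^ l) ^ 2 := by rw [← pow_mul, mul_comm, pow_mul]; norm_num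
    have : b1 * b0 * (4 ^ l / (8 * b1)) ^ 3 = 4 ^ l / (8 * b1) / 4 * (16 ^ l * b0 / (16 * b1)) := by
      rw [e]
      field_simp
      ring
    rw [this]
    exact mul_le_of_le_one_right (by positivity) (div_le_one_of_le₀ k0 (by positivity))
  have w4 : U.card * (4 ^ l / (8 * b1) / 2) ≤ W.card :=
    le_trans (mul_le_mul_of_nonneg_left (by rw [e1]; linarith) (Nat.cast_nonneg _)) w3
  have w5 : l * (U.card * (4 ^ l / (8 * b1) / 2)) ≤ 128 * 4 ^ l * n :=
    ((mul_le_mul_of_nonneg_left w4 (Nat.cast_nonneg l)).trans s2).trans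
      (mul_le_mul_of_nonneg_left (hn S s1) (by positivity))
  have e3 : l * (U.card * (4 ^ l / (8 * b1) / 2)) = l * U.card / (16 * b1) * 4 ^ l := by
    field_simp
    ring
  rw [e3, mul_right_comm] at w5
  have := (div_le_iff₀ (by positivity)).1 (le_of_mul_le_mul_right w5 d0)
  linarith

theorem iter (A : V → V → Prop) (hA : ∀ v, ¬ A v v) {n : ℝ} (hn : ∀ S, Ind A S → (S.card : ℝ) ≤ n)
    {l : ℕ} (hl : 8 ≤ l) (k : 32 ^ l ≤ n) (j : ℕ) :
    (∀ U, ¬ HasT A (j + 1) U → (U.card : ℝ) ≤ n * (2048 * n / l) ^ j / (2048 * n / l)) ∧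
      ∀ U, ¬ HasT A (j + 2) U → (U.card : ℝ) ≤ n * (2048 * n / l) ^ j := by
  have l0 : (0 : ℝ) < l := by exact_mod_cast (by omega : 0 < l)
  have n0 : 0 < n := lt_of_lt_of_le (by positivity) k
  have b : (l : ℝ) ≤ 2 ^ l := by exact_mod_cast (Nat.lt_two_pow_self (n := l)).le
  have r1 : (16 : ℝ) ^ l ≤ 2048 * n / l := by
    rw [le_div_iff₀ l0]
    have e : (32 : ℝ) ^ l = 16 ^ l * 2 ^ l := by rw [← mul_pow]; norm_num
    have := mul_le_mul_of_nonneg_left b (show (0 : ℝ) ≤ 16 ^ l by positivity)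
    linarith
  have r2 : (1 : ℝ) ≤ 2048 * n / l := (one_le_pow₀ (by norm_num)).trans r1
  induction j with
  | zero =>
    refine ⟨fun U hU => ?_, fun U hU => ?_⟩
    · rcases U.eq_empty_or_nonempty with rfl | ⟨v, hv⟩
      · rw [card_empty, Nat.cast_zero]
        positivity
      · exact absurd ⟨fun _ => v, fun _ => hv, fun i j h => absurd h (by omega)⟩ hU
    · rw [pow_zero, mul_one]
      refine hn U fun u hu v hv h => hU ⟨![u, v], fun i => ?_, fun i j t => ?_⟩
      · fin_cases i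
        exacts [hu, hv]
      · fin_cases i <;> fin_cases j
        exacts [absurd t (by simp), h, absurd t (by simp), absurd t (by simp)]
  | succ j ih =>
    have p0 : 0 < n * (2048 * n / l) ^ j := by positivity
    refine ⟨fun U hU => ?_, fun U hU => ?_⟩
    · rw [pow_succ, ← mul_assoc, mul_div_cancel_right₀ _ (by linarith)]
      exact ih.2 U hU
    · have := step A hA hn hl (by positivity) ?_ ?_ ih.1 ih.2 U hU
      · rw [pow_succ, ← mul_assoc, ← mul_div_assoc, le_div_iff₀ l0]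
        linarith
      · rw [← mul_div_assoc, div_le_iff₀ (by linarith)]
        nlinarith
      · have t1 : (4 : ℝ) ^ l ≤ 32 ^ l := pow_le_pow_left₀ (by norm_num) (by norm_num) _
        have t2 := le_mul_of_one_le_right n0.le (one_le_pow₀ (n := j) r2)
        linarith

/-- upper bound for every fixed order `j + 2` -/
theorem upper (j : ℕ) : ∃ C : ℝ, ∃ n₀ : ℕ, ∀ n N : ℕ, n₀ ≤ n →
    C * (n : ℝ) ^ (j + 1) / Real.log n ^ j ≤ N → ∀ G : Digraph (Fin N), (∀ v, ¬ G.Adj v v) →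
      (∃ S : Finset (Fin N), S.card = n ∧ ∀ u ∈ S, ∀ v ∈ S, ¬ G.Adj u v) ∨
      ∃ f : Fin (j + 2) → Fin N, Function.Injective f ∧ ∀ i j, i < j → G.Adj (f i) (f j) := by
  refine ⟨2 * 14336 ^ j, 32 ^ 8, fun n N hn hN G hG => ?_⟩
  by_contra h
  rw [not_or] at h
  have n1 : n ≠ 0 := by omega
  have n2 : (1 : ℝ) < n := by exact_mod_cast (by omega : 1 < n)
  have hl : 8 ≤ Nat.log 32 n := Nat.le_log_of_pow_le (by norm_num) hn
  have l8 : (8 : ℝ) ≤ Nat.log 32 n := by exact_mod_cast hl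
  have a := (iter G.Adj hG (n := n) (fun S hS => ?_) hl
    (by exact_mod_cast Nat.pow_log_le_self 32 n1) j).2 univ fun ⟨f, _, hf⟩ => h.2 ⟨f, ?_, hf⟩
  · rw [card_univ, Fintype.card_fin] at a
    have L0 := Real.log_pos n2
    have L1 : Real.log n ≤ 7 * Nat.log 32 n := by
      have t : (n : ℝ) ≤ 2 ^ (5 * (Nat.log 32 n + 1)) := by
        rw [pow_mul]
        exact_mod_cast (Nat.lt_pow_succ_log_self (by norm_num : 1 < 32) n).le
      have := Real.log_le_log (by linarith) t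
      rw [Real.log_pow] at this
      push_cast at this
      nlinarith [Real.log_two_lt_d9]
    have r : 2048 * (n : ℝ) / Nat.log 32 n ≤ 14336 * n / Real.log n := by
      rw [div_le_div_iff₀ (by linarith) L0]
      nlinarith
    have r2 : (n : ℝ) * (2048 * n / Nat.log 32 n) ^ j ≤ n * (14336 * n / Real.log n) ^ j := by
      gcongr
    have e : 2 * 14336 ^ j * (n : ℝ) ^ (j + 1) / Real.log n ^ j =
        2 * (n * (14336 * n / Real.log n) ^ j) := by
      rw [div_pow, mul_pow, pow_succ]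
      ring
    have p : 0 < (n : ℝ) * (14336 * n / Real.log n) ^ j := by positivity
    linarith
  · by_contra k
    obtain ⟨S', s1, s2⟩ := exists_subset_card_eq (s := S) (n := n)
      (by exact_mod_cast (not_le.1 k).le)
    exact h.1 ⟨S', s2, fun u hu v hv => hS u (s1 hu) v (s1 hv)⟩
  · intro a b e
    by_contra k
    rcases lt_or_gt_of_ne k with t | t
    · exact hG _ (e ▸ hf a b t)
    · exact hG _ (e ▸ hf b a t)

/-- the case of four vertices -/
theorem upper4 : ∃ C : ℝ, ∃ n₀ : ℕ, ∀ n N : ℕ, n₀ ≤ n →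
    C * (n : ℝ) ^ 3 / Real.log n ^ 2 ≤ N → ∀ G : Digraph (Fin N), (∀ v, ¬ G.Adj v v) →
      (∃ S : Finset (Fin N), S.card = n ∧ ∀ u ∈ S, ∀ v ∈ S, ¬ G.Adj u v) ∨
      ∃ f : Fin 4 → Fin N, Function.Injective f ∧ ∀ i j, i < j → G.Adj (f i) (f j) :=
  upper 2

end Pool.Agent.Work.MP_e10cd8_co.Upper
end

-- merged part: Pool.Agent.Work.MP_e10cd8_co.Uni.UHard
section
/-! The hard-core model: local occupancy gives a large independent set. -/

namespace Pool.Agent.Work.MP_e10cd8_co.Uni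
open Finset Pool.Agent.Work.MP_e10cd8_co.Four Pool.Agent.Work.MP_e10cd8_co.Upper

variable {V : Type} [DecidableEq V]

/-- the independent subsets of `X` -/
noncomputable def IS (A : V → V → Prop) (X : Finset V) : Finset (Finset V) :=
  selIn X.powerset (Ind A)

omit [DecidableEq V] in
theorem mem_IS {A : V → V → Prop} {X S : Finset V} : S ∈ IS A X ↔ S ⊆ X ∧ Ind A S := by
  simp only [IS, mem_selIn, mem_powerset]

theorem hc_vertex (A : V → V → Prop) (hA : ∀ v, ¬ A v v) (U : Finset V) {x d b : ℝ} (hx : 0 ≤ x)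
    {v : V} (hv : v ∈ U) (hX : ∀ X ⊆ nb A U v, b * (x + ∑ Y ∈ IS A X, x ^ Y.card) ≤
      d * x + ∑ Y ∈ IS A X, x ^ Y.card * Y.card) :
    0 ≤ ∑ S ∈ IS A U, x ^ S.card * (d * ind (v ∈ S) + (S ∩ nb A U v).card - b) := by
  rw [← sum_fiberwise_of_maps_to (g := fun S => S \ insert v (nb A U v))
    (t := (IS A U).image fun S => S \ insert v (nb A U v)) fun S hS => mem_image_of_mem _ hS]
  refine sum_nonneg fun R hR => ?_
  obtain ⟨S1, hS1, hR1⟩ := mem_image.1 hR
  rw [mem_IS] at hS1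
  have RU : R ⊆ U := hR1 ▸ sdiff_subset.trans hS1.1
  have RI : Ind A R := fun a ha b hb =>
    hS1.2 a (Finset.mem_sdiff.1 (hR1 ▸ ha)).1 b (Finset.mem_sdiff.1 (hR1 ▸ hb)).1
  have Rn : ∀ r ∈ R, r ≠ v ∧ r ∉ nb A U v := fun r hr => by
    have := (Finset.mem_sdiff.1 (hR1 ▸ hr : r ∈ S1 \ insert v (nb A U v))).2
    simpa only [mem_insert, not_or] using this
  have Rn' : ∀ r ∈ R, ¬ A r v ∧ ¬ A v r := fun r hr => by
    have := (Rn r hr).2
    simpa only [nb, mem_selIn, RU hr, true_and, not_or] using this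
  have vn : v ∉ nb A U v := by simp [nb, hA]
  set F := (IS A U).filter fun S => S \ insert v (nb A U v) = R with hF
  have memF : ∀ S, S ∈ F ↔ (S ⊆ U ∧ Ind A S) ∧ S \ insert v (nb A U v) = R := fun S => by
    simp only [hF, mem_filter, mem_IS]
  have s0 : insert v R ∈ F := by
    refine (memF _).2 ⟨⟨insert_subset hv RU, fun a ha b hb => ?_⟩, ?_⟩
    · rcases mem_insert.1 ha with ea | ha <;> rcases mem_insert.1 hb with eb | hb
      exacts [ea ▸ eb ▸ hA v, ea ▸ (Rn' b hb).2, eb ▸ (Rn' a ha).1, RI a ha b hb]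
    · ext x
      simp only [Finset.mem_sdiff, mem_insert, not_or]
      exact ⟨fun h => h.1.resolve_left h.2.1, fun h => ⟨Or.inr h, Rn x h⟩⟩
  have e0 : F = insert (insert v R) (F.filter fun S => v ∉ S) := by
    ext S
    simp only [mem_insert, mem_filter]
    refine ⟨fun h => ?_, fun h => h.elim (fun e => e ▸ s0) fun h => h.1⟩
    by_cases k : v ∈ S
    · left
      obtain ⟨⟨a, b⟩, c⟩ := (memF S).1 h
      ext x
      rw [mem_insert, ← c, Finset.mem_sdiff, mem_insert]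
      refine ⟨fun hx => ?_, fun hx => hx.elim (fun e => e ▸ k) fun h => h.1⟩
      by_cases e : x = v
      · exact Or.inl e
      · refine Or.inr ⟨hx, fun t => t.elim e fun t => ?_⟩
        exact (mem_selIn.1 t).2.elim (b x hx v k) (b v k x hx)
    · exact Or.inr ⟨h, k⟩
  set F0 := F.filter fun S => v ∉ S with hF0
  set X := selIn (nb A U v) fun u => ∀ r ∈ R, ¬ A u r ∧ ¬ A r u with hXd
  have Yn : ∀ Y ∈ IS A X, ∀ y ∈ Y, y ∈ nb A U v := fun Y hY y hy =>
    (mem_selIn.1 ((mem_IS.1 hY).1 hy)).1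
  have back : ∀ Y ∈ IS A X, (R ∪ Y) ∩ nb A U v = Y := fun Y hY => by
    ext x
    simp only [mem_inter, mem_union]
    exact ⟨fun h => h.1.resolve_left fun k => (Rn x k).2 h.2, fun h => ⟨Or.inr h, Yn Y hY x h⟩⟩
  have e1 : ∑ Y ∈ IS A X, x ^ R.card * (x ^ Y.card * (Y.card - b)) =
      ∑ S ∈ F0, x ^ S.card * (d * ind (v ∈ S) + (S ∩ nb A U v).card - b) := by
    refine sum_nbij' (fun Y => R ∪ Y) (fun S => S ∩ nb A U v) (fun Y hY => ?_) (fun S hS => ?_)
      back (fun S hS => ?_) fun Y hY => ?_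
    · obtain ⟨hY1, hI⟩ := mem_IS.1 hY
      refine mem_filter.2 ⟨(memF _).2 ⟨⟨union_subset RU fun y hy =>
        (mem_selIn.1 (Yn Y hY y hy)).1, fun a ha b hb => ?_⟩, ?_⟩, fun h => ?_⟩
      · rcases mem_union.1 ha with ha | ha <;> rcases mem_union.1 hb with hb | hb
        exacts [RI a ha b hb, ((mem_selIn.1 (hY1 hb)).2 a ha).2,
          ((mem_selIn.1 (hY1 ha)).2 b hb).1, hI a ha b hb]
      · ext x
        simp only [Finset.mem_sdiff, mem_insert, not_or, mem_union]
        exact ⟨fun h => h.1.resolve_right fun k => h.2.2 (Yn Y hY x k),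
          fun h => ⟨Or.inl h, Rn x h⟩⟩
      · exact (mem_union.1 h).elim (fun h => (Rn v h).1 rfl) fun h => vn (Yn Y hY v h)
    · obtain ⟨⟨_, b⟩, c⟩ := (memF S).1 (mem_filter.1 hS).1
      have RS : ∀ r ∈ R, r ∈ S := fun r hr => (Finset.mem_sdiff.1 (c ▸ hr)).1
      refine mem_IS.2 ⟨fun x hx => mem_selIn.2 ⟨(mem_inter.1 hx).2, fun r hr =>
        ⟨b x (mem_inter.1 hx).1 r (RS r hr), b r (RS r hr) x (mem_inter.1 hx).1⟩⟩,
        fun a ha c hc => b a (mem_inter.1 ha).1 c (mem_inter.1 hc).1⟩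
    · obtain ⟨a, b⟩ := mem_filter.1 hS
      have c := ((memF S).1 a).2
      ext x
      have e2 := Finset.ext_iff.1 c x
      simp only [mem_inter, mem_union, Finset.mem_sdiff, mem_insert, not_or] at e2 ⊢
      by_cases k : x = v
      · subst k; tauto
      · tauto
    · have dj : Disjoint R Y := disjoint_left.2 fun r hr hy => (Rn r hr).2 (Yn Y hY r hy)
      have nv : v ∉ R ∪ Y := fun h =>
        (mem_union.1 h).elim (fun h => (Rn v h).1 rfl) fun h => vn (Yn Y hY v h)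
      rw [back Y hY, card_union_of_disjoint dj, ind_neg nv, pow_add]
      ring
  have n0 : insert v R ∉ F0 := fun h => (mem_filter.1 h).2 (mem_insert_self _ _)
  have nR : v ∉ R := fun h => (Rn v h).1 rfl
  rw [e0, sum_insert n0, ind_pos (mem_insert_self _ _), ← e1, ← mul_sum, card_insert_of_notMem nR,
    pow_succ]
  have loc := hX X (selIn_subset _ _)
  have e2 : ∑ Y ∈ IS A X, x ^ Y.card * ((Y.card : ℝ) - b) =
      ∑ Y ∈ IS A X, x ^ Y.card * Y.card - b * ∑ Y ∈ IS A X, x ^ Y.card := by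
    rw [mul_sum, ← sum_sub_distrib]
    exact sum_congr rfl fun _ _ => by ring
  have p : (0 : ℝ) ≤ (insert v R ∩ nb A U v).card := Nat.cast_nonneg _
  have q : 0 ≤ x ^ R.card := by positivity
  rw [e2, mul_assoc, ← mul_add]
  exact mul_nonneg q (by nlinarith)

/-- local occupancy gives an independent set of `b N / (2 d)` vertices -/
theorem hc (A : V → V → Prop) (hA : ∀ v, ¬ A v v) (U : Finset V) {x d b : ℝ} (hx : 0 < x)
    (hdeg : ∀ v ∈ U, ((nb A U v).card : ℝ) ≤ d)
    (hX : ∀ X ⊆ U, b * (x + ∑ Y ∈ IS A X, x ^ Y.card) ≤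
      d * x + ∑ Y ∈ IS A X, x ^ Y.card * Y.card) :
    ∃ S, Ind A S ∧ b * (U.card : ℝ) ≤ 2 * d * S.card := by
  have ne : (IS A U).Nonempty :=
    ⟨∅, mem_IS.2 ⟨empty_subset _, fun _ h => absurd h (notMem_empty _)⟩⟩
  have tot := sum_nonneg fun v (hv : v ∈ U) => hc_vertex A hA U hx.le hv
    fun X h => hX X (h.trans (selIn_subset _ _))
  rw [sum_comm] at tot
  have : ∑ _S ∈ IS A U, (0 : ℝ) ≤ _ := le_trans (by simp) tot
  obtain ⟨S, hS, h⟩ := exists_le_of_sum_le ne this
  obtain ⟨a', b'⟩ := mem_IS.1 hS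
  refine ⟨S, b', ?_⟩
  have e1 : ∑ v ∈ U, ind (v ∈ S) = S.card := by
    rw [← card_selIn]
    congr 2
    ext x
    exact ⟨fun h => (mem_selIn.1 h).2, fun h => mem_selIn.2 ⟨a' h, h⟩⟩
  have e2 : ∑ v ∈ U, ((S ∩ nb A U v).card : ℝ) ≤ S.card * d := by
    have t : ∀ v ∈ U, ((S ∩ nb A U v).card : ℝ) = ∑ u ∈ S, ind (A v u ∨ A u v) := fun v _ => by
      rw [← card_selIn]
      congr 2
      ext x
      simp only [mem_inter, nb, mem_selIn]
      exact ⟨fun h => ⟨h.1, h.2.2.symm⟩, fun h => ⟨h.1, a' h.1, h.2.symm⟩⟩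
    rw [sum_congr rfl t, sum_comm, ← nsmul_eq_mul]
    refine sum_le_card_nsmul _ _ _ fun u hu => ?_
    rw [← card_selIn]
    exact hdeg u (a' hu)
  rw [← mul_sum] at h
  have h' := nonneg_of_mul_nonneg_right h (pow_pos hx _)
  simp only [sum_sub_distrib, sum_add_distrib, sum_const, nsmul_eq_mul, ← mul_sum, e1] at h'
  nlinarith

/-- many independent sets of a given size when all degrees are small -/
theorem cnt (A : V → V → Prop) (hA : ∀ v, ¬ A v v) {t D : ℝ} (ht : 0 ≤ t) (hD : 0 ≤ D) (j : ℕ) :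
    ∀ Y : Finset V, (∀ v ∈ Y, ((nb A Y v).card : ℝ) ≤ D) → t + j * (D + 1) ≤ Y.card →
      t ^ j ≤ j.factorial * ((IS A Y).filter fun S => S.card = j).card := by
  induction j with
  | zero =>
    intro Y _ _
    have : 0 < ((IS A Y).filter fun S => S.card = 0).card := card_pos.2 ⟨∅, mem_filter.2
      ⟨mem_IS.2 ⟨empty_subset _, fun _ h => absurd h (notMem_empty _)⟩, rfl⟩⟩
    simpa using this
  | succ j ih =>
    intro Y hY hc
    push_cast at hc
    have j0 : (0 : ℝ) ≤ j := Nat.cast_nonneg _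
    have a : ∀ v ∈ Y, t ^ j ≤ j.factorial *
        ∑ S ∈ (IS A Y).filter fun S => S.card = j + 1, ind (v ∈ S) := fun v hv => by
      refine (ih (Y \ insert v (nb A Y v)) (fun u hu => le_trans ?_
        (hY u (Finset.mem_sdiff.1 hu).1)) ?_).trans (mul_le_mul_of_nonneg_left ?_ (by positivity))
      · exact Nat.cast_le.2 (card_le_card fun w hw =>
          mem_selIn.2 ⟨(Finset.mem_sdiff.1 (mem_selIn.1 hw).1).1, (mem_selIn.1 hw).2⟩)
      · have c1 : Y.card ≤ (Y \ insert v (nb A Y v)).card + ((nb A Y v).card + 1) :=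
          card_le_card_sdiff_add_card.trans (Nat.add_le_add_left (card_insert_le _ _) _)
        have c2 : (Y.card : ℝ) ≤ (Y \ insert v (nb A Y v)).card + ((nb A Y v).card + 1) := by
          exact_mod_cast c1
        linarith [hY v hv]
      · rw [← card_selIn]
        have nv : ∀ S ∈ (IS A (Y \ insert v (nb A Y v))).filter fun S => S.card = j, v ∉ S :=
          fun S hS k => (Finset.mem_sdiff.1 ((mem_IS.1 (mem_filter.1 hS).1).1 k)).2
            (mem_insert_self _ _)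
        refine Nat.cast_le.2 (card_le_card_of_injOn (insert v) (fun S hS => ?_) fun S hS S' hS' e => ?_)
        · have hS := mem_coe.1 hS
          obtain ⟨⟨s1, s2⟩, s3⟩ := (mem_filter.1 hS).imp_left mem_IS.1
          have n : ∀ u ∈ S, ¬ A u v ∧ ¬ A v u := fun u hu => by
            have := Finset.mem_sdiff.1 (s1 hu)
            simpa only [mem_insert, nb, mem_selIn, this.1, true_and, not_or] using
              (not_or.1 (mem_insert.not.1 this.2)).2
          refine mem_coe.2 (mem_selIn.2 ⟨mem_filter.2 ⟨mem_IS.2 ⟨insert_subset hv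
            (s1.trans sdiff_subset), fun a ha b hb => ?_⟩, ?_⟩, mem_insert_self _ _⟩)
          · rcases mem_insert.1 ha with ea | ha <;> rcases mem_insert.1 hb with eb | hb
            exacts [ea ▸ eb ▸ hA v, ea ▸ (n b hb).2, eb ▸ (n a ha).1, s2 a ha b hb]
          · rw [card_insert_of_notMem (nv S hS), s3]
        · rw [← erase_insert (nv S (mem_coe.1 hS)), e, erase_insert (nv S' (mem_coe.1 hS'))]
    have b := card_nsmul_le_sum Y _ _ a
    rw [← mul_sum, sum_comm, nsmul_eq_mul] at b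
    have c : ∑ S ∈ (IS A Y).filter fun S => S.card = j + 1, ∑ v ∈ Y, ind (v ∈ S) =
        ((IS A Y).filter fun S => S.card = j + 1).card * ((j : ℝ) + 1) := by
      rw [← nsmul_eq_mul, ← sum_const]
      refine sum_congr rfl fun S hS => ?_
      obtain ⟨⟨s1, _⟩, s3⟩ := (mem_filter.1 hS).imp_left mem_IS.1
      rw [← card_selIn, ← Nat.cast_add_one, ← s3]
      congr 2
      ext x
      exact ⟨fun h => (mem_selIn.1 h).2, fun h => mem_selIn.2 ⟨s1 h, h⟩⟩
    rw [c] at b
    have d : t ≤ Y.card := by nlinarith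
    rw [Nat.factorial_succ, pow_succ]
    push_cast
    nlinarith [mul_le_mul_of_nonneg_left d (pow_nonneg ht j)]

omit [DecidableEq V] in
theorem sum_IS_le (A : V → V → Prop) (X : Finset V) {x : ℝ} (hx : 0 ≤ x) :
    ∑ Y ∈ IS A X, x ^ Y.card ≤ Real.exp (x * X.card) := by
  have e : ∑ Y ∈ X.powerset, x ^ Y.card = (x + 1) ^ X.card := by
    simpa only [one_pow, mul_one] using Finset.sum_pow_mul_eq_add_pow x 1 X
  refine (sum_le_sum_of_subset_of_nonneg (selIn_subset _ _) fun _ _ _ => by positivity).trans ?_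
  rw [e, mul_comm, Real.exp_nat_mul]
  exact pow_le_pow_left₀ (by positivity) (Real.add_one_le_exp x) _

/-- local occupancy for a set in which half of the vertices have small degree -/
theorem occ (A : V → V → Prop) (hA : ∀ v, ¬ A v v) (X : Finset V) {x d : ℝ} (hx : 0 < x)
    (hx1 : x ≤ 1) {k : ℕ} (hk : 1 ≤ k) (hd : k * Real.exp (350 * k) ≤ d * x)
    (hs : 350 * k ≤ x * X.card → ∃ Y ⊆ X, (X.card : ℝ) ≤ 2 * Y.card ∧
      ∀ v ∈ Y, 16 * k * ((nb A Y v).card : ℝ) ≤ X.card) :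
    k / 4 * (x + ∑ Y ∈ IS A X, x ^ Y.card) ≤ d * x + ∑ Y ∈ IS A X, x ^ Y.card * Y.card := by
  have k1 : (1 : ℝ) ≤ k := by exact_mod_cast hk
  have s0 : 0 ≤ ∑ Y ∈ IS A X, x ^ Y.card * Y.card := sum_nonneg fun _ _ => by positivity
  rcases le_total (x * X.card) (350 * k) with h | h
  · have a := (sum_IS_le A X hx.le).trans (Real.exp_le_exp.2 h)
    have b : 1 ≤ Real.exp (350 * k) := Real.one_le_exp (by positivity)
    nlinarith
  · obtain ⟨Y, hY, y1, y2⟩ := hs h
    have X0 : (0 : ℝ) ≤ X.card := Nat.cast_nonneg _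
    have hX : 350 * k ≤ (X.card : ℝ) := h.trans (mul_le_of_le_one_left X0 hx1)
    have c := cnt A hA (t := X.card / 4) (D := X.card / (16 * k)) (by positivity) (by positivity)
      (2 * k) Y (fun v hv => by rw [le_div_iff₀ (by positivity)]; linarith [y2 v hv]) (by
        have : ((2 * k : ℕ) : ℝ) * (X.card / (16 * k) + 1) = X.card / 8 + 2 * k := by
          push_cast
          field_simp
          ring
        rw [this]
        linarith)
    set Z := ∑ Y ∈ IS A X, x ^ Y.card with hZ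
    set y := x * X.card with hy
    have z1 : x ^ (2 * k) * ((IS A Y).filter fun S => S.card = 2 * k).card ≤ Z := by
      rw [mul_comm, ← nsmul_eq_mul, ← sum_const]
      refine le_trans (le_of_eq (sum_congr rfl fun S hS => by rw [(mem_filter.1 hS).2]))
        (sum_le_sum_of_subset_of_nonneg (fun S hS => ?_) fun _ _ _ => by positivity)
      obtain ⟨s1, s2⟩ := mem_IS.1 (mem_filter.1 hS).1
      exact mem_IS.2 ⟨s1.trans hY, s2⟩
    have f : ((2 * k).factorial : ℝ) ≤ (2 * k) ^ (2 * k) := by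
      exact_mod_cast Nat.factorial_le_pow (2 * k)
    have z2 : (y / (8 * k)) ^ (2 * k) ≤ Z := by
      refine le_trans ?_ z1
      have e : (y / (8 * k)) ^ (2 * k) = x ^ (2 * k) * ((X.card / 4) ^ (2 * k) / (2 * k) ^ (2 * k)) := by
        rw [← div_pow, ← mul_pow, hy]
        congr 1
        field_simp
        ring
      rw [e]
      refine mul_le_mul_of_nonneg_left ((div_le_iff₀ (by positivity)).2 (c.trans ?_)) (by positivity)
      rw [mul_comm]
      exact mul_le_mul_of_nonneg_left f (Nat.cast_nonneg _)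
    have y0 : 0 < y := by linarith
    have t1 : k / y ≤ 1 := div_le_one_of_le₀ (by linarith) y0.le
    have z3 : ∑ S ∈ IS A X, x ^ S.card * (k - S.card : ℝ) ≤ k * ((y / k) ^ k * Real.exp k) := by
      have a := sum_IS_le A X (x := x * (k / y)) (by positivity)
      have e : x * (k / y) * X.card = k := by
        rw [mul_right_comm, ← hy]
        field_simp
      rw [e] at a
      refine le_trans ?_ (mul_le_mul_of_nonneg_left (mul_le_mul_of_nonneg_left a (by positivity))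
        (by positivity))
      rw [mul_sum, mul_sum]
      refine sum_le_sum fun S _ => ?_
      rcases le_total k S.card with u | u
      · exact le_trans (mul_nonpos_of_nonneg_of_nonpos (by positivity)
          (sub_nonpos.2 (Nat.cast_le.2 u))) (by positivity)
      · have w : 1 ≤ (y / k) ^ k * (k / y) ^ S.card := by
          have := pow_le_pow_of_le_one (by positivity) t1 u
          refine le_trans (le_of_eq ?_) (mul_le_mul_of_nonneg_left this (by positivity))
          rw [← mul_pow, div_mul_div_cancel₀ (by positivity), div_self y0.ne', one_pow]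
        have p : 0 ≤ x ^ S.card := by positivity
        have q : (0 : ℝ) ≤ S.card := Nat.cast_nonneg _
        rw [mul_pow]
        nlinarith [mul_le_mul_of_nonneg_left w (mul_nonneg p (by positivity : (0 : ℝ) ≤ k))]
    have z4 : 2 * ((y / k) ^ k * Real.exp k) ≤ (y / (8 * k)) ^ (2 * k) := by
      have e : Real.exp k = Real.exp 1 ^ k := by rw [← Real.exp_nat_mul, mul_one]
      have g : 2 * (y / k * Real.exp 1) ≤ (y / (8 * k)) ^ 2 := by
        have u : 350 ≤ y / k := by rw [le_div_iff₀ (by positivity)]; linarith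
        have : y / (8 * k) = y / k / 8 := by field_simp
        rw [this]
        nlinarith [Real.exp_one_lt_d9]
      rw [e, ← mul_pow, pow_mul]
      refine le_trans ?_ (pow_le_pow_left₀ (by positivity) g k)
      rw [mul_pow 2]
      exact mul_le_mul_of_nonneg_right (le_self_pow₀ (by norm_num) (by omega)) (by positivity)
    have z5 : 1 ≤ Z := by
      have := single_le_sum (f := fun Y : Finset V => x ^ Y.card) (fun _ _ => by positivity)
        (mem_IS.2 ⟨empty_subset _, fun _ h => absurd h (notMem_empty _)⟩ : ∅ ∈ IS A X)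
      simpa using this
    have e : ∑ S ∈ IS A X, x ^ S.card * (k - S.card : ℝ) =
        k * Z - ∑ Y ∈ IS A X, x ^ Y.card * Y.card := by
      rw [hZ, mul_sum, ← sum_sub_distrib]
      exact sum_congr rfl fun _ _ => by ring
    have d0 : 0 ≤ d * x := le_trans (by positivity) hd
    nlinarith

end Pool.Agent.Work.MP_e10cd8_co.Uni
end

-- merged part: Pool.Agent.Work.MP_e10cd8_co.Uni.UDrc
section
/-! Dependent random choice: large sets without a transitive tournament are sparse. -/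

namespace Pool.Agent.Work.MP_e10cd8_co.Uni
open Finset Pool.Agent.Work.MP_e10cd8_co.Four Pool.Agent.Work.MP_e10cd8_co.Upper

variable {V : Type} [DecidableEq V]

omit [DecidableEq V] in
theorem hasT_sub {A : V → V → Prop} {m : ℕ} {U W : Finset V} (hW : W ⊆ U) (h : HasT A m W) :
    HasT A m U := by
  obtain ⟨f, a, b⟩ := h
  exact ⟨f, fun i => hW (a i), b⟩

omit [DecidableEq V] in
theorem hasT_append {A : V → V → Prop} {a b : ℕ} {U W : Finset V} (f : Fin a → V)
    (h1 : ∀ i, f i ∈ U) (h2 : ∀ i j, i < j → A (f i) (f j))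
    (hW : ∀ w ∈ W, w ∈ U ∧ ∀ i, A (f i) w) (h : HasT A b W) : HasT A (a + b) U := by
  obtain ⟨g, g1, g2⟩ := h
  refine ⟨Fin.append f g, fun i => ?_, fun i j hij => ?_⟩
  · refine Fin.addCases (fun i => ?_) (fun i => ?_) i
    · rw [Fin.append_left]; exact h1 i
    · rw [Fin.append_right]; exact (hW _ (g1 i)).1
  · revert hij
    refine Fin.addCases (fun i => ?_) (fun i => ?_) i <;>
      refine Fin.addCases (fun j => ?_) (fun j => ?_) j <;> intro hij
    · rw [Fin.append_left, Fin.append_left]; exact h2 i j hij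
    · rw [Fin.append_left, Fin.append_right]; exact (hW _ (g1 j)).2 i
    · exact absurd hij (by simp only [Fin.lt_def, Fin.val_natAdd, Fin.val_castAdd]; omega)
    · rw [Fin.append_right, Fin.append_right]
      exact g2 i j (by simpa only [Fin.lt_def, Fin.val_natAdd, Nat.add_lt_add_iff_left] using hij)

theorem cnt_pi (X : Finset V) (p : V → Prop) (h : ℕ) :
    ∑ y ∈ Fintype.piFinset fun _ : Fin h => X, ind (∀ i, p (y i)) =
      ((selIn X p).card : ℝ) ^ h := by
  rw [← card_selIn, ← Nat.cast_pow, ← Fintype.card_piFinset_const]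
  congr 2
  ext y
  simp only [mem_selIn, Fintype.mem_piFinset, forall_and]

/-- few vertices have many out-neighbours -/
theorem drc (A : V → V → Prop) (X : Finset V) {a b : ℕ} (h : ℕ) {B1 B2 D : ℝ} (hD : 0 ≤ D)
    (hB : 0 ≤ B2) (h1 : ∀ W, ¬ HasT A (a + 1) W → (W.card : ℝ) ≤ B1)
    (h2 : ∀ W, ¬ HasT A b W → (W.card : ℝ) ≤ B2) (hX : ¬ HasT A (a + 1 + b) X) :
    (selIn X fun u => D ≤ (selIn X fun w => A u w).card).card * D ^ h ≤
      B1 * (X.card : ℝ) ^ h + (X.card : ℝ) ^ (a + 1) * B2 ^ h := by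
  set P := Fintype.piFinset fun _ : Fin h => X with hP
  set T := selIn (Fintype.piFinset fun _ : Fin (a + 1) => X)
    fun f => ∀ i j, i < j → A (f i) (f j) with hT
  have a1 : ∀ y ∈ P, ∑ u ∈ X, ind (∀ i, A u (y i)) ≤
      B1 + ∑ f ∈ T, ind (∀ i, ∀ j, A (f j) (y i)) := fun y _ => by
    rw [← card_selIn, ← card_selIn]
    have c := h1 ((selIn X fun u => ∀ i, A u (y i)) \
      (selIn T fun f => ∀ i, ∀ j, A (f j) (y i)).image fun f => f 0) fun ⟨f, f1, f2⟩ =>
      (Finset.mem_sdiff.1 (f1 0)).2 (mem_image_of_mem (fun f => f 0) (mem_selIn.2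
        ⟨mem_selIn.2 ⟨Fintype.mem_piFinset.2 fun j => (mem_selIn.1 (Finset.mem_sdiff.1 (f1 j)).1).1,
          f2⟩, fun i j => (mem_selIn.1 (Finset.mem_sdiff.1 (f1 j)).1).2 i⟩))
    have c1 := (card_le_card_sdiff_add_card (s := selIn X fun u => ∀ i, A u (y i))
      (t := (selIn T fun f => ∀ i, ∀ j, A (f j) (y i)).image fun f => f 0)).trans
      (Nat.add_le_add_left card_image_le _)
    have c2 := (Nat.cast_le (α := ℝ)).2 c1
    push_cast at c2
    linarith
  have a2 := sum_le_sum a1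
  rw [sum_comm, sum_add_distrib, sum_const, sum_comm (s := P), nsmul_eq_mul, hP,
    Fintype.card_piFinset_const] at a2
  have a3 : ∑ f ∈ T, ∑ y ∈ Fintype.piFinset fun _ : Fin h => X, ind (∀ i, ∀ j, A (f j) (y i)) ≤
      (X.card : ℝ) ^ (a + 1) * B2 ^ h := by
    refine (sum_le_card_nsmul _ _ (B2 ^ h) fun f hf => ?_).trans ?_
    · obtain ⟨f1, f2⟩ := mem_selIn.1 hf
      rw [cnt_pi X (fun w => ∀ j, A (f j) w) h]
      exact pow_le_pow_left₀ (Nat.cast_nonneg _) (h2 _ fun k => hX (hasT_append f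
        (Fintype.mem_piFinset.1 f1) f2 (fun w hw => mem_selIn.1 hw) k)) _
    · rw [nsmul_eq_mul]
      refine mul_le_mul_of_nonneg_right ?_ (by positivity)
      rw [← Nat.cast_pow, ← Fintype.card_piFinset_const]
      exact Nat.cast_le.2 (card_le_card (selIn_subset _ _))
  have a4 : (selIn X fun u => D ≤ (selIn X fun w => A u w).card).card * D ^ h ≤
      ∑ u ∈ X, ∑ y ∈ Fintype.piFinset fun _ : Fin h => X, ind (∀ i, A u (y i)) := by
    rw [card_selIn, sum_mul]
    refine sum_le_sum fun u _ => ?_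
    rw [cnt_pi X (fun w => A u w) h]
    by_cases k : D ≤ (selIn X fun w => A u w).card
    · rw [ind_pos k, one_mul]
      exact pow_le_pow_left₀ hD k _
    · rw [ind_neg k, zero_mul]
      positivity
  push_cast at a2
  linarith

omit [DecidableEq V] in
theorem nb_le (A : V → V → Prop) (U : Finset V) (v : V) : ((nb A U v).card : ℝ) ≤
    (selIn U fun u => A u v).card + (selIn U fun u => A v u).card := by
  classical
  have : (nb A U v).card ≤ (selIn U fun u => A u v).card + (selIn U fun u => A v u).card :=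
    (card_le_card fun u hu => mem_union.2 ((mem_selIn.1 hu).2.imp
      (fun t => mem_selIn.2 ⟨(mem_selIn.1 hu).1, t⟩)
      fun t => mem_selIn.2 ⟨(mem_selIn.1 hu).1, t⟩)).trans (card_union_le _ _)
  exact_mod_cast this

/-- half of the vertices of a large set have small degree -/
theorem sparse (A : V → V → Prop) (X : Finset V) {a b h : ℕ} {B1 B2 e x : ℝ} (he : 0 < e)
    (hB : 0 ≤ B2) (h1 : ∀ W, ¬ HasT A (a + 1) W → (W.card : ℝ) ≤ B1)
    (h2 : ∀ W, ¬ HasT A b W → (W.card : ℝ) ≤ B2) (hX : ¬ HasT A (a + 1 + b) X) (hx : 0 < x)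
    (hh : a + 1 ≤ h) (c1 : x ^ (a + 1) * B2 ^ h ≤ x ^ h) (c2 : 4 * (B1 + 1) ≤ x * e ^ h)
    (c3 : x ≤ X.card) : ∃ Y ⊆ X, (X.card : ℝ) ≤ 2 * Y.card ∧
      ∀ v ∈ Y, ((nb A Y v).card : ℝ) ≤ 2 * (e * X.card) := by
  have X0 : (0 : ℝ) < X.card := hx.trans_le c3
  have key : ∀ o : ℝ, o * (e * X.card) ^ h ≤ B1 * (X.card : ℝ) ^ h + (X.card : ℝ) ^ (a + 1) * B2 ^ h →
      4 * o ≤ X.card := fun o ho => by
    obtain ⟨g, rfl⟩ := Nat.exists_eq_add_of_le hh
    have u : B2 ^ (a + 1 + g) ≤ x ^ g := by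
      rw [pow_add x (a + 1) g] at c1
      exact le_of_mul_le_mul_left c1 (by positivity)
    have u2 : (X.card : ℝ) ^ (a + 1) * B2 ^ (a + 1 + g) ≤ (X.card : ℝ) ^ (a + 1 + g) := by
      rw [pow_add (X.card : ℝ) (a + 1) g]
      exact mul_le_mul_of_nonneg_left (u.trans (pow_le_pow_left₀ hx.le c3 _)) (by positivity)
    have p : 0 < (X.card : ℝ) ^ (a + 1 + g) := by positivity
    have q : 0 < e ^ (a + 1 + g) := by positivity
    rw [mul_pow, ← mul_assoc] at ho
    have u3 : o * e ^ (a + 1 + g) ≤ B1 + 1 := le_of_mul_le_mul_right (by linarith) p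
    have u4 := mul_le_mul_of_nonneg_right c3 q.le
    exact le_of_mul_le_mul_right (by linarith) q
  have o1 := key _ (drc A X h (D := e * X.card) (by positivity) hB h1 h2 hX)
  have o2 := key _ (drc (fun u v => A v u) X h (D := e * X.card) (by positivity) hB
    (fun W k => h1 W fun t => k (hasT_flip t)) (fun W k => h2 W fun t => k (hasT_flip t))
    fun t => hX (hasT_flip t))
  refine ⟨X \ ((selIn X fun u => e * X.card ≤ (selIn X fun w => A u w).card) ∪
    selIn X fun u => e * X.card ≤ (selIn X fun w => A w u).card), sdiff_subset, ?_, fun v hv => ?_⟩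
  · have c := (Nat.cast_le (α := ℝ)).2 ((card_le_card_sdiff_add_card (s := X)
      (t := (selIn X fun u => e * X.card ≤ (selIn X fun w => A u w).card) ∪
        selIn X fun u => e * X.card ≤ (selIn X fun w => A w u).card)).trans
      (Nat.add_le_add_left (card_union_le _ _) _))
    push_cast at c
    linarith
  · obtain ⟨v1, v2⟩ := Finset.mem_sdiff.1 hv
    simp only [mem_union, mem_selIn, v1, true_and, not_or, not_le] at v2
    refine le_trans (Nat.cast_le.2 (card_le_card fun w hw => mem_selIn.2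
      ⟨sdiff_subset (mem_selIn.1 hw).1, (mem_selIn.1 hw).2⟩)) ((nb_le A X v).trans ?_)
    linarith [v2.1, v2.2]

/-- one step of the induction on the order of the tournament -/
theorem ustep (A : V → V → Prop) (hA : ∀ v, ¬ A v v) {n : ℝ} (hn : ∀ S, Ind A S → (S.card : ℝ) ≤ n)
    {m a b h k : ℕ} {B1 B2 F e x : ℝ} (hm : a + 1 + b = m + 1) (he : 0 < e) (hB : 0 ≤ B2)
    (h1 : ∀ W, ¬ HasT A (a + 1) W → (W.card : ℝ) ≤ B1)
    (h2 : ∀ W, ¬ HasT A b W → (W.card : ℝ) ≤ B2) (h3 : ∀ W, ¬ HasT A m W → (W.card : ℝ) ≤ F)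
    (hx : 1 ≤ x) (hh : a + 1 ≤ h) (c1 : x ^ (a + 1) * B2 ^ h ≤ x ^ h)
    (c2 : 4 * (B1 + 1) ≤ x * e ^ h) (hk : 1 ≤ k) (c3 : 32 * k * e ≤ 1)
    (c4 : k * Real.exp (350 * k) * x ≤ 2 * F) (U : Finset V) (hU : ¬ HasT A (m + 1) U) :
    k * (U.card : ℝ) ≤ 16 * F * n := by
  have x0 : 0 < x := by linarith
  have k1 : (1 : ℝ) ≤ k := by exact_mod_cast hk
  have F0 : 0 ≤ 2 * F := le_trans (by positivity) c4
  obtain ⟨S, s1, s2⟩ := hc A hA U (x := x⁻¹) (d := 2 * F) (b := k / 4) (inv_pos.2 x0)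
    (fun v hv => (nb_le A U v).trans (by
      linarith [h3 _ fun t => hU (hasT_cons hv (fun w hw => mem_selIn.1 hw) t),
        h3 _ fun t => hU (hasT_snoc hv (fun w hw => mem_selIn.1 hw) t)]))
    fun X hX => occ A hA X (inv_pos.2 x0) (inv_le_one_of_one_le₀ hx) hk
      (by rwa [← div_eq_mul_inv, le_div_iff₀ x0]) fun c => by
        have c5 : x ≤ X.card := by
          rw [inv_mul_eq_div, le_div_iff₀ x0] at c
          nlinarith
        obtain ⟨Y, y1, y2, y3⟩ := sparse A X he hB h1 h2 (fun t => hU (hm ▸ hasT_sub hX t)) x0 hh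
          c1 c2 c5
        refine ⟨Y, y1, y2, fun v hv => ?_⟩
        have := mul_le_mul_of_nonneg_left (y3 v hv) (by positivity : (0 : ℝ) ≤ 16 * k)
        nlinarith
  nlinarith [mul_le_mul_of_nonneg_left (hn S s1) F0]

end Pool.Agent.Work.MP_e10cd8_co.Uni
end

-- merged part: Pool.Agent.Work.MP_e10cd8_co.Uni.UMain
section
/-! The upper bound `C ^ m n ^ (m - 1) / (m ! (log n) ^ (m - 2))` for growing `m`. -/

namespace Pool.Agent.Work.MP_e10cd8_co.Uni
open Finset Pool.Agent.Work.MP_e10cd8_co.Four Pool.Agent.Work.MP_e10cd8_co.Upper Real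

/-- the bound for tournaments of order `j` -/
noncomputable def GB (C n : ℝ) (j : ℕ) : ℝ := (C * n / log n) ^ j / j.factorial * (log n ^ 2 / n)

theorem GB_le {C n M : ℝ} (hC0 : 0 ≤ C) (hC : C ≤ log n) (h6 : 6 ≤ log n) (hn : 0 < n) (hM : 0 < M)
    (j : ℕ) : GB C n j ≤ exp (j * log (n / M) + M) := by
  have l0 : 0 < log n := by linarith
  have a : log n ^ 2 / n ≤ 1 := by
    have := Real.pow_div_factorial_le_exp (log n) l0.le 3
    rw [exp_log hn] at this
    rw [div_le_one hn]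
    norm_num [Nat.factorial] at this
    nlinarith
  have b : C * n / log n ≤ n / M * M := by
    rw [div_mul_cancel₀ _ hM.ne', div_le_iff₀ l0]
    nlinarith
  have c := Real.pow_div_factorial_le_exp M hM.le j
  rw [exp_add, exp_nat_mul, exp_log (by positivity)]
  calc GB C n j ≤ (n / M * M) ^ j / j.factorial * 1 := by unfold GB; gcongr
    _ = (n / M) ^ j * (M ^ j / j.factorial) := by rw [mul_pow]; ring
    _ ≤ _ := by gcongr

theorem le_GB {C n M : ℝ} (hC : 1 ≤ C) (h1 : 1 ≤ log n) (hn : 0 < n) {j : ℕ} (hM : (j : ℝ) + 1 = M) :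
    exp (j * log (n / M) - j * log (log n) - log n) ≤ GB C n j := by
  have M0 : 0 < M := by rw [← hM]; positivity
  have a : (j.factorial : ℝ) ≤ M ^ j := by
    have : (j.factorial : ℝ) ≤ j ^ j := by exact_mod_cast Nat.factorial_le_pow j
    exact this.trans (pow_le_pow_left₀ (by positivity) (by linarith) _)
  rw [exp_sub, exp_sub, exp_nat_mul, exp_nat_mul, exp_log (by positivity), exp_log hn,
    exp_log (by linarith)]
  calc (n / M) ^ j / log n ^ j / n = (1 * n / log n) ^ j / M ^ j * (1 ^ 2 / n) := by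
        rw [div_pow, div_pow, one_mul]; ring
    _ ≤ _ := by unfold GB; gcongr

theorem num1 {t L M a h : ℝ} (t0 : 0 < t) (t1 : t ≤ 1 / 8) (L4 : 0 < L) (L3 : 25600 ≤ t ^ 2 * L)
    (M0 : 0 ≤ M) (hm : 12 ≤ t ^ 2 * M) (a2 : a ≤ t * M + 1) (h1 : (1 + 2 * t) * M ≤ h) :
    a * ((1 - t ^ 2) * M * L) + h * ((1 - t) * M * L + M) ≤ h * ((1 - t ^ 2) * M * L) := by
  have tl : 0 ≤ t * L := by positivity
  have ml : 0 ≤ M * L := by positivity
  have v1 : 0 ≤ t ^ 2 * (M * L) := by positivity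
  have u1 : 0 ≤ (t - t ^ 2) * L - 1 := by linarith [mul_le_mul_of_nonneg_right t1 tl]
  have u2 : (t * M + 1) * L ≤ h * ((t - t ^ 2) * L - 1) := by
    refine le_trans ?_ (mul_le_mul_of_nonneg_right h1 u1)
    linarith [mul_le_mul_of_nonneg_right hm L4.le, mul_le_mul_of_nonneg_right L3 M0,
      mul_le_mul_of_nonneg_right t1 v1, mul_le_mul_of_nonneg_right t1 M0]
  have t2 : t ^ 2 ≤ 1 := by nlinarith
  have u3 : a * ((1 - t ^ 2) * M * L) ≤ (t * M + 1) * (L * M) :=
    mul_le_mul a2 (by linarith) (by linarith [mul_le_mul_of_nonneg_right t2 ml]) (by positivity)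
  linarith [mul_le_mul_of_nonneg_right u2 M0]

theorem num2 {t L M h : ℝ} (t0 : 0 < t) (t1 : t ≤ 1 / 8) (L4 : 0 < L) (L3 : 25600 ≤ t ^ 2 * L)
    (M1 : 1 ≤ M) (m1 : 96 ≤ t * M) (h2 : h ≤ (1 + 2 * t) * M + 1) :
    7 + ((t * M + 1) * L + M) ≤ (1 - t ^ 2) * M * L + h * -((1 - 4 * t) * L) := by
  have tl : 0 ≤ t * L := by positivity
  have u3 : h * ((1 - 4 * t) * L) ≤ ((1 + 2 * t) * M + 1) * ((1 - 4 * t) * L) :=
    mul_le_mul_of_nonneg_right h2 (mul_nonneg (by linarith) L4.le)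
  linarith [mul_le_mul_of_nonneg_right m1 L4.le,
    mul_le_mul_of_nonneg_right L3 (zero_le_one.trans M1)]

theorem num3 {t L l a b : ℝ} (t0 : 0 < t) (t1 : t ≤ 1 / 8) (l0 : 0 ≤ l)
    (L1 : (1 / 2 + 4 * t) * l ≤ L) (hm2 : a ≤ (1 / 2 - 4 * t) * l) (hl2 : 8 * b ≤ t ^ 2 * l) :
    a + b ≤ (1 - 4 * t) * L := by
  have tl : 0 ≤ t * l := by positivity
  linarith [mul_le_mul_of_nonneg_left L1 (by linarith : 0 ≤ 1 - 4 * t),
    mul_le_mul_of_nonneg_right t1 tl]

variable {V : Type} [DecidableEq V]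

theorem big (A : V → V → Prop) (hA : ∀ v, ¬ A v v) {n : ℝ} (hn : ∀ S, Ind A S → (S.card : ℝ) ≤ n)
    {t C : ℝ} (t0 : 0 < t) (t1 : t ≤ 1 / 8) (hC : 51200 ≤ t ^ 2 * C) (hl : C ≤ log n)
    (hl2 : 8 * log (log n) ≤ t ^ 2 * log n) (n0 : 0 < n) {m : ℕ} (hm : 12 ≤ t ^ 2 * (m + 1))
    (hm2 : log (m + 1) ≤ (1 / 2 - 4 * t) * log n)
    (ih : ∀ j ≤ m, ∀ W, ¬ HasT A j W → (W.card : ℝ) ≤ GB C n j) (U : Finset V)
    (hU : ¬ HasT A (m + 1) U) : (U.card : ℝ) ≤ GB C n (m + 1) := by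
  set M : ℝ := m + 1 with hM
  have M1 : 1 ≤ M := by rw [hM]; linarith [Nat.cast_nonneg (α := ℝ) m]
  have M0 : 0 ≤ M := by linarith
  have t2 : t ^ 2 ≤ t / 8 := by nlinarith
  have t3 : 0 < t ^ 2 := by positivity
  have C0 : 0 < C := by nlinarith
  have C1 : 1 ≤ C := by nlinarith
  have l1 : 51200 ≤ t ^ 2 * log n := by nlinarith
  have l2 : 6 ≤ log n := by nlinarith
  set L := log (n / M) with hL
  have L0 : L = log n - log M := log_div n0.ne' (by linarith)
  have lM : 0 ≤ log M := log_nonneg M1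
  have L1 : (1 / 2 + 4 * t) * log n ≤ L := by linarith
  have L2 : log n ≤ 2 * L := by nlinarith
  have L3 : 25600 ≤ t ^ 2 * L := by nlinarith
  have L4 : 0 < L := by linarith
  have m1 : 96 ≤ t * M := by nlinarith
  obtain ⟨a, ha⟩ : ∃ a, ⌈t * M⌉₊ = a + 1 :=
    Nat.exists_eq_succ_of_ne_zero (Nat.ceil_pos.2 (by linarith)).ne'
  have a1 : t * M ≤ (a + 1 : ℕ) := ha ▸ Nat.le_ceil _
  have a2 : ((a + 1 : ℕ) : ℝ) ≤ t * M + 1 := ha ▸ (Nat.ceil_lt_add_one (by linarith)).le
  have a3 : a + 1 ≤ m := by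
    have : ((a + 1 : ℕ) : ℝ) ≤ m := by nlinarith
    exact_mod_cast this
  have b1 : ((m - a : ℕ) : ℝ) ≤ (1 - t) * M := by
    rw [Nat.cast_sub (by omega)]
    push_cast at a1
    linarith
  set h := ⌈(1 + 2 * t) * M⌉₊ with hh
  have h1 : (1 + 2 * t) * M ≤ h := Nat.le_ceil _
  have h2 : (h : ℝ) ≤ (1 + 2 * t) * M + 1 := (Nat.ceil_lt_add_one (by positivity)).le
  set k := ⌊t ^ 2 * L * M / 800⌋₊ with hk
  have z : 32 ≤ t ^ 2 * L * M / 800 := by
    linarith [mul_le_mul_of_nonneg_left M1 (by linarith : 0 ≤ t ^ 2 * L)]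
  have k1 : (k : ℝ) ≤ t ^ 2 * L * M / 800 := Nat.floor_le (by linarith)
  have k2 : t ^ 2 * L * M / 1600 ≤ k := by linarith [Nat.lt_floor_add_one (t ^ 2 * L * M / 800)]
  have k0 : (1 : ℝ) ≤ k := by linarith
  have ml : 0 ≤ M * L := by positivity
  have tl : 0 ≤ t * L := by positivity
  have gb : ∀ j : ℕ, GB C n j ≤ exp (j * L + M) := GB_le C0.le hl l2 n0 (by linarith)
  have u0 : exp (m * L - m * log (log n) - log n) ≤ GB C n m := le_GB C1 (by linarith) n0 hM.symm
  clear_value k h L M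
  clear hk hh hL ha
  have r := ustep A hA hn (m := m) (a := a) (b := m - a) (h := h) (k := k)
    (B1 := exp ((t * M + 1) * L + M)) (B2 := exp ((1 - t) * M * L + M)) (F := GB C n m)
    (e := exp (-((1 - 4 * t) * L))) (x := exp ((1 - t ^ 2) * M * L)) (by omega) (exp_pos _)
    (exp_pos _).le (fun W hW => (ih _ a3 W hW).trans ((gb _).trans
      (exp_le_exp.2 (by linarith [mul_le_mul_of_nonneg_right a2 L4.le]))))
    (fun W hW => (ih _ (by omega) W hW).trans ((gb _).trans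
      (exp_le_exp.2 (by linarith [mul_le_mul_of_nonneg_right b1 L4.le])))) (ih m le_rfl)
    (one_le_exp (mul_nonneg (mul_nonneg (by linarith) M0) L4.le))
    (by exact_mod_cast (by linarith : ((a + 1 : ℕ) : ℝ) ≤ h)) ?_ ?_
    (by exact_mod_cast k0) ?_ ?_ U hU
  · have F0 : 0 ≤ GB C n m := by unfold GB; positivity
    have e : GB C n (m + 1) = GB C n m * n * (C / (log n * M)) := by
      unfold GB
      rw [Nat.factorial_succ, pow_succ, hM]
      push_cast
      field_simp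
    rw [e]
    refine le_of_mul_le_mul_left (r.trans ?_) (by linarith)
    have : 16 ≤ k * (C / (log n * M)) := by
      rw [← mul_div_assoc, le_div_iff₀ (by positivity)]
      linarith [mul_le_mul_of_nonneg_right k2 C0.le, mul_le_mul_of_nonneg_right hC ml,
        mul_le_mul_of_nonneg_right L2 M0]
    linarith [mul_le_mul_of_nonneg_right this (mul_nonneg F0 n0.le)]
  · rw [← exp_nat_mul, ← exp_nat_mul, ← exp_nat_mul, ← exp_add, exp_le_exp]
    exact num1 t0 t1 L4 L3 M0 hm a2 h1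
  · rw [← exp_nat_mul, ← exp_add]
    have u1 : 1 ≤ exp ((t * M + 1) * L + M) := one_le_exp (by positivity)
    have u2 : 8 ≤ exp 7 := by linarith [add_one_le_exp 7]
    have u4 := exp_le_exp.2 (num2 t0 t1 L4 L3 M1 m1 h2)
    rw [exp_add 7] at u4
    linarith [mul_le_mul_of_nonneg_right u2 (zero_le_one.trans u1)]
  · rw [exp_neg, ← div_eq_mul_inv, div_le_one (exp_pos _)]
    have u2 := exp_le_exp.2 (num3 t0 t1 (by linarith) L1 hm2 hl2)
    rw [exp_add, exp_log (by linarith), exp_log (by linarith)] at u2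
    have u3 : t ^ 2 * (M * L) ≤ 1 * (M * log n) :=
      mul_le_mul (by linarith) (mul_le_mul_of_nonneg_left (by linarith) M0) ml zero_le_one
    linarith
  · have u2 : (k : ℝ) ≤ exp k := by linarith [add_one_le_exp (k : ℝ)]
    have u3 : exp (k + 350 * k + (1 - t ^ 2) * M * L) ≤
        exp (m * L - m * log (log n) - log n) := by
      rw [exp_le_exp]
      have v0 : 0 ≤ log (log n) := log_nonneg (by linarith)
      have v1 : (m : ℝ) = M - 1 := by rw [hM]; ring
      have v2 : 4 * log (log n) ≤ t ^ 2 * L := by linarith [mul_le_mul_of_nonneg_left L2 t3.le]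
      rw [v1]
      linarith [mul_le_mul_of_nonneg_right hm L4.le, mul_le_mul_of_nonneg_right v2 M0]
    rw [exp_add, exp_add] at u3
    have u4 : k * exp (350 * k) * exp ((1 - t ^ 2) * M * L) ≤
        exp k * exp (350 * k) * exp ((1 - t ^ 2) * M * L) := by gcongr
    linarith [exp_pos (m * L - m * log (log n) - log n)]

theorem crude (A : V → V → Prop) (hA : ∀ v, ¬ A v v) {n : ℕ} (hn : ∀ S, Ind A S → (S.card : ℝ) ≤ n)
    (h : 32 ^ 8 ≤ n) (j : ℕ) (U : Finset V) (hU : ¬ HasT A (j + 2) U) :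
    (U.card : ℝ) ≤ n * (14336 * n / log n) ^ j := by
  have n1 : n ≠ 0 := by omega
  have n2 : (1 : ℝ) < n := by exact_mod_cast (by omega : 1 < n)
  have hl : 8 ≤ Nat.log 32 n := Nat.le_log_of_pow_le (by norm_num) h
  have l8 : (8 : ℝ) ≤ Nat.log 32 n := by exact_mod_cast hl
  refine ((iter A hA hn hl (by exact_mod_cast Nat.pow_log_le_self 32 n1) j).2 U hU).trans ?_
  have L0 := log_pos n2
  have L1 : log n ≤ 7 * Nat.log 32 n := by
    have t : (n : ℝ) ≤ 2 ^ (5 * (Nat.log 32 n + 1)) := by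
      rw [pow_mul]
      exact_mod_cast (Nat.lt_pow_succ_log_self (by norm_num : 1 < 32) n).le
    have := log_le_log (by linarith) t
    rw [log_pow] at this
    push_cast at this
    nlinarith [log_two_lt_d9]
  have r : 2048 * (n : ℝ) / Nat.log 32 n ≤ 14336 * n / log n := by
    rw [div_le_div_iff₀ (by linarith) L0]
    nlinarith
  gcongr

theorem all_m (A : V → V → Prop) (hA : ∀ v, ¬ A v v) {n : ℕ} (hn : ∀ S, Ind A S → (S.card : ℝ) ≤ n)
    {t C : ℝ} (t0 : 0 < t) (t1 : t ≤ 1 / 8) (hC : 172032 ≤ t ^ 2 * C) (hl : C ≤ log n)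
    (hl2 : 8 * log (log n) ≤ t ^ 2 * log n) (h : 32 ^ 8 ≤ n) (m : ℕ) :
    log m ≤ (1 / 2 - 4 * t) * log n → ∀ U, ¬ HasT A m U → (U.card : ℝ) ≤ GB C n m := by
  have n0 : (0 : ℝ) < n := by exact_mod_cast (by omega : 0 < n)
  have t3 : 0 < t ^ 2 := by positivity
  have C0 : 0 < C := by nlinarith
  have l0 : 0 < log n := by linarith
  induction m using Nat.strong_induction_on with
  | _ m ih =>
  intro hm U hU
  rcases m with _ | m
  · exact absurd ⟨Fin.elim0, fun i => i.elim0, fun i => i.elim0⟩ hU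
  by_cases k : 12 ≤ t ^ 2 * (m + 1)
  · refine big A hA hn t0 t1 (by linarith) hl hl2 n0 k (by exact_mod_cast hm)
      (fun j hj => ih j (by omega) ?_) U hU
    rcases j with _ | j
    · rw [Nat.cast_zero, log_zero]
      exact mul_nonneg (by linarith) l0.le
    · exact (log_le_log (by positivity) (Nat.cast_le.2 (by omega))).trans hm
  rcases m with _ | j
  · rcases U.eq_empty_or_nonempty with rfl | ⟨v, hv⟩
    · rw [card_empty, Nat.cast_zero]
      unfold GB
      positivity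
    · exact absurd ⟨fun _ => v, fun _ => hv, fun i j h => absurd h (by omega)⟩ hU
  refine (crude A hA hn h j U hU).trans ?_
  have a : 14336 * ((j + 2 : ℕ) : ℝ) ≤ C := by
    push_cast at k ⊢
    exact le_of_mul_le_mul_left (by linarith) t3
  have b : ((j + 2).factorial : ℝ) ≤ ((j + 2 : ℕ) : ℝ) ^ (j + 2) := by
    exact_mod_cast Nat.factorial_le_pow (j + 2)
  have c : 14336 ^ j * ((j + 2).factorial : ℝ) ≤ C ^ (j + 2) := by
    refine le_trans ?_ (pow_le_pow_left₀ (by positivity) a _)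
    rw [mul_pow]
    exact mul_le_mul (pow_le_pow_right₀ (by norm_num) (by omega)) b (by positivity) (by positivity)
  have e : GB C n (j + 1 + 1) = C ^ (j + 2) / (j + 2).factorial * (n * (n / log n) ^ j) := by
    unfold GB
    rw [mul_div_assoc, mul_pow, pow_succ (n / log n), pow_succ (n / log n)]
    field_simp
  rw [e, mul_div_assoc, mul_pow, mul_left_comm]
  exact mul_le_mul_of_nonneg_right ((le_div_iff₀ (by positivity)).2 c) (by positivity)

/-- the upper bound, uniform for `m ≤ n ^ (1 / 2 - δ)` -/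
theorem upperU {δ : ℝ} (hδ : 0 < δ) : ∃ C : ℝ, 1 ≤ C ∧ ∃ n₀ : ℕ, ∀ n j N : ℕ, n₀ ≤ n →
    ((j + 2 : ℕ) : ℝ) ≤ (n : ℝ) ^ (1 / 2 - δ) →
    C ^ (j + 2) * (n : ℝ) ^ (j + 1) / ((j + 2).factorial * log n ^ j) < N →
      ∀ G : Digraph (Fin N), (∀ v, ¬ G.Adj v v) →
      (∃ S : Finset (Fin N), S.card = n ∧ ∀ u ∈ S, ∀ v ∈ S, ¬ G.Adj u v) ∨
      ∃ f : Fin (j + 2) → Fin N, Function.Injective f ∧ ∀ i j, i < j → G.Adj (f i) (f j) := by
  obtain ⟨t, t0, t1, t2⟩ : ∃ t : ℝ, 0 < t ∧ t ≤ 1 / 8 ∧ 4 * t ≤ δ :=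
    ⟨min (1 / 8) (δ / 4), by positivity, min_le_left _ _, by linarith [min_le_right (1 / 8) (δ / 4)]⟩
  have t3 : 0 < t ^ 2 := by positivity
  have T := tendsto_log_atTop.comp (tendsto_natCast_atTop_atTop (R := ℝ))
  obtain ⟨n₀, h⟩ := Filter.eventually_atTop.1 (((T.eventually_ge_atTop (172032 / t ^ 2)).and
    (T.eventually_ge_atTop (256 / t ^ 2 / t ^ 2))).and (Filter.eventually_ge_atTop (32 ^ 8)))
  refine ⟨172032 / t ^ 2, (one_le_div t3).2 (by nlinarith), n₀, fun n j N hn hj hN G hG => ?_⟩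
  obtain ⟨⟨h1, h2⟩, h3⟩ := h n hn
  simp only [Function.comp] at h1 h2
  have n0 : (0 : ℝ) < n := by exact_mod_cast (by omega : 0 < n)
  have l0 : 0 < log n := lt_of_lt_of_le (by positivity) h1
  by_contra k
  rw [not_or] at k
  have a := all_m G.Adj hG (n := n) (fun S hS => ?_) t0 t1 (C := 172032 / t ^ 2)
    (by rw [mul_div_cancel₀ _ t3.ne']) h1 ?_ h3 (j + 2) ?_ univ fun ⟨f, _, hf⟩ => k.2 ⟨f, ?_, hf⟩
  · rw [card_univ, Fintype.card_fin] at a
    refine absurd (a.trans (le_of_eq ?_)) (not_le.2 hN)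
    unfold GB
    rw [mul_div_assoc, mul_pow, div_pow (n : ℝ)]
    field_simp
    ring
  · by_contra c
    obtain ⟨S', s1, s2⟩ := exists_subset_card_eq (s := S) (n := n)
      (by exact_mod_cast (not_le.1 c).le)
    exact k.1 ⟨S', s2, fun u hu v hv => hS u (s1 hu) v (s1 hv)⟩
  · have e : log (log n) = log (t ^ 2 * log n / 16) + log (16 / t ^ 2) := by
      rw [← log_mul (by positivity) (by positivity)]
      congr 1
      field_simp
    have u1 := log_le_sub_one_of_pos (show 0 < t ^ 2 * log n / 16 by positivity)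
    have u2 := log_le_sub_one_of_pos (show 0 < 16 / t ^ 2 by positivity)
    rw [div_le_iff₀ t3] at h2
    have u3 : 256 / t ^ 2 = 16 * (16 / t ^ 2) := by ring
    linarith
  · have := log_le_log (by positivity) hj
    rw [log_rpow n0] at this
    exact this.trans (mul_le_mul_of_nonneg_right (by linarith) l0.le)
  · intro a b e
    by_contra c
    rcases lt_or_gt_of_ne c with t | t
    · exact hG _ (e ▸ hf a b t)
    · exact hG _ (e ▸ hf b a t)

end Pool.Agent.Work.MP_e10cd8_co.Uni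
end

-- merged part: Pool.Agent.Work.MP_e10cd8_co.Up.Free
section
/-! The free energy and the greedy choice of an independent set (paper 2). -/

namespace Pool.Agent.Work.MP_e10cd8_co.Up
open Finset

variable {O : Type} [Fintype O]

/-- the free energy -/
noncomputable def free_F (W : O → O → ℝ) (β : ℝ) (ν : O → ℝ) : ℝ :=
  ∑ x, ν x * Real.log (Fintype.card O * ν x) + β * Q W ν ν

/-- the gradient of the free energy (up to a constant) -/
noncomputable def free_l (W : O → O → ℝ) (β : ℝ) (ν : O → ℝ) (x : O) : ℝ :=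
  Real.log (Fintype.card O * ν x) + 2 * β * ∑ y, ν y * W x y

theorem free_term {N a e : ℝ} (hN : 0 < N) (ha : 0 ≤ a) (hae : 0 ≤ a + e) (h0 : a = 0 → e = 0) :
    (a + e) * Real.log (N * (a + e)) ≤
      a * Real.log (N * a) + e * Real.log (N * a) + e + e ^ 2 / a := by
  rcases ha.eq_or_lt with rfl | ha
  · simp [h0 rfl]
  have k : (a + e) * Real.log (N * (a + e)) ≤ (a + e) * (Real.log (N * a) + e / a) := by
    rcases hae.eq_or_lt with h | h
    · rw [← h]; simp
    · refine mul_le_mul_of_nonneg_left ?_ h.le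
      have e1 : N * (a + e) = N * a * ((a + e) / a) := by field_simp
      have e2 := Real.log_le_sub_one_of_pos (div_pos h ha)
      have e3 : (a + e) / a - 1 = e / a := by field_simp; ring
      rw [e1, Real.log_mul (mul_pos hN ha).ne' (div_pos h ha).ne']
      linarith
  refine k.trans (le_of_eq ?_)
  field_simp
  ring

theorem free_Q {W : O → O → ℝ} (hW : Gr W) (ν δ : O → ℝ) :
    Q W (fun x => ν x + δ x) (fun x => ν x + δ x) =
      Q W ν ν + 2 * ∑ x, δ x * ∑ y, ν y * W x y + Q W δ δ := by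
  have a : Q W δ ν = ∑ x, δ x * ∑ y, ν y * W x y := by
    simp only [Q, mul_sum, mul_assoc]
  have b : Q W ν δ = Q W δ ν := by
    unfold Q
    rw [sum_comm]
    exact sum_congr rfl fun x _ => sum_congr rfl fun y _ => by rw [hW.2.1 y x]; ring
  rw [Q_add_left, Q_add_right, Q_add_right, b, a]
  ring

theorem free_breg {W : O → O → ℝ} (hW : Gr W) (β : ℝ) (hN : 0 < Fintype.card O) {ν δ : O → ℝ}
    (hν : ∀ x, 0 ≤ ν x) (hδ : ∀ x, 0 ≤ ν x + δ x) (h0 : ∀ x, ν x = 0 → δ x = 0)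
    (hs : ∑ x, δ x = 0) :
    free_F W β (fun x => ν x + δ x) ≤
      free_F W β ν + ∑ x, δ x * free_l W β ν x + (∑ x, δ x ^ 2 / ν x + β * Q W δ δ) := by
  have hN' : (0 : ℝ) < Fintype.card O := by exact_mod_cast hN
  have k := sum_le_sum fun x (_ : x ∈ (univ : Finset O)) => free_term hN' (hν x) (hδ x) (h0 x)
  simp only [sum_add_distrib, hs] at k
  have e : ∑ x, δ x * free_l W β ν x = ∑ x, δ x * Real.log (Fintype.card O * ν x) +
      2 * β * ∑ x, δ x * ∑ y, ν y * W x y := by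
    rw [mul_sum, ← sum_add_distrib]
    exact sum_congr rfl fun x _ => by unfold free_l; ring
  unfold free_F
  rw [free_Q hW, e]
  linarith

theorem free_ent (hN : 0 < Fintype.card O) {ν : O → ℝ} (hν : Pb ν) :
    0 ≤ ∑ x, ν x * Real.log (Fintype.card O * ν x) := by
  have hN' : (0 : ℝ) < Fintype.card O := by exact_mod_cast hN
  have k : ∀ x ∈ (univ : Finset O),
      ν x - (Fintype.card O : ℝ)⁻¹ ≤ ν x * Real.log (Fintype.card O * ν x) := fun x _ => by
    rcases (hν.1 x).eq_or_lt with h | h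
    · rw [← h]; simp
    · have a := Real.one_sub_inv_le_log_of_pos (mul_pos hN' h)
      have b := mul_le_mul_of_nonneg_left a h.le
      refine le_trans (le_of_eq ?_) b
      field_simp
  refine le_trans (le_of_eq ?_) (sum_le_sum k)
  rw [sum_sub_distrib, hν.2, sum_const, card_univ, nsmul_eq_mul, mul_inv_cancel₀ hN'.ne', sub_self]

theorem free_Q0 {W : O → O → ℝ} (hW : Gr W) {ν : O → ℝ} (hν : ∀ x, 0 ≤ ν x) : 0 ≤ Q W ν ν :=
  sum_nonneg fun x _ => sum_nonneg fun y _ =>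
    mul_nonneg (mul_nonneg (hν x) (hν y)) (hW.nonneg x y)

/-- probability vectors that vanish off `Z` -/
def free_K (Z : Finset O) : Set (O → ℝ) := {ν | Pb ν ∧ ∀ x, x ∉ Z → ν x = 0}

theorem free_min (W : O → O → ℝ) (β : ℝ) (hN : 0 < Fintype.card O) (Z : Finset O)
    (h : (free_K Z).Nonempty) :
    ∃ ν ∈ free_K Z, ∀ μ ∈ free_K Z, free_F W β ν ≤ free_F W β μ := by
  have hN' : (0 : ℝ) < Fintype.card O := by exact_mod_cast hN
  have hc : IsCompact (free_K Z) := by
    have e : free_K Z = stdSimplex ℝ O ∩ ⋂ x, ⋂ (_ : x ∉ Z), {ν : O → ℝ | ν x = 0} := by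
      ext ν
      simp only [free_K, Pb, stdSimplex, Set.mem_ofPred_eq, Set.mem_inter_iff, Set.mem_iInter]
    rw [e]
    exact (isCompact_stdSimplex ℝ O).inter_right (isClosed_iInter fun x => isClosed_iInter fun _ =>
      isClosed_eq (continuous_apply x) continuous_const)
  have hF : Continuous (free_F W β) := by
    unfold free_F Q
    refine Continuous.add (continuous_finsetSum _ fun x _ => ?_) (by fun_prop)
    have e : (fun ν : O → ℝ => ν x * Real.log (Fintype.card O * ν x)) = fun ν : O → ℝ =>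
        (Fintype.card O : ℝ)⁻¹ * (Fintype.card O * ν x * Real.log (Fintype.card O * ν x)) := by
      funext ν
      field_simp
    rw [e]
    exact continuous_const.mul (Real.continuous_mul_log.comp
      (continuous_const.mul (continuous_apply x)))
  obtain ⟨ν, h1, h2⟩ := hc.exists_isMinOn h hF.continuousOn
  exact ⟨ν, h1, fun μ hμ => h2 hμ⟩

theorem free_lin {W : O → O → ℝ} (hW : Gr W) {β : ℝ} (hN : 0 < Fintype.card O) {Z : Finset O}
    {ν δ : O → ℝ} (hν : ν ∈ free_K Z) (hm : ∀ μ ∈ free_K Z, free_F W β ν ≤ free_F W β μ)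
    (hs : ∑ x, δ x = 0) (hδ : ∀ x, |δ x| ≤ 4 * ν x) : ∑ x, δ x * free_l W β ν x ≤ 0 := by
  set A := ∑ x, δ x * free_l W β ν x with hA
  set B := ∑ x, δ x ^ 2 / ν x + β * Q W δ δ with hB
  have h0 : ∀ x, ν x = 0 → δ x = 0 := fun x h => by
    have := hδ x
    rw [h, mul_zero] at this
    exact abs_nonpos_iff.1 this
  have k : ∀ t : ℝ, 0 < t → t ≤ 1 / 4 → A ≤ t * B := fun t ht ht' => by
    have p : ∀ x, 0 ≤ ν x + -t * δ x := fun x => by
      have a := (le_abs_self _).trans (hδ x)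
      have b := hν.1.1 x
      nlinarith
    have s : ∑ x, -t * δ x = 0 := by rw [← mul_sum, hs, mul_zero]
    have a := hm (fun x => ν x + -t * δ x) ⟨⟨p, by rw [sum_add_distrib, s, hν.1.2, add_zero]⟩,
      fun x hx => by simp [hν.2 x hx, h0 x (hν.2 x hx)]⟩
    have b := free_breg hW β hN hν.1.1 p (fun x h => by rw [h0 x h, mul_zero]) s
    have e1 : ∑ x, -t * δ x * free_l W β ν x = -t * A := by
      rw [hA, mul_sum]
      exact sum_congr rfl fun x _ => by ring
    have e2 : ∑ x, (-t * δ x) ^ 2 / ν x = t ^ 2 * ∑ x, δ x ^ 2 / ν x := by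
      rw [mul_sum]
      exact sum_congr rfl fun x _ => by ring
    rw [e1, e2, Q_mul] at b
    have c : t * A ≤ t * (t * B) := by
      rw [hB]
      nlinarith
    exact le_of_mul_le_mul_left c ht
  by_contra hA0
  push Not at hA0
  have hB0 : 0 < B := by
    have := k (1 / 4) (by norm_num) le_rfl
    linarith
  have a := k (min (1 / 4) (A / (2 * B))) (lt_min (by norm_num) (by positivity)) (min_le_left _ _)
  have b : min (1 / 4) (A / (2 * B)) * B ≤ A / (2 * B) * B :=
    mul_le_mul_of_nonneg_right (min_le_right _ _) hB0.le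
  have c : A / (2 * B) * B = A / 2 := by field_simp
  linarith

theorem free_sup {W : O → O → ℝ} (hW : Gr W) {β Φ : ℝ} (hβ : 0 ≤ β) (hN : 0 < Fintype.card O)
    {Z : Finset O} {ν : O → ℝ} (hν : ν ∈ free_K Z)
    (hm : ∀ μ ∈ free_K Z, free_F W β ν ≤ free_F W β μ) (hΦ : free_F W β ν ≤ Φ) (x : O) :
    Fintype.card O * ν x ≤ Real.exp (2 * Φ) := by
  classical
  have hN' : (0 : ℝ) < Fintype.card O := by exact_mod_cast hN
  rcases (hν.1.1 x).eq_or_lt with h | h
  · rw [← h, mul_zero]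
    exact (Real.exp_pos _).le
  have h1 : ν x ≤ 1 := hν.1.2 ▸ single_le_sum (fun y _ => hν.1.1 y) (mem_univ x)
  have a := free_lin hW hN (δ := fun y => ν x * ((if y = x then 1 else 0) - ν y)) hν hm
    (by rw [← mul_sum, sum_sub_distrib, hν.1.2]; simp) fun y => by
      have b := hν.1.1 y
      rw [abs_le]
      by_cases e : y = x
      · subst e
        simp only [if_true]
        constructor <;> nlinarith
      · simp only [if_neg e]
        constructor <;> nlinarith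
  have e1 : ∑ y, ν x * ((if y = x then 1 else 0) - ν y) * free_l W β ν y =
      ν x * (free_l W β ν x - ∑ y, ν y * free_l W β ν y) := by
    simp only [mul_assoc, ← mul_sum, sub_mul, sum_sub_distrib, ite_mul, one_mul, zero_mul,
      sum_ite_eq', mem_univ, if_true]
  have e2 : ∑ y, ν y * free_l W β ν y =
      ∑ y, ν y * Real.log (Fintype.card O * ν y) + 2 * (β * Q W ν ν) := by
    unfold free_l Q
    simp only [mul_add, sum_add_distrib, mul_sum]
    congr 1
    exact sum_congr rfl fun y _ => sum_congr rfl fun z _ => by ring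
  rw [e1] at a
  have b : free_l W β ν x ≤ ∑ y, ν y * free_l W β ν y := by
    have := nonpos_of_mul_nonpos_right a h
    linarith
  have c := free_ent hN hν.1
  have d : 0 ≤ 2 * β * ∑ y, ν y * W x y :=
    mul_nonneg (by positivity) (sum_nonneg fun y _ => mul_nonneg (hν.1.1 y) (hW.nonneg x y))
  rw [e2] at b
  unfold free_l at b
  unfold free_F at hΦ
  rw [← Real.log_le_iff_le_exp (mul_pos hN' h)]
  linarith

theorem free_ind {W : O → O → ℝ} {β Φ c : ℝ} (hW : Gr W) (hβ : 0 ≤ β) (hc : 0 ≤ c)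
    (hN : 0 < Fintype.card O)
    (hm : ∀ ν, Pb ν → (∀ x, Fintype.card O * ν x ≤ Real.exp (2 * Φ)) → β * Q W ν ν ≤ Φ →
      ∃ v μ, 0 < ν v ∧ Mv W β c ν v μ) (j : ℕ) :
    ∀ (Z : Finset O) (φ : ℝ), (∃ ν ∈ free_K Z, free_F W β ν ≤ φ) → φ + j * c ≤ Φ →
      ∃ S : Finset O, S ⊆ Z ∧ S.card = j + 1 ∧ ∀ x ∈ S, ∀ y ∈ S, W x y = 1 → x = y := by
  classical
  induction j with
  | zero =>
    rintro Z φ ⟨ν, hν, -⟩ -
    obtain ⟨v, -, hv⟩ := exists_ne_zero_of_sum_ne_zero (hν.1.2.trans_ne one_ne_zero)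
    refine ⟨{v}, singleton_subset_iff.2 (by_contra fun h => hv (hν.2 v h)), card_singleton v, ?_⟩
    intro x hx y hy _
    rw [mem_singleton.1 hx, mem_singleton.1 hy]
  | succ j ih =>
    rintro Z φ ⟨ν0, hν0, hφ0⟩ hφ
    obtain ⟨ν, hν, hmin⟩ := free_min W β hN Z ⟨ν0, hν0⟩
    have h1 : free_F W β ν ≤ φ := (hmin ν0 hν0).trans hφ0
    push_cast at hφ
    have hj : 0 ≤ (j : ℝ) * c := by positivity
    have h2 : free_F W β ν ≤ Φ := by linarith
    obtain ⟨v, μ, hv, m1, m2, m3, m4⟩ := hm ν hν.1 (free_sup hW hβ hN hν hmin h2) (by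
      have := free_ent hN hν.1
      unfold free_F at h2
      linarith)
    have hs : ∑ x, (μ x - ν x) = 0 := by rw [sum_sub_distrib, m2, hν.1.2, sub_self]
    have h0 : ∀ x, ν x = 0 → μ x = 0 := fun x h =>
      le_antisymm (by simpa [h] using (m1 x).2) (m1 x).1
    have a := free_breg hW β hN (δ := fun x => μ x - ν x) hν.1.1
      (fun x => by simpa using (m1 x).1) (fun x h => by rw [h0 x h, h, sub_self]) hs
    have b := free_lin hW hN (δ := fun x => μ x - ν x) hν hmin hs fun x => by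
      have p := m1 x
      have q := hν.1.1 x
      rw [abs_le]
      constructor <;> linarith [p.1, p.2]
    have e : (fun x => ν x + (μ x - ν x)) = μ := funext fun x => by ring
    rw [e] at a
    obtain ⟨S, s1, s2, s3⟩ := ih (Z.filter fun x => W v x ≠ 1) (φ + c)
      ⟨μ, ⟨⟨fun x => (m1 x).1, m2⟩, fun x hx => by
        by_cases h : x ∈ Z
        · exact m3 x (by_contra fun h' => hx (mem_filter.2 ⟨h, h'⟩))
        · exact h0 x (hν.2 x h)⟩, by linarith⟩ (by linarith)
    have hvS : v ∉ S := fun h => (mem_filter.1 (s1 h)).2 (hW.2.2 v)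
    refine ⟨insert v S, insert_subset (by_contra fun h => hv.ne' (hν.2 v h))
      (s1.trans (filter_subset _ _)), by rw [card_insert_of_notMem hvS, s2], ?_⟩
    intro x hx y hy hxy
    rcases mem_insert.1 hx with rfl | hx' <;> rcases mem_insert.1 hy with rfl | hy'
    · rfl
    · exact absurd hxy (mem_filter.1 (s1 hy')).2
    · exact absurd ((hW.2.1 _ _).trans hxy) (mem_filter.1 (s1 hx')).2
    · exact s3 x hx' y hy' hxy

theorem free {W : O → O → ℝ} {β Φ c : ℝ} {j : ℕ} (hW : Gr W) (hβ : 0 ≤ β) (hc : 0 ≤ c)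
    (hN : 0 < Fintype.card O)
    (hm : ∀ ν, Pb ν → (∀ x, Fintype.card O * ν x ≤ Real.exp (2 * Φ)) → β * Q W ν ν ≤ Φ →
      ∃ v μ, 0 < ν v ∧ Mv W β c ν v μ)
    (h0 : β * ((∑ x, ∑ y, W x y) / (Fintype.card O : ℝ) ^ 2) + j * c ≤ Φ) :
    ∃ S : Finset O, S.card = j + 1 ∧ ∀ x ∈ S, ∀ y ∈ S, W x y = 1 → x = y := by
  have hN' : (0 : ℝ) < Fintype.card O := by exact_mod_cast hN
  obtain ⟨S, -, h⟩ := free_ind hW hβ hc hN hm j univ _
    ⟨fun _ => (Fintype.card O : ℝ)⁻¹, ⟨⟨fun _ => by positivity, by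
      rw [sum_const, card_univ, nsmul_eq_mul, mul_inv_cancel₀ hN'.ne']⟩,
      fun x hx => absurd (mem_univ x) hx⟩, le_of_eq (by
      unfold free_F Q
      beta_reduce
      rw [mul_inv_cancel₀ hN'.ne', Real.log_one, mul_zero, sum_const_zero, zero_add, sum_div]
      congr 1
      refine sum_congr rfl fun x _ => ?_
      rw [sum_div]
      exact sum_congr rfl fun y _ => by field_simp)⟩ h0
  exact ⟨S, h⟩

end Pool.Agent.Work.MP_e10cd8_co.Up
end

-- merged part: Pool.Agent.Work.MP_e10cd8_co.Up.WDrc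
section
/-! Weighted dependent random choice (paper 1). -/

namespace Pool.Agent.Work.MP_e10cd8_co.Up
open Finset Pool.Agent.Work.MP_e10cd8_co.Four Pool.Agent.Work.MP_e10cd8_co.Upper
  Pool.Agent.Work.MP_e10cd8_co.Uni

variable {V : Type} [Fintype V] [DecidableEq V]

/-- equal or joined by an arc -/
noncomputable def adj (A : V → V → Prop) (x y : V) : ℝ := ind (x = y ∨ A x y ∨ A y x)

omit [Fintype V] [DecidableEq V] in
theorem gr_adj (A : V → V → Prop) : Gr (adj A) := by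
  refine ⟨fun x y => ?_, fun x y => ?_, fun x => ind_pos (Or.inl rfl)⟩
  · by_cases k : x = y ∨ A x y ∨ A y x
    · exact Or.inr (ind_pos k)
    · exact Or.inl (ind_neg k)
  · unfold adj
    congr 1
    exact propext ⟨fun k => k.imp Eq.symm Or.symm, fun k => k.imp Eq.symm Or.symm⟩

omit [DecidableEq V] in
theorem wdrc_pi (g : V → ℝ) (p : V → Prop) (h : ℕ) :
    ∑ y : Fin h → V, (∏ i, g (y i)) * ind (∀ i, p (y i)) = (∑ w, g w * ind (p w)) ^ h := by
  rw [Fintype.sum_pow]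
  refine sum_congr rfl fun y _ => ?_
  rw [prod_mul_distrib]
  congr 1
  by_cases k : ∀ i, p (y i)
  · rw [ind_pos k]
    exact (prod_eq_one fun i _ => ind_pos (k i)).symm
  · rw [ind_neg k]
    obtain ⟨i, hi⟩ := not_forall.1 k
    exact (prod_eq_zero (mem_univ i) (ind_neg hi)).symm

theorem wdrc (A : V → V → Prop) {g : V → ℝ} (hg : Le 1 (fun _ => 1) g) {a b : ℕ} (h : ℕ)
    {B1 B2 D : ℝ} (hD : 0 ≤ D) (hB : 0 ≤ B2) (h1 : ∀ W, ¬ HasT A (a + 1) W → (W.card : ℝ) ≤ B1)
    (h2 : ∀ W, ¬ HasT A b W → (W.card : ℝ) ≤ B2) (hX : ¬ HasT A (a + 1 + b) univ) :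
    (selIn univ fun u => D ≤ ∑ w, g w * ind (A u w)).card * D ^ h ≤
      B1 * (∑ w, g w) ^ h + (Fintype.card V : ℝ) ^ (a + 1) * B2 ^ h := by
  set T := selIn (univ : Finset (Fin (a + 1) → V)) fun f => ∀ i j, i < j → A (f i) (f j) with hT
  have g0 : ∀ p : V → Prop, 0 ≤ ∑ w, g w * ind (p w) := fun p =>
    sum_nonneg fun w _ => mul_nonneg (hg w).1 (ind_nonneg _)
  have a1 : ∀ y : Fin h → V, ∑ u, ind (∀ i, A u (y i)) ≤
      B1 + ∑ f ∈ T, ind (∀ i, ∀ j, A (f j) (y i)) := fun y => by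
    rw [← card_selIn, ← card_selIn]
    have c := h1 ((selIn univ fun u => ∀ i, A u (y i)) \
      (selIn T fun f => ∀ i, ∀ j, A (f j) (y i)).image fun f => f 0) fun ⟨f, f1, f2⟩ =>
      (Finset.mem_sdiff.1 (f1 0)).2 (mem_image_of_mem (fun f : Fin (a + 1) → V => f 0)
        (mem_selIn.2 ⟨mem_selIn.2 ⟨mem_univ f, f2⟩,
          fun i j => (mem_selIn.1 (Finset.mem_sdiff.1 (f1 j)).1).2 i⟩))
    have c1 := (card_le_card_sdiff_add_card (s := selIn univ fun u => ∀ i, A u (y i))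
      (t := (selIn T fun f => ∀ i, ∀ j, A (f j) (y i)).image fun f => f 0)).trans
      (Nat.add_le_add_left card_image_le _)
    have c2 := (Nat.cast_le (α := ℝ)).2 c1
    push_cast at c2
    linarith
  have a2 : ∑ y : Fin h → V, (∏ i, g (y i)) * ∑ u, ind (∀ i, A u (y i)) ≤
      ∑ y : Fin h → V, (∏ i, g (y i)) * (B1 + ∑ f ∈ T, ind (∀ i, ∀ j, A (f j) (y i))) :=
    sum_le_sum fun y _ => mul_le_mul_of_nonneg_left (a1 y) (prod_nonneg fun i _ => (hg _).1)
  simp only [mul_add, mul_sum, sum_add_distrib] at a2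
  rw [sum_comm, sum_comm (t := T), ← sum_mul, ← Fintype.sum_pow] at a2
  have a3 : ∑ f ∈ T, ∑ y : Fin h → V, (∏ i, g (y i)) * ind (∀ i, ∀ j, A (f j) (y i)) ≤
      (Fintype.card V : ℝ) ^ (a + 1) * B2 ^ h := by
    refine (sum_le_card_nsmul _ _ (B2 ^ h) fun f hf => ?_).trans ?_
    · rw [wdrc_pi g (fun w => ∀ j, A (f j) w) h]
      refine pow_le_pow_left₀ (g0 _) (le_trans ?_ (h2 (selIn univ fun w => ∀ j, A (f j) w)
        fun k => hX (hasT_append f (fun _ => mem_univ _) (mem_selIn.1 hf).2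
          (fun w hw => mem_selIn.1 hw) k))) _
      rw [card_selIn]
      exact sum_le_sum fun w _ => mul_le_of_le_one_left (ind_nonneg _) (by simpa using (hg w).2)
    · rw [nsmul_eq_mul]
      refine mul_le_mul_of_nonneg_right ?_ (by positivity)
      have := card_le_univ T
      rw [Fintype.card_fun, Fintype.card_fin] at this
      exact_mod_cast this
  have a4 : (selIn univ fun u => D ≤ ∑ w, g w * ind (A u w)).card * D ^ h ≤
      ∑ u, ∑ y : Fin h → V, (∏ i, g (y i)) * ind (∀ i, A u (y i)) := by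
    rw [card_selIn, sum_mul]
    refine sum_le_sum fun u _ => ?_
    rw [wdrc_pi g (fun w => A u w) h]
    by_cases k : D ≤ ∑ w, g w * ind (A u w)
    · rw [ind_pos k, one_mul]
      exact pow_le_pow_left₀ hD k _
    · rw [ind_neg k, zero_mul]
      exact pow_nonneg (g0 _) _
  linarith

theorem wdrc_bad (A : V → V → Prop) {g : V → ℝ} (hg : Le 1 (fun _ => 1) g) {a b h : ℕ}
    {B1 B2 D X : ℝ} (hD : 0 < D) (hX0 : 0 < X)
    (h1 : ∀ W, ¬ HasT A (a + 1) W → (W.card : ℝ) ≤ B1)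
    (h2 : ∀ W, ¬ HasT A b W → (W.card : ℝ) ≤ B2) (hX : ¬ HasT A (a + 1 + b) univ)
    (c1 : (Fintype.card V : ℝ) ^ (a + 1) * B2 ^ h ≤ X ^ h)
    (c2 : 2 * (B1 + 1) ≤ D ^ (h + 1) * X) :
    2 * ∑ u, ind (D * (∑ w, g w + X) ≤ ∑ w, g w * ind (A u w)) ≤ D * X := by
  have g0 := hg.sum_nonneg
  have b1 : 0 ≤ B1 := by simpa using h1 ∅ fun ⟨f, k, _⟩ => notMem_empty _ (k 0)
  have o := wdrc A hg h (B2 := max B2 0) (D := D * (∑ w, g w + X)) (by positivity)
    (le_max_right _ _) h1 (fun W k => (h2 W k).trans (le_max_left _ _)) hX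
  have u : (Fintype.card V : ℝ) ^ (a + 1) * max B2 0 ^ h ≤ X ^ h := by
    rcases le_total 0 B2 with k | k
    · rwa [max_eq_left k]
    · rcases h with _ | h
      · simpa using c1
      · rw [max_eq_right k, zero_pow h.succ_ne_zero, mul_zero]
        positivity
  have u1 : X ^ h ≤ (∑ w, g w + X) ^ h := pow_le_pow_left₀ hX0.le (by linarith) _
  have u2 : B1 * (∑ w, g w) ^ h ≤ B1 * (∑ w, g w + X) ^ h :=
    mul_le_mul_of_nonneg_left (pow_le_pow_left₀ g0 (by linarith) _) b1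
  have p : 0 < (∑ w, g w + X) ^ h := by positivity
  have q : 0 < D ^ h := by positivity
  rw [mul_pow, ← mul_assoc, card_selIn] at o
  have u3 : (∑ u, ind (D * (∑ w, g w + X) ≤ ∑ w, g w * ind (A u w))) * D ^ h ≤ B1 + 1 :=
    le_of_mul_le_mul_right (o.trans (by linarith)) p
  rw [pow_succ] at c2
  exact le_of_mul_le_mul_right (by linarith) q

theorem wsp (A : V → V → Prop) {a b h : ℕ} {B1 B2 D X : ℝ} (hD : 0 < D)
    (h1 : ∀ W, ¬ HasT A (a + 1) W → (W.card : ℝ) ≤ B1)
    (h2 : ∀ W, ¬ HasT A b W → (W.card : ℝ) ≤ B2) (hX : ¬ HasT A (a + 1 + b) univ)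
    (c0 : 1 ≤ D * X) (c1 : (Fintype.card V : ℝ) ^ (a + 1) * B2 ^ h ≤ X ^ h)
    (c2 : 2 * (B1 + 1) ≤ D ^ (h + 1) * X) : Sp (adj A) (fun _ => 1) (3 * D) X := by
  have X0 : 0 < X := (mul_pos_iff_of_pos_left hD).1 (lt_of_lt_of_le one_pos c0)
  refine sp_of_one fun f g hf hg => ?_
  have o1 := wdrc_bad A hg hD X0 h1 h2 hX c1 c2
  have o2 := wdrc_bad (fun u v => A v u) hg hD X0 (fun W k => h1 W fun t => k (hasT_flip t))
    (fun W k => h2 W fun t => k (hasT_flip t)) (fun t => hX (hasT_flip t)) c1 c2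
  have g0 := hg.sum_nonneg
  have f0 := hf.sum_nonneg
  set S := ∑ w, g w + X with hS
  have S0 : 0 ≤ S := by linarith
  have S1 : 1 ≤ D * S := c0.trans (mul_le_mul_of_nonneg_left (by linarith) hD.le)
  have k : ∀ x, ∑ y, f x * g y * adj A x y ≤ 3 * D * S * f x +
      S * (ind (D * S ≤ ∑ w, g w * ind (A x w)) + ind (D * S ≤ ∑ w, g w * ind (A w x))) := by
    intro x
    have fx : f x ≤ 1 := by simpa using (hf x).2
    have i1 := ind_nonneg (D * S ≤ ∑ w, g w * ind (A x w))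
    have i2 := ind_nonneg (D * S ≤ ∑ w, g w * ind (A w x))
    have p : 0 ≤ 3 * D * S * f x := mul_nonneg (by positivity) (hf x).1
    have e : ∑ y, f x * g y * adj A x y = f x * ∑ y, g y * adj A x y := by
      simp only [mul_sum, mul_assoc]
    have r0 : 0 ≤ ∑ y, g y * adj A x y :=
      sum_nonneg fun y _ => mul_nonneg (hg y).1 (ind_nonneg _)
    have r1 : ∑ y, g y * adj A x y ≤ ∑ y, g y :=
      sum_le_sum fun y _ => mul_le_of_le_one_right (hg y).1 (ind_le_one _)
    have r2 : f x * ∑ y, g y * adj A x y ≤ S :=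
      (mul_le_of_le_one_left r0 fx).trans (by linarith)
    rw [e]
    by_cases k1 : D * S ≤ ∑ w, g w * ind (A x w)
    · rw [ind_pos k1]
      nlinarith [mul_nonneg S0 i2]
    by_cases k2 : D * S ≤ ∑ w, g w * ind (A w x)
    · rw [ind_pos k2]
      nlinarith [mul_nonneg S0 i1]
    rw [ind_neg k1, ind_neg k2, add_zero, mul_zero, add_zero, mul_comm _ (f x)]
    refine mul_le_mul_of_nonneg_left ?_ (hf x).1
    have r3 : ∑ y, g y * adj A x y ≤ ∑ y, ((if x = y then 1 else 0) +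
        (g y * ind (A x y) + g y * ind (A y x))) := sum_le_sum fun y _ => by
      have gy : g y ≤ 1 := by simpa using (hg y).2
      have j1 := mul_nonneg (hg y).1 (ind_nonneg (A x y))
      have j2 := mul_nonneg (hg y).1 (ind_nonneg (A y x))
      have j3 : g y * adj A x y ≤ g y := mul_le_of_le_one_right (hg y).1 (ind_le_one _)
      split_ifs with t
      · linarith
      · by_cases t1 : A x y
        · rw [ind_pos t1]
          linarith
        by_cases t2 : A y x
        · rw [ind_pos t2]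
          linarith
        rw [adj, ind_neg (p := x = y ∨ A x y ∨ A y x) (by tauto)]
        linarith
    rw [sum_add_distrib, sum_add_distrib, sum_ite_eq, if_pos (mem_univ _)] at r3
    linarith [not_le.1 k1, not_le.1 k2]
  refine (sum_le_sum fun x _ => k x).trans ?_
  rw [sum_add_distrib, ← mul_sum, ← mul_sum, sum_add_distrib]
  nlinarith [mul_le_mul_of_nonneg_left o1 S0, mul_le_mul_of_nonneg_left o2 S0,
    mul_nonneg S0 (mul_pos hD X0).le]

end Pool.Agent.Work.MP_e10cd8_co.Up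
end

-- merged part: Pool.Agent.Work.MP_e10cd8_co.Up.Ind
section
/-! Sparse graphs have large independent sets (paper 9). -/

namespace Pool.Agent.Work.MP_e10cd8_co.Up
open Finset Real

variable {O : Type} [Fintype O]

theorem indb_pos {a n : ℝ} (h : 1 ≤ a * n) (hn : 0 < n) : 0 < a :=
  (mul_pos_iff_of_pos_right hn).1 (zero_lt_one.trans_le h)

theorem params {n η ε q : ℝ} (hn : 0 < n) (hl : 20 ≤ log n) (hη : 1 ≤ η * n) (hη1 : η ≤ 1 / 4)
    (hq : 1 ≤ q * n) (hε : 0 ≤ ε)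
    (hε1 : ε ≤ exp (-(100 * (1 + 1536 * η ^ 2 * n) ^ 2 * log n ^ 2))) :
    ∃ (e u : ℝ) (s k J : ℕ), ε ≤ e ∧ 0 < e ∧ 0 < u ∧ u ≤ 1 ∧ 1536 * η ^ 2 * n * u ≤ 1 ∧
      1 ≤ s * u ∧ (1 + 1 / (4 * η)) ^ s * e ≤ 1 ∧ 48 * n ≤ k * e ∧ 5760 * η ^ 2 * n < J ∧
      3 * ((k : ℝ) + 1) ^ J * ε ≤ η * q ∧
      704 * η / (1 + u) ^ s + 3 * η * e ^ 2 + 48 * (((k : ℝ) + 1) ^ J + 1) * ε ≤ q / (16 * n) := by
  obtain ⟨l, hl'⟩ : ∃ l, l = log n := ⟨_, rfl⟩
  have en : exp l = n := by rw [hl', exp_log hn]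
  rw [← hl'] at hl hε1
  have n1 : 200 ≤ n := by
    have := quadratic_le_exp_of_nonneg (x := l) (by linarith)
    linarith [pow_le_pow_left₀ (by norm_num) hl 2]
  have η0 : 0 < η := indb_pos hη hn
  obtain ⟨P, hP⟩ : ∃ P, P = 1 + 1536 * η ^ 2 * n := ⟨_, rfl⟩
  rw [← hP] at hε1
  have p0 : 0 ≤ η ^ 2 * n := by positivity
  have P1 : 1 ≤ P := by linarith
  have P0 : 0 < P := by linarith
  have Pl : 20 ≤ P * l := hl.trans (le_mul_of_one_le_left (by linarith) P1)
  obtain ⟨s, s1, s2⟩ : ∃ s : ℕ, 8 * (P * l) ≤ s ∧ s ≤ 9 * (P * l) :=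
    ⟨_, Nat.le_ceil _, (Nat.ceil_lt_add_one (by linarith)).le.trans (by linarith)⟩
  have l0 : 0 < l := by linarith
  have sl : 4 * l ≤ s * l := mul_le_mul_of_nonneg_right (by linarith) l0.le
  have sl' : s * l ≤ 9 * (P * l ^ 2) := (mul_le_mul_of_nonneg_right s2 l0.le).trans_eq (by ring)
  have ll : l ≤ P * l ^ 2 :=
    (le_mul_of_one_le_left l0.le (by linarith : 1 ≤ P * l)).trans_eq (by ring)
  have Pl2 : 0 ≤ P * l ^ 2 := by positivity
  have PP : P * l ^ 2 ≤ P ^ 2 * l ^ 2 := (le_mul_of_one_le_left Pl2 P1).trans_eq (by ring)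
  have w4 : exp (4 * l) = n ^ 4 := by rw [← en, ← exp_nat_mul]; norm_num
  have w0 : exp (-(4 * l)) = 1 / n ^ 4 := by rw [exp_neg, w4, one_div]
  have E1 : n ^ 4 ≤ exp (s * l) := w4 ▸ exp_le_exp.2 sl
  have E2 : 50 * n ≤ exp (s * l) := by
    have := mul_le_mul_of_nonneg_right (pow_le_pow_left₀ (by norm_num) n1 3) hn.le
    linarith
  obtain ⟨k, k1, k2⟩ : ∃ k : ℕ, 48 * n * exp (s * l) ≤ k ∧ (k : ℝ) + 1 ≤ exp (2 * (s * l)) := by
    refine ⟨_, Nat.le_ceil _, ?_⟩
    have := Nat.ceil_lt_add_one (show 0 ≤ 48 * n * exp (s * l) by positivity)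
    have a := mul_le_mul_of_nonneg_right E2 (exp_pos (s * l)).le
    have b : 1 ≤ n * exp (s * l) := one_le_mul_of_one_le_of_one_le (by linarith) (by linarith)
    rw [two_mul, exp_add]
    linarith
  obtain ⟨J, J1, J2⟩ : ∃ J : ℕ, 5760 * η ^ 2 * n < J ∧ J ≤ 4 * P := by
    refine ⟨⌊5760 * η ^ 2 * n⌋₊ + 1, by push_cast; exact Nat.lt_floor_add_one _, ?_⟩
    have := Nat.floor_le (show 0 ≤ 5760 * η ^ 2 * n by positivity)
    push_cast
    linarith
  have K1 : (1 : ℝ) ≤ ((k : ℝ) + 1) ^ J := one_le_pow₀ (by linarith [Nat.cast_nonneg (α := ℝ) k])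
  have K2 : ((k : ℝ) + 1) ^ J * ε ≤ 1 / n ^ 4 := by
    have a : ((k : ℝ) + 1) ^ J ≤ exp (72 * (P ^ 2 * l ^ 2)) := by
      refine (pow_le_pow_left₀ (by positivity) k2 J).trans ?_
      rw [← exp_nat_mul, exp_le_exp]
      calc (J : ℝ) * (2 * (s * l)) ≤ 4 * P * (2 * (9 * (P * l ^ 2))) := by gcongr
        _ = _ := by ring
    refine (mul_le_mul a hε1 hε (exp_pos _).le).trans ?_
    rw [← exp_add, ← w0, exp_le_exp]
    linarith
  have u1 : 1 / P ≤ 1 := by rw [div_le_one P0]; exact P1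
  have u0 : 0 < 1 / P := by positivity
  have su : 8 * l ≤ s * (1 / P) := by
    rw [mul_one_div, le_div_iff₀ P0]
    linarith
  have U : n ^ 4 ≤ (1 + 1 / P) ^ s := by
    have a : exp (1 / P / 2) ≤ 1 + 1 / P := by
      refine (exp_bound_div_one_sub_of_interval (by positivity) (by linarith)).trans ?_
      rw [div_le_iff₀ (by linarith)]
      have := mul_le_of_le_one_left u0.le u1
      generalize 1 / P = u at *
      linarith
    refine le_trans ?_ (pow_le_pow_left₀ (exp_pos _).le a s)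
    rw [← exp_nat_mul, ← w4, exp_le_exp]
    linarith
  have n4 : 0 < n ^ 4 := by positivity
  have n2 : 4800 * (1 / n ^ 4) ≤ 1 / n ^ 2 := by
    rw [mul_one_div, div_le_div_iff₀ n4 (by positivity)]
    have := mul_le_mul_of_nonneg_right (pow_le_pow_left₀ (by norm_num) n1 2) (sq_nonneg n)
    linarith [sq_nonneg n]
  have w1 : 0 < 1 / n ^ 4 := by positivity
  refine ⟨exp (-(s * l)), 1 / P, s, k, J, hε1.trans (exp_le_exp.2 (by linarith)), exp_pos _, u0, u1,
    ?_, by linarith, ?_, ?_, J1, ?_, ?_⟩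
  · rw [mul_one_div, div_le_one P0]
    linarith
  · have a : 1 + 1 / (4 * η) ≤ exp l := by
      have : 1 / (4 * η) ≤ n / 4 := by
        rw [div_le_div_iff₀ (by positivity) (by norm_num)]
        linarith
      linarith
    refine (mul_le_mul_of_nonneg_right (pow_le_pow_left₀ (by positivity) a s) (exp_pos _).le).trans ?_
    rw [← exp_nat_mul, ← exp_add, add_neg_cancel, exp_zero]
  · rw [exp_neg, ← div_eq_mul_inv, le_div_iff₀ (exp_pos _)]
    exact k1
  · have a : 1 / n ^ 2 ≤ η * q := by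
      rw [div_le_iff₀ (by positivity)]
      linarith [mul_le_mul hη hq zero_le_one (by linarith)]
    linarith
  · have a : 704 * η / (1 + 1 / P) ^ s ≤ 176 * (1 / n ^ 4) := by
      rw [mul_one_div]
      exact div_le_div₀ (by norm_num) (by linarith) n4 U
    have b : exp (-(s * l)) ≤ 1 / n ^ 4 := w0 ▸ exp_le_exp.2 (by linarith)
    have b' : exp (-(s * l)) ≤ 1 := exp_le_one_iff.2 (by linarith)
    have c : 3 * η * exp (-(s * l)) ^ 2 ≤ 1 / n ^ 4 := by
      refine (mul_le_of_le_one_left (sq_nonneg _) (by linarith)).trans ?_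
      rw [sq]
      exact (mul_le_of_le_one_left (exp_pos _).le b').trans b
    have d : 1 / n ^ 2 / 16 ≤ q / (16 * n) := by
      rw [div_div, div_le_div_iff₀ (by positivity) (by positivity)]
      linarith [mul_le_mul_of_nonneg_right hq hn.le]
    linarith [mul_le_mul_of_nonneg_right K1 hε]

theorem ind_big {W : O → O → ℝ} {η q X : ℝ} {n : ℕ} (hW : Gr W) (hl : 20 ≤ log n)
    (hη : 1 ≤ η * n) (hη1 : η ≤ 1 / 4) (hq : 1 ≤ q * n) (hq1 : q ≤ 1) (hX : 0 < X)
    (hd : ∑ x, ∑ y, W x y ≤ q * (Fintype.card O : ℝ) ^ 2 / 2) (hS : Sp W (fun _ => 1) η X)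
    (hN : X * exp (64 * n * q + 100 * (1 + 1536 * η ^ 2 * n) ^ 2 * log n ^ 2) ≤ Fintype.card O) :
    ∃ S : Finset O, S.card = n + 1 ∧ ∀ x ∈ S, ∀ y ∈ S, W x y = 1 → x = y := by
  have hn : (0 : ℝ) < n := by
    rcases (Nat.cast_nonneg (α := ℝ) n).eq_or_lt with h | h
    · rw [← h] at hη; norm_num at hη
    · exact h
  have n1 : (1 : ℝ) ≤ n := by exact_mod_cast (by exact_mod_cast hn : 0 < n)
  have η0 : 0 < η := indb_pos hη hn
  have q0 : 0 < q := indb_pos hq hn
  have N0 : (0 : ℝ) < Fintype.card O := lt_of_lt_of_le (by positivity) hN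
  refine free (β := 32 * n) (Φ := 32 * n * q) (c := 16 * q) hW (by positivity) (by positivity)
    (by exact_mod_cast N0) (fun ν hν h1 h2 => ?_) ?_
  · have c0 : 0 ≤ exp (2 * (32 * n * q)) / Fintype.card O := by positivity
    obtain ⟨e, u, s, k, J, a1, a2, a3, a4, a5, a6, a7, a8, a9, a10, a11⟩ :=
      params (ε := exp (2 * (32 * n * q)) / Fintype.card O * X) hn hl hη hη1 hq (by positivity) (by
        rw [exp_neg, div_mul_eq_mul_div, ← one_div, div_le_div_iff₀ N0 (exp_pos _), one_mul]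
        refine le_trans (le_of_eq ?_) hN
        rw [exp_add, show 2 * (32 * n * q) = 64 * n * q by ring]
        ring)
    refine move hW hν (hS.mono η0.le hX.le c0 (fun x => ⟨hν.1 x, ?_⟩) le_rfl)
      (le_of_mul_le_mul_left h2 (by positivity)) n1 η0 hη1 q0 hq1 (by positivity) a1 a2 a3 a4 a5 a6
      a7 a8 a9 a10 a11
    rw [mul_one, le_div_iff₀' N0]
    exact h1 x
  · have a : (∑ x, ∑ y, W x y) / (Fintype.card O : ℝ) ^ 2 ≤ q / 2 := by
      rw [div_le_iff₀ (by positivity)]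
      linarith
    linarith [mul_le_mul_of_nonneg_left a hn.le]

end Pool.Agent.Work.MP_e10cd8_co.Up
end

-- merged part: Pool.Agent.Work.MP_e10cd8_co.Up.Step
section
/-! One step of the induction on the order of the tournament (paper 10). -/

namespace Pool.Agent.Work.MP_e10cd8_co.Up
open Finset Pool.Agent.Work.MP_e10cd8_co.Four Pool.Agent.Work.MP_e10cd8_co.Upper
  Pool.Agent.Work.MP_e10cd8_co.Uni Real

variable {V : Type} [DecidableEq V]

omit [DecidableEq V] in
/-- bounds for tournament-free sets pass to the subtype of `U` -/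
theorem step_sub {A : V → V → Prop} (U : Finset V) {j : ℕ} {B : ℝ}
    (h : ∀ W, ¬ HasT A j W → (W.card : ℝ) ≤ B) (W : Finset U)
    (k : ¬ HasT (fun x y : U => A x y) j W) : (W.card : ℝ) ≤ B := by
  have c := h (W.map (Function.Embedding.subtype _)) fun ⟨f, f1, f2⟩ => k (by
    choose g g1 g2 using fun i => mem_map.1 (f1 i)
    refine ⟨g, g1, fun i j hij => ?_⟩
    have e := f2 i j hij
    rw [← g2 i, ← g2 j] at e
    exact e)
  rwa [card_map] at c

/-- degree bound -/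
theorem step_deg {O : Type} [Fintype O] [DecidableEq O] {A : O → O → Prop} {m : ℕ} {F : ℝ}
    (h3 : ∀ W, ¬ HasT A m W → (W.card : ℝ) ≤ F) (hU : ¬ HasT A (m + 1) univ) (x : O) :
    ∑ y, adj A x y ≤ 1 + 2 * F := by
  have o1 := h3 (selIn univ fun y => A x y) fun t =>
    hU (hasT_cons (mem_univ x) (fun w hw => mem_selIn.1 hw) t)
  have o2 := h3 (selIn univ fun y => A y x) fun t =>
    hU (hasT_snoc (mem_univ x) (fun w hw => mem_selIn.1 hw) t)
  rw [card_selIn] at o1 o2
  have r : ∑ y, adj A x y ≤ ∑ y, ((if x = y then 1 else 0) + (ind (A x y) + ind (A y x))) :=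
    sum_le_sum fun y _ => by
      have j1 := ind_nonneg (A x y)
      have j2 := ind_nonneg (A y x)
      have j3 : adj A x y ≤ 1 := ind_le_one _
      split_ifs with t
      · linarith
      · by_cases t1 : A x y
        · rw [ind_pos t1]
          linarith
        by_cases t2 : A y x
        · rw [ind_pos t2]
          linarith
        rw [adj, ind_neg (p := x = y ∨ A x y ∨ A y x) (by tauto)]
        linarith
  rw [sum_add_distrib, sum_add_distrib, sum_ite_eq, if_pos (mem_univ _)] at r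
  linarith

theorem vstep (A : V → V → Prop) (hA : ∀ v, ¬ A v v) {n : ℕ}
    (hn : ∀ S, Ind A S → (S.card : ℝ) ≤ n) {m a b h : ℕ} {B1 B2 F D X q : ℝ}
    (hm : a + 1 + b = m + 1) (h1 : ∀ W, ¬ HasT A (a + 1) W → (W.card : ℝ) ≤ B1)
    (h2 : ∀ W, ¬ HasT A b W → (W.card : ℝ) ≤ B2) (h3 : ∀ W, ¬ HasT A m W → (W.card : ℝ) ≤ F)
    (U : Finset V) (hU : ¬ HasT A (m + 1) U) (hl : 20 ≤ log n) (hD : 1 ≤ 3 * D * n)
    (hD1 : 12 * D ≤ 1) (hq : 1 ≤ q * n) (hq1 : q ≤ 1) (hF : 1 ≤ F) (hqF : 6 * F ≤ q * U.card)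
    (c0 : 1 ≤ D * X) (c1 : (U.card : ℝ) ^ (a + 1) * B2 ^ h ≤ X ^ h)
    (c2 : 2 * (B1 + 1) ≤ D ^ (h + 1) * X)
    (c3 : X * exp (64 * n * q + 100 * (1 + 1536 * (3 * D) ^ 2 * n) ^ 2 * log n ^ 2) ≤ U.card) :
    False := by
  have D0 : 0 < D := by
    by_contra k
    have := mul_nonneg (neg_nonneg.2 (not_lt.1 k)) (Nat.cast_nonneg (α := ℝ) n)
    linarith
  have X0 : 0 < X := (mul_pos_iff_of_pos_left D0).1 (lt_of_lt_of_le one_pos c0)
  have hU' : ¬ HasT (fun x y : U => A x y) (m + 1) univ := fun ⟨f, _, f2⟩ =>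
    hU ⟨fun i => f i, fun i => (f i).2, f2⟩
  rw [← Fintype.card_coe] at hqF c1 c3
  have hS := wsp (fun x y : U => A x y) D0 (step_sub U h1) (step_sub U h2) (hm ▸ hU') c0 c1 c2
  have hd : ∑ x : U, ∑ y : U, adj (fun x y : U => A x y) x y ≤
      q * (Fintype.card U : ℝ) ^ 2 / 2 := by
    refine (sum_le_card_nsmul _ _ _ fun x _ => step_deg (step_sub U h3) hU' x).trans ?_
    rw [nsmul_eq_mul, card_univ]
    nlinarith [mul_le_mul_of_nonneg_left hqF (Nat.cast_nonneg (α := ℝ) (Fintype.card U)),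
      mul_le_mul_of_nonneg_left hF (Nat.cast_nonneg (α := ℝ) (Fintype.card U))]
  obtain ⟨S, s1, s2⟩ := ind_big (gr_adj _) hl hD (by linarith) hq hq1 X0 hd hS c3
  have c := hn (S.map (Function.Embedding.subtype _)) fun u hu v hv k => by
    obtain ⟨x, hx, rfl⟩ := mem_map.1 hu
    obtain ⟨y, hy, rfl⟩ := mem_map.1 hv
    have e := s2 x hx y hy (ind_pos (Or.inr (Or.inl k)))
    subst e
    exact hA _ k
  rw [card_map, s1] at c
  push_cast at c
  linarith

end Pool.Agent.Work.MP_e10cd8_co.Up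
end
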